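import Pool.Agent.Lib.MP_e005b4_ag.Tor.Spec

/-!
# Quadratic binomials vanish on the toric variety
-/

set_option autoImplicit false

namespace Pool.Agent.Lib.MP_e005b4_ag

open MvPolynomial
open scoped LinearAlgebra.Projectivization

theorem tBin : StBin := by
  intro n k A ξ hξ a b c d habcd
  by_cases h0 : ξ = 0
  · rw [h0]
    simp
  have hF : (X (Sum.inl a) * X (Sum.inl b) - X (Sum.inl c) * X (Sum.inl d) :
      MvPolynomial (A ⊕ Fin k) ℂ).IsHomogeneous 2 := by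
    refine IsHomogeneous.sub ?_ ?_
    · exact (isHomogeneous_X ℂ (Sum.inl a)).mul (isHomogeneous_X ℂ (Sum.inl b))
    · exact (isHomogeneous_X ℂ (Sum.inl c)).mul (isHomogeneous_X ℂ (Sum.inl d))
  have h1 := hξ h0 _ 2 hF ?_
  · rw [eval_rep_iff hF ξ h0] at h1
    simpa [sub_eq_zero] using h1
  · rintro q ⟨e, y, z, hq⟩
    rw [hq]
    have h2 : ∀ p r : A, (e * ((∏ i, y i ^ (p.1 i) : ℂˣ) : ℂ)) * (e * ((∏ i, y i ^ (r.1 i) : ℂˣ) : ℂ)) =
        e ^ 2 * ((∏ i, y i ^ ((p.1 + r.1) i) : ℂˣ) : ℂ) := by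
      intro p r
      have h3 : (∏ i, y i ^ ((p.1 + r.1) i) : ℂˣ) = (∏ i, y i ^ (p.1 i)) * ∏ i, y i ^ (r.1 i) := by
        rw [← Finset.prod_mul_distrib]
        refine Finset.prod_congr rfl fun i _ => ?_
        rw [Pi.add_apply, zpow_add]
      rw [h3, Units.val_mul]
      ring
    simp only [map_sub, map_mul, eval_X, Sum.elim_inl]
    rw [h2, h2, habcd, sub_self]

end Pool.Agent.Lib.MP_e005b4_ag
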