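import Pool.Agent.Lib.MP_e005b4_ag.Tor.Spec

/-!
# Toric varieties: the sets with an edge of length two
-/

set_option autoImplicit false

namespace Pool.Agent.Lib.MP_e005b4_ag

private theorem CaI_same {n : ℕ} (i : Fin n) (t : ℤ) : (ev i t : Fin n → ℤ) i = t := by
  simp [ev]

private theorem CaI_ne {n : ℕ} {i s : Fin n} (h : s ≠ i) (t : ℤ) : (ev i t : Fin n → ℤ) s = 0 := by
  simp [ev, h]

private theorem CaI_app {n : ℕ} (i : Fin n) (t : ℤ) (s : Fin n) :
    (ev i t : Fin n → ℤ) s = if s = i then t else 0 := by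
  rw [ev, Pi.single_apply]

private theorem CaI_sum {n : ℕ} (s : Finset (Fin n)) (j : Fin n) (t : ℤ) :
    ∑ i ∈ s, (ev j t : Fin n → ℤ) i = if j ∈ s then t else 0 := by
  simp only [CaI_app]
  rw [Finset.sum_ite_eq']

private theorem CaI_step {n : ℕ} (a : Fin n → ℤ) (ha : ∀ i, 0 ≤ a i) (k : ℤ)
    (hs : ∑ i, a i ≤ k + 1) (hne : a ≠ 0) :
    ∃ (j : Fin n) (a' : Fin n → ℤ), a = ev j 1 + a' ∧ (∀ i, 0 ≤ a' i) ∧ ∑ i, a' i ≤ k := by
  obtain ⟨j, hj⟩ : ∃ j, a j ≠ 0 := by
    by_contra h
    push Not at h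
    exact hne (funext h)
  refine ⟨j, a - ev j 1, by abel, fun i => ?_, ?_⟩
  · by_cases hij : i = j
    · subst hij
      have := ha i
      simp only [Pi.sub_apply, CaI_same]
      omega
    · simp only [Pi.sub_apply, CaI_ne hij]
      have := ha i
      omega
  · have h1 : ∑ i, (a - ev j 1) i = ∑ i, a i - 1 := by
      simp only [Pi.sub_apply]
      rw [Finset.sum_sub_distrib, CaI_sum]
      simp
    rw [h1]
    omega

private theorem CaI_zero {n : ℕ} (a : Fin n → ℤ) (ha : ∀ i, 0 ≤ a i)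
    (hs : ∑ i, a i ≤ 0) : a = 0 := by
  funext i
  have h1 := (Finset.sum_eq_zero_iff_of_nonneg (fun i _ => ha i)).mp
    (le_antisymm hs (Finset.sum_nonneg fun i _ => ha i))
  exact h1 i (Finset.mem_univ i)

private theorem CaI_class {n : ℕ} (a : Fin n → ℤ) (ha : ∀ i, 0 ≤ a i)
    (hs : ∑ i, a i ≤ 2) : a = 0 ∨ (∃ j, a = ev j 1) ∨ (∃ j, a = ev j 2) ∨
      ∃ j l, j ≠ l ∧ a = ev j 1 + ev l 1 := by
  by_cases h0 : a = 0
  · exact Or.inl h0
  right
  obtain ⟨j, a', rfl, ha', hs'⟩ := CaI_step a ha 1 hs h0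
  by_cases h1 : a' = 0
  · left
    exact ⟨j, by rw [h1, add_zero]⟩
  right
  obtain ⟨l, a'', rfl, ha'', hs''⟩ := CaI_step a' ha' 0 hs' h1
  have h2 := CaI_zero a'' ha'' hs''
  subst h2
  rw [add_zero]
  by_cases hjl : j = l
  · subst hjl
    left
    refine ⟨j, ?_⟩
    rw [ev, ev, ← Pi.single_add]
    norm_num
  · right
    exact ⟨j, l, hjl, rfl⟩

theorem tCaI (hNbr : StNbr) (hFour : StFour) : StCaI := by
  classical
  intro n A hStd hNo ⟨i0, hi0⟩
  obtain ⟨hch, hseg, hsm⟩ := id hStd
  have h0 : (0 : Fin n → ℤ) ∈ A := hch.1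
  have he : ∀ i, (ev i 1 : Fin n → ℤ) ∈ A := by
    intro i
    have h1 := hch.2.1 i
    rwa [zero_add, Pi.basisFun_apply] at h1
  have hpos : ∀ a ∈ A, ∀ i, 0 ≤ a i := by
    intro a ha i
    have h1 := hch.2.2 a ha i
    rwa [sub_zero, Pi.basisFun_repr] at h1
  have hO := hNo 0 (stdB n) hch
  have hb : ∀ i (t : ℤ), t • (stdB n i) = (ev i t : Fin n → ℤ) := by
    intro i t
    rw [Pi.basisFun_apply, ← Pi.single_smul, smul_eq_mul, mul_one]
  have hb1 : ∀ i, (stdB n i) = (ev i 1 : Fin n → ℤ) := by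
    intro i
    rw [Pi.basisFun_apply]
  -- O1
  have hO1 : ∀ i, ev i 2 ∈ A → ev i 3 ∉ A := by
    intro i h2 h3
    apply hO
    left
    refine ⟨i, ?_, ?_⟩
    · rwa [zero_add, hb]
    · rwa [zero_add, hb]
  have hO2 : ∀ i j, i ≠ j → ev i 2 ∈ A → ev i 1 + ev j 1 ∈ A → ev i 2 + ev j 1 ∉ A := by
    intro i j hij h2 h3 h4
    apply hO
    right
    left
    refine ⟨i, j, hij, ?_, ?_, ?_⟩
    · rwa [zero_add, hb]
    · rwa [zero_add, hb1, hb1]
    · rwa [zero_add, hb, hb1]
  -- (I.1)
  have hI1 : ∀ i, ev i 2 ∈ A → ∀ j, j ≠ i → ev i 1 + ev j 1 ∈ A := by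
    intro i hi j hj
    by_cases h2 : (ev j 2 : Fin n → ℤ) ∈ A
    · refine hseg _ hi _ h2 _ 1 1 (by norm_num) ?_
      funext s
      simp only [Pi.smul_apply, Pi.add_apply, smul_eq_mul, CaI_app]
      split_ifs <;> norm_num
    · obtain ⟨m, b', hc', -, hbj, hle⟩ := hNbr n A hStd j 1 le_rfl (by exact_mod_cast he j)
        (by norm_num; exact h2)
      have h3 := hle _ hi
      have h4 : ∑ s ∈ Finset.univ.erase j, m s * (ev i 2 : Fin n → ℤ) s = m i * 2 := by
        rw [Finset.sum_eq_single i]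
        · rw [CaI_same]
        · intro s _ hs
          rw [CaI_ne hs, mul_zero]
        · intro hn
          exact absurd (Finset.mem_erase.mpr ⟨hj.symm, Finset.mem_univ i⟩) hn
      rw [h4, CaI_ne hj] at h3
      have h5 : 0 ≤ m i := by
        push_cast at h3
        omega
      have h6 := hc'.2.1 i
      rw [hbj i hj.symm] at h6
      refine hseg _ (he i) _ h6 _ (m i).toNat 1 (by omega) ?_
      funext s
      simp only [Pi.smul_apply, Pi.add_apply, smul_eq_mul, CaI_app,
        Int.toNat_of_nonneg h5]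
      push_cast
      split_ifs <;> ring
  -- (I.3)
  have hI3 : ∀ a ∈ A, ∑ i, a i ≤ 2 := by
    obtain ⟨m, b', hc', -, hbj, hle⟩ := hNbr n A hStd i0 2 (by norm_num) (by exact_mod_cast hi0)
      (by norm_num; exact hO1 i0 hi0)
    have hm : ∀ j, j ≠ i0 → m j = -1 := by
      intro j hj
      have h1 := hle _ (hI1 i0 hi0 j hj)
      have h4 : ∑ s ∈ Finset.univ.erase i0, m s * (ev i0 1 + ev j 1 : Fin n → ℤ) s = m j := by
        rw [Finset.sum_eq_single j]
        · rw [Pi.add_apply, CaI_same, CaI_ne hj]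
          ring
        · intro s hs hs'
          rw [Pi.add_apply, CaI_ne hs', CaI_ne (Finset.ne_of_mem_erase hs)]
          ring
        · intro hn
          exact absurd (Finset.mem_erase.mpr ⟨hj, Finset.mem_univ j⟩) hn
      rw [h4, Pi.add_apply, CaI_same, CaI_ne hj.symm] at h1
      push_cast at h1
      by_contra hne
      have h5 : 0 ≤ m j := by omega
      have h6 := hc'.2.1 j
      rw [hbj j hj] at h6
      refine hO2 i0 j hj.symm hi0 (hI1 i0 hi0 j hj) ?_
      refine hseg _ h6 _ (he j) _ 2 (m j).toNat (by omega) ?_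
      funext s
      simp only [Pi.smul_apply, Pi.add_apply, smul_eq_mul, CaI_app,
        Int.toNat_of_nonneg h5]
      push_cast
      split_ifs <;> ring
    intro a ha
    have h1 := hle a ha
    have h2 : ∑ j ∈ Finset.univ.erase i0, m j * a j = - ∑ j ∈ Finset.univ.erase i0, a j := by
      rw [← Finset.sum_neg_distrib]
      refine Finset.sum_congr rfl fun j hj => ?_
      rw [hm j (Finset.ne_of_mem_erase hj)]
      ring
    have h3 := Finset.add_sum_erase Finset.univ a (Finset.mem_univ i0)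
    rw [h2] at h1
    push_cast at h1
    omega
  -- (I.5)
  have hlt : ∀ j l, j ≠ l → ev j 2 ∉ A → ev l 2 ∉ A → ∀ a ∈ A, a ≠ ev j 1 + ev l 1 →
      a j + a l ≤ 1 := by
    intro j l hjl hj hl a ha hne
    rcases CaI_class a (hpos a ha) (hI3 a ha) with h | ⟨s, h⟩ | ⟨s, h⟩ | ⟨s, t, hst, h⟩
    · rw [h]
      norm_num
    · rw [h]
      simp only [CaI_app]
      split_ifs with h1 h2
      · exact absurd (h1.trans h2.symm) hjl
      · norm_num
      · norm_num
      · norm_num
    · have hsj : j ≠ s := fun h1 => hj (by rw [h1, ← h]; exact ha)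
      have hsl : l ≠ s := fun h1 => hl (by rw [h1, ← h]; exact ha)
      rw [h, CaI_ne hsj, CaI_ne hsl]
      norm_num
    · rw [h]
      simp only [Pi.add_apply, CaI_app]
      by_cases h1 : j = s
      · by_cases h2 : l = t
        · exact absurd (by rw [h, h1, h2]) hne
        · have h3 : l ≠ s := fun h4 => hjl (h1.trans h4.symm)
          have h5 : j ≠ t := fun h6 => hst (h1.symm.trans h6)
          rw [if_pos h1, if_neg h2, if_neg h3, if_neg h5]
          norm_num
      · by_cases h2 : j = t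
        · have h3 : l ≠ t := fun h4 => hjl (h2.trans h4.symm)
          have h4 : l ≠ s := by
            intro h5
            apply hne
            rw [h, h2, h5, add_comm]
          rw [if_neg h1, if_pos h2, if_neg h3, if_neg h4]
          norm_num
        · rw [if_neg h1, if_neg h2]
          by_cases h3 : l = s
          · have h4 : l ≠ t := fun h5 => hst (h3.symm.trans h5)
            rw [if_pos h3, if_neg h4]
            norm_num
          · rw [if_neg h3]
            split_ifs <;> norm_num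
  have hI5 : ∀ j l, j ≠ l → ev j 2 ∉ A → ev l 2 ∉ A → ev j 1 + ev l 1 ∉ A := by
    intro j l hjl hj hl hmem
    have hji : j ≠ i0 := fun h => hj (by rw [h]; exact hi0)
    have hli : l ≠ i0 := fun h => hl (by rw [h]; exact hi0)
    have hw : ∀ a : Fin n → ℤ, ∑ s, (ev j 1 + ev l 1 : Fin n → ℤ) s * a s = a j + a l := by
      intro a
      simp only [Pi.add_apply, CaI_app, add_mul, ite_mul, one_mul, zero_mul]
      rw [Finset.sum_add_distrib, Finset.sum_ite_eq', Finset.sum_ite_eq']
      simp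
    have hv : IsVertex A (ev j 1 + ev l 1) := by
      refine ⟨hmem, ev j 1 + ev l 1, fun a ha hne => ?_⟩
      rw [hw, hw]
      have h1 := hlt j l hjl hj hl a ha hne
      have h2 : (ev j 1 + ev l 1 : Fin n → ℤ) j + (ev j 1 + ev l 1 : Fin n → ℤ) l = 2 := by
        rw [Pi.add_apply, Pi.add_apply, CaI_same, CaI_same,
          CaI_ne hjl, CaI_ne hjl.symm]
        norm_num
      omega
    refine hFour n A hStd j l i0 hjl hji hli hv ?_ ?_ ?_
    · rw [add_comm]
      exact hI1 i0 hi0 j hji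
    · rw [add_comm]
      exact hI1 i0 hi0 l hli
    · intro a ha _ hne
      exact hlt j l hjl hj hl a ha hne
  refine ⟨Finset.univ.filter fun j => ev j 2 ∉ A, fun a => ⟨fun ha => ⟨hpos a ha, hI3 a ha, ?_⟩,
    ?_⟩⟩
  · rcases CaI_class a (hpos a ha) (hI3 a ha) with h | ⟨s, h⟩ | ⟨s, h⟩ | ⟨s, t, hst, h⟩
    · rw [h]
      simp
    · rw [h, CaI_sum]
      split_ifs <;> norm_num
    · rw [h, CaI_sum, if_neg]
      · norm_num
      · rw [Finset.mem_filter]
        intro h1
        exact h1.2 (by rw [← h]; exact ha)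
    · rw [h]
      simp only [Pi.add_apply]
      rw [Finset.sum_add_distrib, CaI_sum, CaI_sum]
      split_ifs with h1 h2
      · exact absurd (by rw [← h]; exact ha)
          (hI5 s t hst (Finset.mem_filter.mp h1).2 (Finset.mem_filter.mp h2).2)
      · norm_num
      · norm_num
      · norm_num
  · rintro ⟨h1, h2, h3⟩
    rcases CaI_class a h1 h2 with h | ⟨s, h⟩ | ⟨s, h⟩ | ⟨s, t, hst, h⟩
    · rw [h]
      exact h0
    · rw [h]
      exact he s
    · rw [h, CaI_sum] at h3
      rw [h]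
      by_contra hn
      rw [if_pos (Finset.mem_filter.mpr ⟨Finset.mem_univ s, hn⟩)] at h3
      norm_num at h3
    · rw [h] at h3
      simp only [Pi.add_apply] at h3
      rw [Finset.sum_add_distrib, CaI_sum, CaI_sum] at h3
      rw [h]
      by_cases hs : (ev s 2 : Fin n → ℤ) ∈ A
      · exact hI1 s hs t hst.symm
      · by_cases ht : (ev t 2 : Fin n → ℤ) ∈ A
        · rw [add_comm]
          exact hI1 t ht s hst
        · rw [if_pos (Finset.mem_filter.mpr ⟨Finset.mem_univ s, hs⟩),
            if_pos (Finset.mem_filter.mpr ⟨Finset.mem_univ t, ht⟩)] at h3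
          norm_num at h3

end Pool.Agent.Lib.MP_e005b4_ag
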