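import Pool.Agent.Lib.MP_e005b4_ag.Tor.Spec

/-!
# The combinatorial classification, case II (all edges have length one)
-/

set_option autoImplicit false

namespace Pool.Agent.Lib.MP_e005b4_ag

theorem CaII_same {n : ℕ} (i : Fin n) (t : ℤ) : ev i t i = t := by
  unfold ev
  rw [Pi.single_eq_same]

theorem CaII_ne {n : ℕ} {i k : Fin n} (h : k ≠ i) (t : ℤ) : ev i t k = 0 := by
  unfold ev
  rw [Pi.single_eq_of_ne h]

theorem CaII_add {n : ℕ} (i : Fin n) (s t : ℤ) : ev i s + ev i t = ev i (s + t) := by
  unfold ev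
  rw [Pi.single_add]

theorem CaII_zero {n : ℕ} (i : Fin n) : ev i 0 = 0 := by
  unfold ev
  rw [Pi.single_zero]

theorem CaII_smul {n : ℕ} (i : Fin n) : (2 : ℤ) • ev i 1 = ev i 2 := by
  rw [two_smul, CaII_add]
  norm_num

theorem CaII_std {n : ℕ} (i : Fin n) : stdB n i = ev i 1 := Pi.basisFun_apply ℤ (Fin n) i

theorem CaII_seg {n : ℕ} {A : Finset (Fin n → ℤ)} (h : SegClosed A) {i : Fin n} {v : Fin n → ℤ}
    {t s : ℤ} (ht : ev i t + v ∈ A) (h0 : v ∈ A) (hs : 0 ≤ s) (hst : s ≤ t) : ev i s + v ∈ A := by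
  rcases eq_or_lt_of_le (hs.trans hst) with h1 | h1
  · have : s = t := by omega
    rwa [this]
  · obtain ⟨p, hp⟩ := Int.eq_ofNat_of_zero_le hs
    obtain ⟨q, hq⟩ := Int.eq_ofNat_of_zero_le (sub_nonneg.2 hst)
    refine h (ev i t + v) ht v h0 (ev i s + v) p q (by omega) ?_
    funext k
    simp only [Pi.smul_apply, Pi.add_apply, smul_eq_mul]
    have h2 : (p : ℤ) + q = t := by omega
    by_cases hk : k = i
    · subst hk
      rw [CaII_same, CaII_same, h2, hp]
      rw [← h2]
      ring
    · rw [CaII_ne hk, CaII_ne hk]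
      ring

/-- Non-negative integers with sum at most one. -/
theorem CaII_sum {n : ℕ} (C : Finset (Fin n)) (a : Fin n → ℤ) (h : ∀ i, 0 ≤ a i)
    (hC : ∑ i ∈ C, a i ≤ 1) : (∀ i ∈ C, a i = 0) ∨ ∃ i ∈ C, a i = 1 ∧ ∀ j ∈ C, j ≠ i → a j = 0 := by
  classical
  by_cases h0 : ∀ i ∈ C, a i = 0
  · exact Or.inl h0
  · push Not at h0
    obtain ⟨i, hi, hi0⟩ := h0
    right
    have h1 := h i
    rw [← Finset.add_sum_erase _ _ hi] at hC
    have h2 : 0 ≤ ∑ j ∈ C.erase i, a j := Finset.sum_nonneg fun j _ => h j
    refine ⟨i, hi, by omega, fun j hj hji => ?_⟩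
    have h3 : a j ≤ ∑ j ∈ C.erase i, a j :=
      Finset.single_le_sum (f := a) (fun j _ => h j) (Finset.mem_erase.2 ⟨hji, hj⟩)
    have h4 := h j
    omega

/-- **CaII.** The combinatorial classification, case II. -/
theorem tCaII (hNbr : StNbr) (hFour : StFour) : StCaII := by
  intro n A h hO h2
  classical
  have hpos : ∀ a ∈ A, ∀ i, 0 ≤ a i := by
    intro a ha i
    have h1 := h.1.2.2 a ha i
    rwa [sub_zero, Pi.basisFun_repr] at h1
  have h0 : (0 : Fin n → ℤ) ∈ A := h.1.1
  have he : ∀ i : Fin n, ev i 1 ∈ A := by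
    intro i
    have h1 := h.1.2.1 i
    rwa [zero_add, CaII_std] at h1
  have he2 : ∀ i : Fin n, ev i 2 ∉ A := by
    intro i
    have h1 := h2 0 (stdB n) h.1 i
    rwa [zero_add, CaII_std, CaII_smul] at h1
  have hN : ∀ i : Fin n, ∃ (m : Fin n → ℤ) (b' : Module.Basis (Fin n) ℤ (Fin n → ℤ)),
      IsChart A (ev i 1) b' ∧ (∀ j, j ≠ i → b' j = ev j 1 + ev i (m j)) ∧
      ∀ a ∈ A, a i ≤ 1 + ∑ j ∈ Finset.univ.erase i, m j * a j := by
    intro i
    obtain ⟨m, b', hc, _, hj, hm⟩ := hNbr n A h i 1 le_rfl (by rw [Nat.cast_one]; exact he i)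
      (by rw [Nat.cast_one]; exact he2 i)
    rw [Nat.cast_one] at hc hm
    exact ⟨m, b', hc, hj, hm⟩
  choose m b' hch hbj hin using hN
  have hmem : ∀ i j, j ≠ i → ev i (1 + m i j) + ev j 1 ∈ A := by
    intro i j hji
    have h1 := (hch i).2.1 j
    rw [hbj i j hji, add_comm (ev j 1), ← add_assoc, CaII_add] at h1
    exact h1
  -- the inequality for vectors with two coordinates
  have htwo : ∀ i j, i ≠ j → ∀ s t : ℤ, ev i s + ev j t ∈ A → s ≤ 1 + m i j * t := by
    intro i j hij s t ha
    have h1 := hin i _ ha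
    rw [Pi.add_apply, CaII_same, CaII_ne hij, add_zero, Finset.sum_eq_single j] at h1
    · rw [Pi.add_apply, CaII_same, CaII_ne (Ne.symm hij), zero_add] at h1
      exact h1
    · intro k hk hkj
      rw [Pi.add_apply, CaII_ne hkj, CaII_ne (Finset.ne_of_mem_erase hk), add_zero, mul_zero]
    · intro h3
      exact absurd (Finset.mem_erase.2 ⟨Ne.symm hij, Finset.mem_univ j⟩) h3
  have hobs : ∀ i j, i ≠ j → ev i 1 + ev j 1 ∈ A → ev i 2 + ev j 1 ∈ A → ev i 1 + ev j 2 ∈ A →
      False := by
    intro i j hij h3 h4 h5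
    refine hO 0 (stdB n) h.1 (Or.inr (Or.inr (Or.inl ⟨i, j, hij, ?_, ?_, ?_⟩)))
    · rwa [zero_add, CaII_std, CaII_std]
    · rwa [zero_add, CaII_std, CaII_std, CaII_smul]
    · rwa [zero_add, CaII_std, CaII_std, CaII_smul]
  have hm0 : ∀ i j, i ≠ j → m i j ≤ 0 := by
    intro i j hij
    by_contra hlt
    push Not at hlt
    have h3 := hmem i j (Ne.symm hij)
    have h4 : ev i 2 + ev j 1 ∈ A := CaII_seg h.2.1 h3 (he j) (by omega) (by omega)
    have h5 : ev i 1 + ev j 1 ∈ A := CaII_seg h.2.1 h3 (he j) (by omega) (by omega)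
    have h6 := htwo j i (Ne.symm hij) 1 2 (by rwa [add_comm])
    rcases (show 0 ≤ m j i by omega).eq_or_lt with h7 | h7
    · have h8 := h2 (ev j 1) (b' j) (hch j) i
      rw [hbj j i hij, ← h7, CaII_zero, add_zero, CaII_smul, add_comm] at h8
      exact h8 h4
    · have h8 := hmem j i hij
      have h9 : ev j 2 + ev i 1 ∈ A := CaII_seg h.2.1 h8 (he i) (by omega) (by omega)
      exact hobs i j hij h5 h4 (by rwa [add_comm])
  have hm1 : ∀ i j, i ≠ j → -1 ≤ m i j := by
    intro i j hij
    have h3 := hpos _ (hmem i j (Ne.symm hij)) i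
    rw [Pi.add_apply, CaII_same, CaII_ne hij] at h3
    omega
  have hQ : ∀ i j, i ≠ j → (ev i 1 + ev j 1 ∈ A ↔ m i j = 0) := by
    intro i j hij
    constructor
    · intro h3
      have h4 := htwo i j hij 1 1 h3
      have h5 := hm0 i j hij
      omega
    · intro h3
      have h4 := hmem i j (Ne.symm hij)
      rwa [h3, add_zero] at h4
  obtain ⟨D, hD⟩ : ∃ D : Fin n → Finset (Fin n), ∀ i j, j ∈ D i ↔ ev i 1 + ev j 1 ∉ A :=
    ⟨fun i => Finset.univ.filter fun j => ev i 1 + ev j 1 ∉ A, fun i j => by simp⟩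
  have hDi : ∀ i, i ∈ D i := by
    intro i
    rw [hD, CaII_add]
    exact he2 i
  have hDs : ∀ i j, j ∈ D i → i ∈ D j := by
    intro i j h3
    rw [hD] at h3 ⊢
    rwa [add_comm]
  -- (II.3)
  have hsum : ∀ i, ∀ a ∈ A, ∑ j ∈ D i, a j ≤ 1 := by
    intro i a ha
    have h3 := hin i a ha
    have h4 : ∑ j ∈ Finset.univ.erase i, m i j * a j = -∑ j ∈ (D i).erase i, a j := by
      rw [← Finset.sum_neg_distrib]
      have h5 : (D i).erase i ⊆ Finset.univ.erase i :=
        Finset.erase_subset_erase _ (Finset.subset_univ _)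
      rw [← Finset.sum_subset h5]
      · refine Finset.sum_congr rfl fun j hj => ?_
        have h6 : i ≠ j := Ne.symm (Finset.ne_of_mem_erase hj)
        have h7 := (hD i j).1 (Finset.mem_of_mem_erase hj)
        rw [hQ i j h6] at h7
        have h8 := hm0 i j h6
        have h9 := hm1 i j h6
        have h10 : m i j = -1 := by omega
        rw [h10]
        ring
      · intro j hj hj'
        have h6 : i ≠ j := Ne.symm (Finset.ne_of_mem_erase hj)
        have h7 : j ∉ D i := fun h7 => hj' (Finset.mem_erase.2 ⟨Ne.symm h6, h7⟩)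
        rw [hD, not_not, hQ i j h6] at h7
        rw [h7, zero_mul]
    rw [h4] at h3
    rw [← Finset.add_sum_erase _ _ (hDi i)]
    omega
  have hle1 : ∀ a ∈ A, ∀ i, a i ≤ 1 := by
    intro a ha i
    have h3 := hsum i a ha
    have h4 : a i ≤ ∑ j ∈ D i, a j :=
      Finset.single_le_sum (f := a) (fun j _ => hpos a ha j) (hDi i)
    omega
  -- (II.4)
  have htr : ∀ i j l, j ∈ D i → l ∈ D i → l ∈ D j := by
    intro i j l hj hl
    rw [hD]
    intro h3
    by_cases hjl : j = l
    · rw [hjl, CaII_add] at h3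
      exact he2 l h3
    · have h4 := hsum i _ h3
      rw [← Finset.add_sum_erase _ _ hj, ← Finset.add_sum_erase _ _
        (Finset.mem_erase.2 ⟨Ne.symm hjl, hl⟩), Pi.add_apply, Pi.add_apply, CaII_same,
        CaII_same, CaII_ne hjl, CaII_ne (Ne.symm hjl)] at h4
      have h5 : 0 ≤ ∑ k ∈ ((D i).erase j).erase l, (ev j 1 + ev l 1) k :=
        Finset.sum_nonneg fun k _ => hpos _ h3 k
      omega
  -- (II.5)
  have hthree : ∀ i j l, j ∉ D i → l ∉ D i → l ∈ D j := by
    intro i j l hj hl
    by_contra hjl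
    have hij : i ≠ j := by
      rintro rfl
      exact hj (hDi i)
    have hil : i ≠ l := by
      rintro rfl
      exact hl (hDi i)
    have hjl' : j ≠ l := by
      rintro rfl
      exact hjl (hDi j)
    rw [hD, not_not] at hj hl hjl
    have h3 : ev i 1 + ev j 1 + ev l 1 ∉ A := by
      intro h3
      refine hO 0 (stdB n) h.1 (Or.inr (Or.inr (Or.inr ⟨i, j, l, hij, hil, hjl', ?_, ?_, ?_, ?_⟩)))
      · rwa [zero_add, CaII_std, CaII_std]
      · rwa [zero_add, CaII_std, CaII_std]
      · rwa [zero_add, CaII_std, CaII_std]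
      · rwa [zero_add, CaII_std, CaII_std, CaII_std]
    -- a vector with two ones and zeros elsewhere
    have heq : ∀ a : Fin n → ℤ, a i = 1 → a j = 1 → (∀ k, k ≠ i → k ≠ j → a k = 0) →
        a = ev i 1 + ev j 1 := by
      intro a h4 h5 h6
      funext k
      rw [Pi.add_apply]
      by_cases hk : k = i
      · rw [hk, h4, CaII_same, CaII_ne hij, add_zero]
      · by_cases hk' : k = j
        · rw [hk', h5, CaII_same, CaII_ne (Ne.symm hij), zero_add]
        · rw [h6 k hk hk', CaII_ne hk, CaII_ne hk', add_zero]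
    refine hFour n A h i j l hij hil hjl' ⟨hj, fun k => if k = i ∨ k = j then 1 else -1, ?_⟩ hl
      hjl ?_
    · intro a ha hne
      have e : ∀ a : Fin n → ℤ, ∑ k, (if k = i ∨ k = j then (1 : ℤ) else -1) * a k =
          a i + a j - ∑ k ∈ (Finset.univ.erase i).erase j, a k := by
        intro a
        rw [← Finset.add_sum_erase _ _ (Finset.mem_univ i), ← Finset.add_sum_erase _ _
          (Finset.mem_erase.2 ⟨Ne.symm hij, Finset.mem_univ j⟩), if_pos (Or.inl rfl),
          if_pos (Or.inr rfl), one_mul, one_mul, sub_eq_add_neg, ← Finset.sum_neg_distrib,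
          ← add_assoc]
        congr 1
        refine Finset.sum_congr rfl fun k hk => ?_
        have h4 := Finset.ne_of_mem_erase hk
        have h5 := Finset.ne_of_mem_erase (Finset.mem_of_mem_erase hk)
        rw [if_neg (by tauto)]
        ring
      rw [e, e]
      have e2 : ∑ k ∈ (Finset.univ.erase i).erase j, (ev i 1 + ev j 1) k = 0 := by
        refine Finset.sum_eq_zero fun k hk => ?_
        have h4 := Finset.ne_of_mem_erase hk
        have h5 := Finset.ne_of_mem_erase (Finset.mem_of_mem_erase hk)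
        rw [Pi.add_apply, CaII_ne h5, CaII_ne h4, add_zero]
      rw [e2, Pi.add_apply, Pi.add_apply, CaII_same, CaII_same, CaII_ne hij,
        CaII_ne (Ne.symm hij)]
      have h4 := hle1 a ha i
      have h5 := hle1 a ha j
      have h6 : 0 ≤ ∑ k ∈ (Finset.univ.erase i).erase j, a k :=
        Finset.sum_nonneg fun k _ => hpos a ha k
      by_contra hge
      push Not at hge
      apply hne
      refine heq a (by omega) (by omega) fun k hki hkj => ?_
      have h7 : a k ≤ ∑ k ∈ (Finset.univ.erase i).erase j, a k :=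
        Finset.single_le_sum (f := a) (fun k _ => hpos a ha k)
          (Finset.mem_erase.2 ⟨hkj, Finset.mem_erase.2 ⟨hki, Finset.mem_univ k⟩⟩)
      have h8 := hpos a ha k
      omega
    · intro a ha hs hne
      have h4 := hle1 a ha i
      have h5 := hle1 a ha j
      have h6 := hle1 a ha l
      have h7 := hpos a ha l
      by_contra hgt
      push Not at hgt
      rcases (show a l = 0 ∨ a l = 1 by omega) with h8 | h8
      · apply hne
        refine heq a (by omega) (by omega) fun k hki hkj => ?_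
        by_cases hkl : k = l
        · rw [hkl, h8]
        · exact hs k hki hkj hkl
      · apply h3
        have h9 : a = ev i 1 + ev j 1 + ev l 1 := by
          funext k
          rw [Pi.add_apply, Pi.add_apply]
          by_cases hk : k = i
          · rw [hk, CaII_same, CaII_ne hij, CaII_ne hil]
            omega
          · by_cases hk' : k = j
            · rw [hk', CaII_same, CaII_ne (Ne.symm hij), CaII_ne hjl']
              omega
            · by_cases hk'' : k = l
              · rw [hk'', CaII_same, CaII_ne (Ne.symm hil), CaII_ne (Ne.symm hjl')]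
                omega
              · rw [hs k hk hk' hk'', CaII_ne hk, CaII_ne hk', CaII_ne hk'']
                omega
        rwa [← h9]
  -- (II.6)
  rcases isEmpty_or_nonempty (Fin n) with hn | ⟨⟨i₀⟩⟩
  · refine ⟨∅, fun a => ?_⟩
    have h3 : a = 0 := funext fun i => hn.elim i
    rw [h3]
    refine ⟨fun _ => ⟨fun i => hn.elim i, ?_, ?_⟩, fun _ => h0⟩
    · rw [Finset.sum_empty]
      exact zero_le_one
    · rw [Finset.sum_eq_zero fun i _ => hn.elim i]
      exact zero_le_one
  · refine ⟨D i₀, fun a => ⟨fun ha => ⟨hpos a ha, hsum i₀ a ha, ?_⟩, ?_⟩⟩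
    · rcases Finset.eq_empty_or_nonempty (D i₀)ᶜ with h3 | ⟨j₀, hj₀⟩
      · rw [h3, Finset.sum_empty]
        exact zero_le_one
      · refine le_trans ?_ (hsum j₀ a ha)
        refine Finset.sum_le_sum_of_subset_of_nonneg ?_ fun k _ _ => hpos a ha k
        intro l hl
        exact hthree i₀ j₀ l (Finset.mem_compl.1 hj₀) (Finset.mem_compl.1 hl)
    · rintro ⟨ha, hC, hC'⟩
      have hval : ∀ v : Fin n → ℤ, (∀ k ∈ D i₀, a k = v k) → (∀ k ∈ (D i₀)ᶜ, a k = v k) →
          a = v := by
        intro v h3 h4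
        funext k
        by_cases hk : k ∈ D i₀
        · exact h3 k hk
        · exact h4 k (Finset.mem_compl.2 hk)
      rcases CaII_sum _ a ha hC with h3 | ⟨i, hi, h3, h3'⟩
      · rcases CaII_sum _ a ha hC' with h4 | ⟨j, hj, h4, h4'⟩
        · rw [hval 0 (fun k hk => h3 k hk) fun k hk => h4 k hk]
          exact h0
        · rw [hval (ev j 1) ?_ ?_]
          · exact he j
          · intro k hk
            have h5 : k ≠ j := by
              rintro rfl
              exact Finset.mem_compl.1 hj hk
            rw [h3 k hk, CaII_ne h5]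
          · intro k hk
            by_cases h5 : k = j
            · rw [h5, h4, CaII_same]
            · rw [h4' k hk h5, CaII_ne h5]
      · rcases CaII_sum _ a ha hC' with h4 | ⟨j, hj, h4, h4'⟩
        · rw [hval (ev i 1) ?_ ?_]
          · exact he i
          · intro k hk
            by_cases h5 : k = i
            · rw [h5, h3, CaII_same]
            · rw [h3' k hk h5, CaII_ne h5]
          · intro k hk
            have h5 : k ≠ i := by
              rintro rfl
              exact Finset.mem_compl.1 hk hi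
            rw [h4 k hk, CaII_ne h5]
        · have hij : i ≠ j := by
            rintro rfl
            exact Finset.mem_compl.1 hj hi
          rw [hval (ev i 1 + ev j 1) ?_ ?_]
          · by_contra hno
            have h5 : j ∈ D i := (hD i j).2 hno
            exact Finset.mem_compl.1 hj (htr i i₀ j (hDs _ _ hi) h5)
          · intro k hk
            have h6 : k ≠ j := by
              rintro rfl
              exact Finset.mem_compl.1 hj hk
            rw [Pi.add_apply, CaII_ne h6, add_zero]
            by_cases h5 : k = i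
            · rw [h5, h3, CaII_same]
            · rw [h3' k hk h5, CaII_ne h5]
          · intro k hk
            have h6 : k ≠ i := by
              rintro rfl
              exact Finset.mem_compl.1 hk hi
            rw [Pi.add_apply, CaII_ne h6, zero_add]
            by_cases h5 : k = j
            · rw [h5, h4, CaII_same]
            · rw [h4' k hk h5, CaII_ne h5]

end Pool.Agent.Lib.MP_e005b4_ag
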