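import Pool.Agent.Lib.MP_e005b4_ag.Tor.Spec

/-!
# Toric varieties with rank = border rank: the module Cmb (helper84)
-/

set_option autoImplicit false

namespace Pool.Agent.Lib.MP_e005b4_ag

theorem tCmb (hCaI : StCaI) (hCaII : StCaII) (hTr : StTr) (hVer : StVer) : StCmb := by
  intro n A hne hseg hsm hno
  by_cases h : ∃ (u : Fin n → ℤ) (b : Module.Basis (Fin n) ℤ (Fin n → ℤ)), IsChart A u b ∧
      ∃ i, u + (2 : ℤ) • b i ∈ A
  · obtain ⟨u, b, hc, i, hi⟩ := h
    obtain ⟨A', hA', hno', hmem, -⟩ := hTr n A u b hc hseg hsm hno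
    have h1 : ev i 2 ∈ A' := by
      have h2 := (hmem _).1 hi
      have h3 : (fun t => b.repr (u + (2 : ℤ) • b i - u) t) = (ev i 2 : Fin n → ℤ) := by
        funext t
        rw [add_sub_cancel_left, map_smul, Finsupp.smul_apply, Module.Basis.repr_self,
          Finsupp.single_apply, smul_eq_mul]
        unfold ev
        rw [Pi.single_apply]
        by_cases hti : i = t
        · subst hti
          simp
        · rw [if_neg hti, if_neg (Ne.symm hti), mul_zero]
      rwa [h3] at h2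
    obtain ⟨J, hJ⟩ := hCaI n A' hA' hno' ⟨i, h1⟩
    exact ⟨u, b, Or.inr ⟨J, fun a => (hmem a).trans (hJ _)⟩⟩
  · push Not at h
    obtain ⟨u, hu⟩ := hVer n A hne
    obtain ⟨b, hc⟩ := hsm u hu
    obtain ⟨A', hA', hno', hmem, h2⟩ := hTr n A u b hc hseg hsm hno
    obtain ⟨C, hC⟩ := hCaII n A' hA' hno' (h2 fun u' b' hc' i => h u' b' hc' i)
    exact ⟨u, b, Or.inl ⟨C, fun a => (hmem a).trans (hC _)⟩⟩

end Pool.Agent.Lib.MP_e005b4_ag
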