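import Pool.Agent.Lib.MP_e005b4_ag.Sec.Var

/-!
# Toric varieties given by finite sets of lattice points

`A` is a finite set of points of `ℤⁿ`.  The toric variety of `A` is the closure of the set of the
points `[y ^ a]` (`a ∈ A`), `y` in the torus `(ℂ ∗)ⁿ`; `toricCone A k` is the cone over it with
`k` additional free coordinates.
-/

set_option autoImplicit false

namespace Pool.Agent.Lib.MP_e005b4_ag

open MvPolynomial
open scoped LinearAlgebra.Projectivization

variable {n : ℕ}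

/-- Every lattice point on a segment between two points of `A` is in `A`. -/
def SegClosed (A : Finset (Fin n → ℤ)) : Prop :=
  ∀ a ∈ A, ∀ b ∈ A, ∀ (c : Fin n → ℤ) (p q : ℕ), 0 < p + q →
    ((p : ℤ) + (q : ℤ)) • c = (p : ℤ) • a + (q : ℤ) • b → c ∈ A

/-- `u` is a vertex of (the convex hull of) `A`: some linear functional has its maximum on `A`
exactly at `u`. -/
def IsVertex (A : Finset (Fin n → ℤ)) (u : Fin n → ℤ) : Prop :=
  u ∈ A ∧ ∃ w : Fin n → ℤ, ∀ a ∈ A, a ≠ u → ∑ i, w i * a i < ∑ i, w i * u i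

/-- The basis `b` of `ℤⁿ` is a chart of `A` at `u`: the points `u` and `u + b i` are in `A` and
all points of `A` are of the form `u + ∑ x i • b i` with `x i ≥ 0`. -/
def IsChart (A : Finset (Fin n → ℤ)) (u : Fin n → ℤ)
    (b : Module.Basis (Fin n) ℤ (Fin n → ℤ)) : Prop :=
  u ∈ A ∧ (∀ i, u + b i ∈ A) ∧ ∀ a ∈ A, ∀ i, 0 ≤ b.repr (a - u) i

/-- `A` is smooth: there is a chart at every vertex. -/
def SmoothSet (A : Finset (Fin n → ℤ)) : Prop := ∀ u, IsVertex A u → ∃ b, IsChart A u b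

/-- The set of the points `[(c y ^ a) : z]` with `c` a complex number, `y` in the torus and `z` in
`ℂᵏ`. -/
def torusPts (A : Finset (Fin n → ℤ)) (k : ℕ) : Set (PSpace (A ⊕ Fin k)) :=
  {p | ∃ (c : ℂ) (y : Fin n → ℂˣ) (z : Fin k → ℂ),
    p.rep = Sum.elim (fun a : A => c * ((∏ i, y i ^ (a.1 i) : ℂˣ) : ℂ)) z}

/-- The cone, with `k` additional coordinates, over the toric variety of `A`. -/
def toricCone (A : Finset (Fin n → ℤ)) (k : ℕ) : Set (PSpace (A ⊕ Fin k)) :=
  zariskiClosure (torusPts A k)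

/-- In some affine coordinates of `ℤⁿ` the set `A` is a product of two standard simplices, or the
part of twice the standard simplex where the sum of the coordinates in `J` is at most one. -/
def StdSet (A : Finset (Fin n → ℤ)) : Prop :=
  ∃ (u : Fin n → ℤ) (b : Module.Basis (Fin n) ℤ (Fin n → ℤ)),
    (∃ C : Finset (Fin n), ∀ a, a ∈ A ↔ (∀ i, 0 ≤ b.repr (a - u) i) ∧
      ∑ i ∈ C, b.repr (a - u) i ≤ 1 ∧ ∑ i ∈ Cᶜ, b.repr (a - u) i ≤ 1) ∨
    (∃ J : Finset (Fin n), ∀ a, a ∈ A ↔ (∀ i, 0 ≤ b.repr (a - u) i) ∧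
      ∑ i, b.repr (a - u) i ≤ 2 ∧ ∑ i ∈ J, b.repr (a - u) i ≤ 1)

end Pool.Agent.Lib.MP_e005b4_ag
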