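import Pool.Agent.Lib.MP_e005b4_ag.Tor.Spec

/-!
# Toric varieties with rank = border rank: elements of rank one, product of simplices
-/

set_option autoImplicit false

namespace Pool.Agent.Lib.MP_e005b4_ag

open MvPolynomial
open scoped LinearAlgebra.Projectivization

private theorem ElD_nat {n : ℕ} (κ : Fin n → ℤ) (hκ : ∀ i, 0 ≤ κ i) (C : Finset (Fin n))
    (h : ∑ i ∈ C, κ i ≤ 1) : (1 - ∑ i ∈ C, κ i).toNat + ∑ i ∈ C, (κ i).toNat = 1 := by
  have h1 : ((∑ i ∈ C, (κ i).toNat : ℕ) : ℤ) = ∑ i ∈ C, κ i := by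
    rw [Nat.cast_sum]
    exact Finset.sum_congr rfl fun i _ => Int.toNat_of_nonneg (hκ i)
  omega

private theorem ElD_prod {n : ℕ} (κ : Fin n → ℤ) (hκ : ∀ i, 0 ≤ κ i) (C : Finset (Fin n))
    (hC : ∑ i ∈ C, κ i ≤ 1) (hD : ∑ i ∈ Cᶜ, κ i ≤ 1) (α β : ℂ) (hα : α ≠ 0) (hβ : β ≠ 0)
    (x : Fin n → ℂ) :
    (α * β) * ∏ i, (if i ∈ C then x i / α else x i / β) ^ (κ i).toNat =
      α ^ (1 - ∑ i ∈ C, κ i).toNat * β ^ (1 - ∑ i ∈ Cᶜ, κ i).toNat *
        ∏ i, x i ^ (κ i).toNat := by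
  have h1 : ∏ i, x i ^ (κ i).toNat =
      (∏ i, (if i ∈ C then x i / α else x i / β) ^ (κ i).toNat) *
        (α ^ (∑ i ∈ C, (κ i).toNat) * β ^ (∑ i ∈ Cᶜ, (κ i).toNat)) := by
    rw [← Finset.prod_pow_eq_pow_sum, ← Finset.prod_pow_eq_pow_sum]
    have h2 : (∏ i ∈ C, α ^ (κ i).toNat) * ∏ i ∈ Cᶜ, β ^ (κ i).toNat =
        ∏ i, (if i ∈ C then α else β) ^ (κ i).toNat := by
      rw [← Finset.prod_mul_prod_compl C fun i => (if i ∈ C then α else β) ^ (κ i).toNat]
      congr 1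
      · refine Finset.prod_congr rfl fun i hi => ?_
        rw [if_pos hi]
      · refine Finset.prod_congr rfl fun i hi => ?_
        rw [if_neg (Finset.mem_compl.1 hi)]
    rw [h2, ← Finset.prod_mul_distrib]
    refine Finset.prod_congr rfl fun i _ => ?_
    rw [← mul_pow]
    by_cases hi : i ∈ C
    · rw [if_pos hi, if_pos hi, div_mul_cancel₀ _ hα]
    · rw [if_neg hi, if_neg hi, div_mul_cancel₀ _ hβ]
  have hC' := ElD_nat κ hκ C hC
  have hD' := ElD_nat κ hκ Cᶜ hD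
  have e1 : α = α ^ (1 - ∑ i ∈ C, κ i).toNat * α ^ (∑ i ∈ C, (κ i).toNat) := by
    rw [← pow_add, hC', pow_one]
  have e2 : β = β ^ (1 - ∑ i ∈ Cᶜ, κ i).toNat * β ^ (∑ i ∈ Cᶜ, (κ i).toNat) := by
    rw [← pow_add, hD', pow_one]
  rw [h1]
  generalize (∏ i, (if i ∈ C then x i / α else x i / β) ^ (κ i).toNat) = P
  calc α * β * P = (α ^ (1 - ∑ i ∈ C, κ i).toNat * α ^ (∑ i ∈ C, (κ i).toNat)) *
        (β ^ (1 - ∑ i ∈ Cᶜ, κ i).toNat * β ^ (∑ i ∈ Cᶜ, (κ i).toNat)) * P := by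
        rw [← e1, ← e2]
    _ = _ := by ring

theorem tElD (hPts : StPts) (hPth : StPth) (hVar : StVar) : StElD := by
  intro n k A u b C hu hA α β x z
  have hne : (toricCone A k).Nonempty := (hVar n k A ⟨u, hu⟩).2.1
  have hcl : IsZariskiClosed (toricCone A k) := (hVar n k A ⟨u, hu⟩).1
  have h := hPth (A ⊕ Fin k) (toricCone A k) hcl hne
    (Sum.elim (fun a : A => (Polynomial.C α + Polynomial.X) ^
        (1 - ∑ i ∈ C, b.repr (a.1 - u) i).toNat *
      (Polynomial.C β + Polynomial.X) ^ (1 - ∑ i ∈ Cᶜ, b.repr (a.1 - u) i).toNat *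
      Polynomial.C (∏ i, x i ^ (b.repr (a.1 - u) i).toNat)) fun l => Polynomial.C (z l))
    {-α, -β} (fun ε hε => by
      rw [Finset.mem_insert, Finset.mem_singleton, not_or] at hε
      have hα : α + ε ≠ 0 := fun h => hε.1 (eq_neg_of_add_eq_zero_right h)
      have hβ : β + ε ≠ 0 := fun h => hε.2 (eq_neg_of_add_eq_zero_right h)
      have h1 := hPts n k A u b (fun a ha i => (hA a ha).1 i) ((α + ε) * (β + ε))
        (fun i => if i ∈ C then x i / (α + ε) else x i / (β + ε)) z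
      refine (congrArg (fun v => v ∈ cone (toricCone A k)) (funext fun i => ?_)).mpr h1
      rcases i with a | l
      · simp only [Sum.elim_inl, Polynomial.eval_mul, Polynomial.eval_pow, Polynomial.eval_add,
          Polynomial.eval_C, Polynomial.eval_X]
        exact (ElD_prod _ (hA a.1 a.2).1 C (hA a.1 a.2).2.1 (hA a.1 a.2).2.2 _ _ hα hβ x).symm
      · simp only [Sum.elim_inr, Polynomial.eval_C]) 0
  refine (congrArg (fun v => v ∈ cone (toricCone A k)) (funext fun i => ?_)).mpr h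
  rcases i with a | l
  · simp only [Sum.elim_inl, Polynomial.eval_mul, Polynomial.eval_pow, Polynomial.eval_add,
      Polynomial.eval_C, Polynomial.eval_X, add_zero]
  · simp only [Sum.elim_inr, Polynomial.eval_C]

end Pool.Agent.Lib.MP_e005b4_ag
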