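import Pool.Agent.Lib.MP_e005b4_ag.Tor.Spec

/-!
# Rank one elements of the truncated double simplex
-/

set_option autoImplicit false

namespace Pool.Agent.Lib.MP_e005b4_ag

open MvPolynomial
open scoped LinearAlgebra.Projectivization

/-- the identity of the coordinates -/
private theorem ElQ_id {n : ℕ} (J : Finset (Fin n)) (c w : ℂ) (hc : c ≠ 0) (hw : w ≠ 0)
    (x : Fin n → ℂ) (κ : Fin n → ℕ) (h2 : ∑ i, κ i ≤ 2) (hJ : ∑ i ∈ J, κ i ≤ 1) :
    c * w ^ 2 * ∏ i, (if i ∈ J then x i / (c * w) else x i / w) ^ κ i =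
      c ^ (1 - ∑ i ∈ J, κ i) * w ^ (2 - ∑ i, κ i) * ∏ i, x i ^ κ i := by
  have h3 : ∏ i, (if i ∈ J then x i / (c * w) else x i / w) ^ κ i =
      (∏ i, x i ^ κ i) * ((c ^ (∑ i ∈ J, κ i))⁻¹ * (w ^ (∑ i, κ i))⁻¹) := by
    have h4 : ∀ i, (if i ∈ J then x i / (c * w) else x i / w) ^ κ i =
        x i ^ κ i * ((if i ∈ J then (c ^ κ i)⁻¹ else 1) * (w ^ κ i)⁻¹) := by
      intro i
      split_ifs
      · rw [div_pow, mul_pow, div_eq_mul_inv, mul_inv]
      · rw [div_pow, div_eq_mul_inv, one_mul]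
    have h5 : ∏ i, (if i ∈ J then (c ^ κ i)⁻¹ else 1) = (c ^ (∑ i ∈ J, κ i))⁻¹ := by
      rw [Finset.prod_ite_mem, Finset.univ_inter, Finset.prod_inv_distrib, Finset.prod_pow_eq_pow_sum]
    rw [Finset.prod_congr rfl fun i _ => h4 i, Finset.prod_mul_distrib, Finset.prod_mul_distrib, h5,
      Finset.prod_inv_distrib, Finset.prod_pow_eq_pow_sum]
  have e1 : c = c ^ (1 - ∑ i ∈ J, κ i) * c ^ (∑ i ∈ J, κ i) := by
    rw [← pow_add, Nat.sub_add_cancel hJ, pow_one]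
  have e2 : w ^ 2 = w ^ (2 - ∑ i, κ i) * w ^ (∑ i, κ i) := by
    rw [← pow_add, Nat.sub_add_cancel h2]
  have hc' : c ^ (∑ i ∈ J, κ i) ≠ 0 := pow_ne_zero _ hc
  have hw' : w ^ (∑ i, κ i) ≠ 0 := pow_ne_zero _ hw
  rw [h3]
  calc c * w ^ 2 * ((∏ i, x i ^ κ i) * ((c ^ (∑ i ∈ J, κ i))⁻¹ * (w ^ (∑ i, κ i))⁻¹))
      = (c * (c ^ (∑ i ∈ J, κ i))⁻¹) * (w ^ 2 * (w ^ (∑ i, κ i))⁻¹) * ∏ i, x i ^ κ i := by ring
    _ = c ^ (1 - ∑ i ∈ J, κ i) * w ^ (2 - ∑ i, κ i) * ∏ i, x i ^ κ i := by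
        rw [e2, mul_assoc (w ^ _), mul_inv_cancel₀ hw', mul_one]
        congr 2
        rw [← div_eq_mul_inv, div_eq_iff hc']
        exact e1

/-- integers and natural numbers -/
private theorem ElQ_toNat {n : ℕ} (J : Finset (Fin n)) (f : Fin n → ℤ) (hf : ∀ i, 0 ≤ f i) (m : ℕ)
    (h : ∑ i ∈ J, f i ≤ m) :
    ∑ i ∈ J, (f i).toNat ≤ m ∧ ((m : ℤ) - ∑ i ∈ J, f i).toNat = m - ∑ i ∈ J, (f i).toNat := by
  have h1 : ((∑ i ∈ J, (f i).toNat : ℕ) : ℤ) = ∑ i ∈ J, f i := by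
    push_cast
    exact Finset.sum_congr rfl fun i _ => Int.toNat_of_nonneg (hf i)
  omega

theorem tElQ (hPts : StPts) (hPth : StPth) (hVar : StVar) : StElQ := by
  intro n k A u b J hu hA c w x z
  have hne : A.Nonempty := ⟨u, hu⟩
  obtain ⟨hcl, hirr⟩ := hVar n k A hne
  have hnon : (toricCone A k).Nonempty := hirr.1
  -- the case `c w ≠ 0`
  have key : ∀ c w : ℂ, c ≠ 0 → w ≠ 0 →
      (Sum.elim (fun a : A => c ^ (1 - ∑ i ∈ J, b.repr (a.1 - u) i).toNat *
        w ^ (2 - ∑ i, b.repr (a.1 - u) i).toNat *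
        ∏ i, x i ^ (b.repr (a.1 - u) i).toNat) z : A ⊕ Fin k → ℂ) ∈ cone (toricCone A k) := by
    intro c w hc hw
    have h1 := hPts n k A u b (fun a ha => (hA a ha).1) (c * w ^ 2)
      (fun i => if i ∈ J then x i / (c * w) else x i / w) z
    have h2 : (fun a : A => c * w ^ 2 * ∏ i, (if i ∈ J then x i / (c * w) else x i / w) ^
        (b.repr (a.1 - u) i).toNat) = fun a : A => c ^ (1 - ∑ i ∈ J, b.repr (a.1 - u) i).toNat *
        w ^ (2 - ∑ i, b.repr (a.1 - u) i).toNat * ∏ i, x i ^ (b.repr (a.1 - u) i).toNat := by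
      funext a
      obtain ⟨g1, g2, g3⟩ := hA a.1 a.2
      obtain ⟨f1, f2⟩ := ElQ_toNat J (fun i => b.repr (a.1 - u) i) g1 1 (by exact_mod_cast g3)
      obtain ⟨f3, f4⟩ := ElQ_toNat Finset.univ (fun i => b.repr (a.1 - u) i) g1 2
        (by exact_mod_cast g2)
      have f2' : (1 - ∑ i ∈ J, b.repr (a.1 - u) i).toNat =
          1 - ∑ i ∈ J, (b.repr (a.1 - u) i).toNat := by exact_mod_cast f2
      have f4' : (2 - ∑ i, b.repr (a.1 - u) i).toNat =
          2 - ∑ i, (b.repr (a.1 - u) i).toNat := by exact_mod_cast f4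
      rw [f2', f4']
      exact ElQ_id J c w hc hw x (fun i => (b.repr (a.1 - u) i).toNat) f3 f1
    rw [← h2]
    exact h1
  have h := hPth (A ⊕ Fin k) (toricCone A k) hcl hnon
    (Sum.elim (fun a : A => (Polynomial.C c + Polynomial.X) ^
      (1 - ∑ i ∈ J, b.repr (a.1 - u) i).toNat * (Polynomial.C w + Polynomial.X) ^
      (2 - ∑ i, b.repr (a.1 - u) i).toNat *
      Polynomial.C (∏ i, x i ^ (b.repr (a.1 - u) i).toNat)) (fun j => Polynomial.C (z j)))
    {-c, -w} (by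
      intro ε hε
      simp only [Finset.mem_insert, Finset.mem_singleton, not_or] at hε
      have hk := key (c + ε) (w + ε) (fun h0 => hε.1 (by linear_combination h0))
        (fun h0 => hε.2 (by linear_combination h0))
      have he : (fun i => (Sum.elim (fun a : A => (Polynomial.C c + Polynomial.X) ^
          (1 - ∑ i ∈ J, b.repr (a.1 - u) i).toNat * (Polynomial.C w + Polynomial.X) ^
          (2 - ∑ i, b.repr (a.1 - u) i).toNat *
          Polynomial.C (∏ i, x i ^ (b.repr (a.1 - u) i).toNat)) (fun j => Polynomial.C (z j))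
          i).eval ε) = (Sum.elim (fun a : A => (c + ε) ^ (1 - ∑ i ∈ J, b.repr (a.1 - u) i).toNat *
          (w + ε) ^ (2 - ∑ i, b.repr (a.1 - u) i).toNat *
          ∏ i, x i ^ (b.repr (a.1 - u) i).toNat) z : A ⊕ Fin k → ℂ) := by
        funext i
        rcases i with a | j
        · simp only [Sum.elim_inl, Polynomial.eval_mul, Polynomial.eval_pow, Polynomial.eval_add,
            Polynomial.eval_C, Polynomial.eval_X]
        · simp only [Sum.elim_inr, Polynomial.eval_C]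
      rw [he]
      exact hk) 0
  have he : (fun i => (Sum.elim (fun a : A => (Polynomial.C c + Polynomial.X) ^
      (1 - ∑ i ∈ J, b.repr (a.1 - u) i).toNat * (Polynomial.C w + Polynomial.X) ^
      (2 - ∑ i, b.repr (a.1 - u) i).toNat *
      Polynomial.C (∏ i, x i ^ (b.repr (a.1 - u) i).toNat)) (fun j => Polynomial.C (z j))
      i).eval 0) = (Sum.elim (fun a : A => c ^ (1 - ∑ i ∈ J, b.repr (a.1 - u) i).toNat *
      w ^ (2 - ∑ i, b.repr (a.1 - u) i).toNat *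
      ∏ i, x i ^ (b.repr (a.1 - u) i).toNat) z : A ⊕ Fin k → ℂ) := by
    funext i
    rcases i with a | j
    · simp only [Sum.elim_inl, Polynomial.eval_mul, Polynomial.eval_pow, Polynomial.eval_add,
        Polynomial.eval_C, Polynomial.eval_X, add_zero]
    · simp only [Sum.elim_inr, Polynomial.eval_C]
  rw [he] at h
  exact h

end Pool.Agent.Lib.MP_e005b4_ag
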