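import Pool.Agent.Lib.MP_e005b4_ag.Tor.Spec

/-!
# Toric varieties with rank = border rank: the module Four (helper84)
-/

set_option autoImplicit false

namespace Pool.Agent.Lib.MP_e005b4_ag

/-- a vector of weight one is a basis vector -/
private theorem four_basis {n : ℕ} (A : Finset (Fin n → ℤ)) (hpos : ∀ a ∈ A, ∀ t, 0 ≤ a t) (i j l : Fin n)
    (w : Fin n → ℤ) (hwi : w i = 1) (hwj : w j = 1) (hwt : ∀ t, t ≠ i → t ≠ j → w t = 0)
    (b : Module.Basis (Fin n) ℤ (Fin n → ℤ)) (hb : IsChart A w b)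
    (hA : ∀ a ∈ A, (∀ s, s ≠ i → s ≠ j → s ≠ l → a s = 0) → a ≠ w → a i + a j ≤ 1)
    (x : Fin n → ℤ) (hx : w + x ∈ A) (hx0 : ∀ s, s ≠ i → s ≠ j → s ≠ l → x s = 0) (hxs : x i + x j = -1) :
    ∃ s, x = b s := by
  obtain ⟨hw, hbA, hc⟩ := hb
  have hc0 : ∀ s, 0 ≤ b.repr x s := by
    intro s
    have h1 := hc (w + x) hx s
    rwa [add_sub_cancel_left] at h1
  have hsum : ∀ t, x t = ∑ s, b.repr x s * b s t := by
    intro t
    have h1 := congrFun (b.sum_repr x) t
    rw [Finset.sum_apply] at h1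
    rw [← h1]
    exact Finset.sum_congr rfl fun s _ => by rw [Pi.smul_apply, smul_eq_mul]
  have hbt : ∀ s t, t ≠ i → t ≠ j → 0 ≤ b s t := by
    intro s t h1 h2
    have h3 := hpos _ (hbA s) t
    rw [Pi.add_apply, hwt t h1 h2, zero_add] at h3
    exact h3
  have hcase : ∀ s, b.repr x s * (b s i + b s j) ≤ -b.repr x s := by
    intro s
    rcases (hc0 s).eq_or_lt with h | h
    · rw [← h]
      simp
    · have h1 : ∀ t, t ≠ i → t ≠ j → t ≠ l → (w + b s) t = 0 := by
        intro t hti htj htl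
        have h2 : ∑ s, b.repr x s * b s t = 0 := by rw [← hsum, hx0 t hti htj htl]
        have h3 := (Finset.sum_eq_zero_iff_of_nonneg fun s _ =>
          mul_nonneg (hc0 s) (hbt s t hti htj)).1 h2 s (Finset.mem_univ s)
        have h4 : b s t = 0 := by
          rcases mul_eq_zero.1 h3 with h5 | h5
          · exact absurd h5 h.ne'
          · exact h5
        rw [Pi.add_apply, hwt t hti htj, h4, add_zero]
      have h2 : w + b s ≠ w := by
        intro h3
        exact b.ne_zero s (by simpa using h3)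
      have h3 := hA _ (hbA s) h1 h2
      rw [Pi.add_apply, Pi.add_apply, hwi, hwj] at h3
      nlinarith
  have hone : ∑ s, b.repr x s ≤ 1 := by
    have h1 := Finset.sum_le_sum fun s (_ : s ∈ Finset.univ) => hcase s
    rw [Finset.sum_neg_distrib] at h1
    have h2 : ∑ s, b.repr x s * (b s i + b s j) = x i + x j := by
      rw [hsum i, hsum j, ← Finset.sum_add_distrib]
      exact Finset.sum_congr rfl fun s _ => by ring
    rw [h2, hxs] at h1
    linarith
  obtain ⟨s, hs⟩ : ∃ s, 0 < b.repr x s := by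
    by_contra hcon
    push Not at hcon
    have h1 : ∀ s, b.repr x s = 0 := fun s => le_antisymm (hcon s) (hc0 s)
    have h2 : x i = 0 := by
      rw [hsum]
      simp [h1]
    have h3 : x j = 0 := by
      rw [hsum]
      simp [h1]
    omega
  have hz : ∀ t, t ≠ s → b.repr x t = 0 := by
    intro t ht
    have h1 : b.repr x s + b.repr x t ≤ ∑ s, b.repr x s := by
      have h2 := Finset.sum_le_sum_of_subset_of_nonneg (Finset.subset_univ ({s, t} : Finset (Fin n)))
        (fun a _ _ => hc0 a)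
      rwa [Finset.sum_pair (Ne.symm ht)] at h2
    have h2 := hc0 t
    omega
  have h1 : b.repr x s = 1 := by
    have h2 := Finset.single_le_sum (fun a _ => hc0 a) (Finset.mem_univ s)
    omega
  refine ⟨s, ?_⟩
  rw [← b.sum_repr x, Finset.sum_eq_single s]
  · rw [h1, one_smul]
  · intro t _ ht
    rw [hz t ht, zero_smul]
  · intro h
    exact absurd (Finset.mem_univ s) h

theorem tFour : StFour := by
  intro n A hA i j l hij hil hjl hv hAil hAjl hA1
  obtain ⟨hch, -, hsm⟩ := hA
  obtain ⟨b, hb⟩ := hsm _ hv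
  have hpos : ∀ a ∈ A, ∀ t, 0 ≤ a t := by
    intro a ha t
    have h1 := hch.2.2 a ha t
    rwa [sub_zero, Pi.basisFun_repr] at h1
  have hone : ∀ t, ev t 1 ∈ A := by
    intro t
    have h1 := hch.2.1 t
    rwa [zero_add, Pi.basisFun_apply] at h1
  have hwi : (ev i 1 + ev j 1 : Fin n → ℤ) i = 1 := by
    simp [ev, hij]
  have hwj : (ev i 1 + ev j 1 : Fin n → ℤ) j = 1 := by
    simp [ev, Ne.symm hij]
  have hwt : ∀ t, t ≠ i → t ≠ j → (ev i 1 + ev j 1 : Fin n → ℤ) t = 0 := by
    intro t h1 h2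
    simp [ev, h1, h2]
  have key := four_basis A hpos i j l (ev i 1 + ev j 1) hwi hwj hwt b hb hA1
  obtain ⟨s1, h1⟩ := key (-ev i 1) (by
      have h : ev i 1 + ev j 1 + -ev i 1 = (ev j 1 : Fin n → ℤ) := by abel
      rw [h]
      exact hone j) (by
      intro s hsi hsj hsl
      simp [ev, hsi]) (by
      simp [ev, Ne.symm hij])
  obtain ⟨s2, h2⟩ := key (-ev j 1) (by
      have h : ev i 1 + ev j 1 + -ev j 1 = (ev i 1 : Fin n → ℤ) := by abel
      rw [h]
      exact hone i) (by
      intro s hsi hsj hsl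
      simp [ev, hsj]) (by
      simp [ev, hij])
  obtain ⟨s3, h3⟩ := key (ev l 1 - ev i 1) (by
      have h : ev i 1 + ev j 1 + (ev l 1 - ev i 1) = (ev j 1 + ev l 1 : Fin n → ℤ) := by abel
      rw [h]
      exact hAjl) (by
      intro s hsi hsj hsl
      simp [ev, hsi, hsl]) (by
      simp [ev, Ne.symm hij, hil, hjl])
  obtain ⟨s4, h4⟩ := key (ev l 1 - ev j 1) (by
      have h : ev i 1 + ev j 1 + (ev l 1 - ev j 1) = (ev i 1 + ev l 1 : Fin n → ℤ) := by abel
      rw [h]
      exact hAil) (by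
      intro s hsi hsj hsl
      simp [ev, hsj, hsl]) (by
      simp [ev, hij, hil, hjl])
  have h5 : b s1 + b s4 = b s2 + b s3 := by
    rw [← h1, ← h2, ← h3, ← h4]
    abel
  have h6 := congrArg (fun v => b.repr v s1) h5
  simp only [map_add, Finsupp.add_apply, Module.Basis.repr_self] at h6
  by_cases h12 : s1 = s2
  · subst h12
    have h7 := congrFun (h1.trans h2.symm) i
    simp [ev, hij] at h7
  · by_cases h13 : s1 = s3
    · subst h13
      have h7 := congrFun (h1.trans h3.symm) l
      simp [ev, Ne.symm hil] at h7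
    · have h8 : (0 : ℤ) ≤ (Finsupp.single s4 1 : Fin n →₀ ℤ) s1 := by
        rw [Finsupp.single_apply]
        split_ifs <;> norm_num
      rw [Finsupp.single_eq_same, Finsupp.single_eq_of_ne h12, Finsupp.single_eq_of_ne h13] at h6
      omega

end Pool.Agent.Lib.MP_e005b4_ag
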