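import Pool.Agent.Lib.MP_e005b4_ag.Tor.Spec
import Pool.Agent.Lib.MP_e005b4_ag.Sec.Scroll

/-!
# Module Lim: limits of sums of two elements of the cone
-/

set_option autoImplicit false

namespace Pool.Agent.Lib.MP_e005b4_ag

open MvPolynomial
open scoped LinearAlgebra.Projectivization

theorem tLim : StLim := by
  intro ι _ X hX hsec q hq
  by_cases h0 : (fun i => (q i).eval 0) = 0
  · exact ⟨0, zero_mem_cone X, 0, zero_mem_cone X, by rw [h0, add_zero]⟩
  have hS : (secantSet X 2).Nonempty := by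
    obtain ⟨p, hp⟩ := hX
    exact ⟨p, fun _ => p, fun _ => hp, le_iSup (fun _ : Fin 2 => p.submodule) 0⟩
  have hmem : Projectivization.mk ℂ (fun i => (q i).eval 0) h0 ∈ secantVariety X 2 := by
    intro F d hF hv
    rw [eval_rep_iff hF]
    apply limit_zero
    intro ε hε
    obtain ⟨ξ, hξ, η, hη, he⟩ := hq ε hε
    rw [he]
    exact vanish_on_cone hS hF hv _ (add_mem_cone_secant hξ hη)
  obtain ⟨z, hz, hp⟩ := exists_sum_of_mem_secantSet (hsec hmem)
  obtain ⟨c, hc, hr⟩ := rep_eq (fun i => (q i).eval 0) h0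
  rw [hr, Fin.sum_univ_two] at hp
  refine ⟨c⁻¹ • z 0, smul_mem_cone (hz 0) _, c⁻¹ • z 1, smul_mem_cone (hz 1) _, ?_⟩
  rw [← smul_add, ← hp, smul_smul, inv_mul_cancel₀ hc, one_smul]

end Pool.Agent.Lib.MP_e005b4_ag
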