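import Pool.Agent.Lib.MP_e005b4_ag.Tor.Spec

/-!
# Toric varieties with rank = border rank: the theorem
-/

set_option autoImplicit false

namespace Pool.Agent.Lib.MP_e005b4_ag

open MvPolynomial
open scoped LinearAlgebra.Projectivization

theorem tMain (hVar : StVar) (hObV : StObV) (hObE : StObE) (hCmb : StCmb) (hSufD : StSufD)
    (hSufQ : StSufQ) : StMain := by
  intro n k A hA hseg hsm
  have hX := hVar n k A hA
  refine ⟨hX, fun h => ?_, fun h p => ?_⟩
  · have h2 : secantVariety (toricCone A k) 2 ⊆ secantSet (toricCone A k) 2 :=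
      secant_two_of_rank hX.1 hX.2.1 fun p hp => by rw [h p, hp]
    refine hCmb n A hA hseg hsm fun u b hc hO => ?_
    obtain ⟨o1, o2, o4⟩ := hObV n k A u b hc h2
    rcases hO with ⟨i, a1, a2⟩ | ⟨i, j, hij, a1, a2, a3⟩ | ⟨i, j, hij, a1, a2, a3⟩ |
      ⟨i, j, l, hij, hil, hjl, a1, a2, a3, a4⟩
    · exact o1 i a1 a2
    · exact o2 i j hij a1 a2 a3
    · exact hObE n k A u b hc h2 i j hij a1 a2 a3
    · exact o4 i j l hij hil hjl a1 a2 a3 a4
  · obtain ⟨u, b, ⟨C, hC⟩ | ⟨J, hJ⟩⟩ := h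
    · exact rank_eq_of_secant (hSufD n k A u b C hC) p
    · exact rank_eq_of_secant (hSufQ n k A u b J hJ) p

end Pool.Agent.Lib.MP_e005b4_ag
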