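import Pool.Agent.Lib.MP_e005b4_ag.Tor.Spec

/-!
# The chart at the other end of an edge
-/

set_option autoImplicit false

namespace Pool.Agent.Lib.MP_e005b4_ag

theorem Nbr_exp {n : ℕ} (b : Module.Basis (Fin n) ℤ (Fin n → ℤ)) (x : Fin n → ℤ) (k : Fin n) :
    x k = ∑ s, b.repr x s * b s k := by
  have h := congrFun (b.sum_repr x) k
  rw [Finset.sum_apply] at h
  exact h.symm

theorem Nbr_ev_same {n : ℕ} (i : Fin n) (t : ℤ) : ev i t i = t := by
  unfold ev
  rw [Pi.single_eq_same]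

theorem Nbr_ev_ne {n : ℕ} {i k : Fin n} (h : k ≠ i) (t : ℤ) : ev i t k = 0 := by
  unfold ev
  rw [Pi.single_eq_of_ne h]

theorem Nbr_ev_sub {n : ℕ} (i : Fin n) (s t : ℤ) : ev i s - ev i t = ev i (s - t) := by
  unfold ev
  rw [Pi.single_sub]

theorem Nbr_ev_add {n : ℕ} (i : Fin n) (s t : ℤ) : ev i s + ev i t = ev i (s + t) := by
  unfold ev
  rw [Pi.single_add]

theorem Nbr_ev_zero {n : ℕ} (i : Fin n) : ev i 0 = 0 := by
  unfold ev
  rw [Pi.single_zero]

theorem Nbr_pos {n : ℕ} {A : Finset (Fin n → ℤ)} (h : Std0 A) : ∀ a ∈ A, ∀ i, 0 ≤ a i := by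
  intro a ha i
  have h1 := h.1.2.2 a ha i
  rwa [sub_zero, Pi.basisFun_repr] at h1

theorem Nbr_ev {n : ℕ} {A : Finset (Fin n → ℤ)} (h : Std0 A) (i : Fin n) : ev i 1 ∈ A := by
  have h1 := h.1.2.1 i
  rwa [zero_add, Pi.basisFun_apply] at h1

theorem Nbr_seg {n : ℕ} {A : Finset (Fin n → ℤ)} (h : Std0 A) {i : Fin n} {t s : ℤ}
    (ht : ev i t ∈ A) (hs : 0 ≤ s) (hst : s ≤ t) : ev i s ∈ A := by
  rcases eq_or_lt_of_le (hs.trans hst) with h0 | h0
  · have : s = t := by omega
    rwa [this]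
  · obtain ⟨p, hp⟩ := Int.eq_ofNat_of_zero_le hs
    obtain ⟨q, hq⟩ := Int.eq_ofNat_of_zero_le (sub_nonneg.2 hst)
    refine h.2.1 (ev i t) ht 0 h.1.1 (ev i s) p q (by omega) ?_
    rw [smul_zero, add_zero]
    funext k
    rw [Pi.smul_apply, Pi.smul_apply, smul_eq_mul, smul_eq_mul]
    by_cases hk : k = i
    · subst hk
      rw [Nbr_ev_same, Nbr_ev_same]
      have h1 : (p : ℤ) + q = t := by omega
      rw [h1, hp]
      ring
    · rw [Nbr_ev_ne hk, Nbr_ev_ne hk, mul_zero, mul_zero]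

/-- The end of an edge is a vertex. -/
theorem Nbr_vertex {n : ℕ} {A : Finset (Fin n → ℤ)} (h : Std0 A) {i : Fin n} {ℓ : ℤ} (hℓ : 1 ≤ ℓ)
    (hA : ev i ℓ ∈ A) (hmax : ∀ t : ℤ, ev i t ∈ A → t ≤ ℓ) : IsVertex A (ev i ℓ) := by
  classical
  have hpos := Nbr_pos h
  obtain ⟨M, hM0, hM⟩ : ∃ M : ℤ, 0 ≤ M ∧ ∀ a ∈ A, a i < M := by
    refine ⟨∑ a ∈ A, a i + 1, ?_, fun a ha => ?_⟩
    · have := Finset.sum_nonneg fun a ha => hpos a ha i
      omega
    · have := Finset.single_le_sum (f := fun a : Fin n → ℤ => a i) (fun a ha => hpos a ha i) ha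
      have h2 : a i ≤ ∑ a ∈ A, a i := this
      omega
  refine ⟨hA, fun k => if k = i then 1 else -M, fun a ha hne => ?_⟩
  have e : ∀ a : Fin n → ℤ, ∑ k, (if k = i then (1 : ℤ) else -M) * a k =
      a i - M * ∑ k ∈ Finset.univ.erase i, a k := by
    intro a
    rw [← Finset.add_sum_erase _ _ (Finset.mem_univ i), if_pos rfl, one_mul, sub_eq_add_neg,
      Finset.mul_sum, ← Finset.sum_neg_distrib]
    congr 1
    refine Finset.sum_congr rfl fun k hk => ?_
    rw [if_neg (Finset.ne_of_mem_erase hk), neg_mul]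
  rw [e, e, Nbr_ev_same]
  have e2 : ∑ k ∈ Finset.univ.erase i, (ev i ℓ) k = 0 :=
    Finset.sum_eq_zero fun k hk => Nbr_ev_ne (Finset.ne_of_mem_erase hk) _
  rw [e2, mul_zero, sub_zero]
  by_cases hz : ∀ k, k ≠ i → a k = 0
  · have h1 : a = ev i (a i) := by
      funext k
      by_cases hk : k = i
      · subst hk
        rw [Nbr_ev_same]
      · rw [Nbr_ev_ne hk, hz k hk]
    have h2 : ∑ k ∈ Finset.univ.erase i, a k = 0 :=
      Finset.sum_eq_zero fun k hk => hz k (Finset.ne_of_mem_erase hk)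
    rw [h2, mul_zero, sub_zero]
    have h3 := hmax (a i) (by rwa [← h1])
    have h4 : a i ≠ ℓ := by
      intro h4
      exact hne (by rw [h1, h4])
    omega
  · push Not at hz
    obtain ⟨k, hk, hk0⟩ := hz
    have h1 : 1 ≤ ∑ k ∈ Finset.univ.erase i, a k := by
      have h2 := Finset.single_le_sum (f := fun k => a k) (fun k _ => hpos a ha k)
        (Finset.mem_erase.2 ⟨hk, Finset.mem_univ k⟩)
      have h3 : a k ≤ ∑ k ∈ Finset.univ.erase i, a k := h2
      have h4 := hpos a ha k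
      omega
    have h2 := hM a ha
    nlinarith

/-- **Nbr.** The chart at the other end of an edge. -/
theorem tNbr : StNbr := by
  intro n A h i ℓ hℓ hA hA'
  classical
  have hpos := Nbr_pos h
  have hmax : ∀ t : ℤ, ev i t ∈ A → t ≤ ℓ := by
    intro t ht
    by_contra hlt
    exact hA' (Nbr_seg h ht (by omega) (by omega))
  obtain ⟨b, hb⟩ := h.2.2 _ (Nbr_vertex h (by exact_mod_cast hℓ) hA hmax)
  obtain ⟨-, hb1, hb2⟩ := hb
  have hbj : ∀ s k, k ≠ i → 0 ≤ b s k := by
    intro s k hk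
    have h1 := hpos _ (hb1 s) k
    rwa [Pi.add_apply, Nbr_ev_ne hk, zero_add] at h1
  -- (a)
  have ha : ∃ s, b s = ev i (-1) := by
    have h1 : ev i ((ℓ : ℤ) - 1) ∈ A := Nbr_seg h hA (by omega) (by omega)
    have h2 : ev i ((ℓ : ℤ) - 1) - ev i (ℓ : ℤ) = ev i (-1) := by
      rw [Nbr_ev_sub]
      congr 1
      ring
    have h3 := hb2 _ h1
    rw [h2] at h3
    have h4 : ∀ s, 0 < b.repr (ev i (-1)) s → ∀ k, k ≠ i → b s k = 0 := by
      intro s hs k hk
      have h5 := Nbr_exp b (ev i (-1)) k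
      rw [Nbr_ev_ne hk] at h5
      have h6 := (Finset.sum_eq_zero_iff_of_nonneg
        (fun s _ => mul_nonneg (h3 s) (hbj s k hk))).1 h5.symm s (Finset.mem_univ s)
      rcases mul_eq_zero.1 h6 with h7 | h7
      · omega
      · exact h7
    have h5 : ∀ s, 0 < b.repr (ev i (-1)) s → b s = ev i (b s i) := by
      intro s hs
      funext k
      by_cases hk : k = i
      · subst hk
        rw [Nbr_ev_same]
      · rw [Nbr_ev_ne hk, h4 s hs k hk]
    have h6 : ∀ s, 0 < b.repr (ev i (-1)) s → b s i ≤ -1 := by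
      intro s hs
      have h7 := hb1 s
      rw [h5 s hs, Nbr_ev_add] at h7
      have h8 := hmax _ h7
      have h9 : b s i ≠ 0 := by
        intro h9
        have h10 := b.ne_zero s
        rw [h5 s hs, h9, Nbr_ev_zero] at h10
        exact h10 rfl
      omega
    have h7 : ∀ s, b.repr (ev i (-1)) s * b s i ≤ 0 := by
      intro s
      rcases (h3 s).eq_or_lt with h8 | h8
      · rw [← h8, zero_mul]
      · have := h6 s h8
        nlinarith
    obtain ⟨s, hs⟩ : ∃ s, 0 < b.repr (ev i (-1)) s := by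
      by_contra hno
      push Not at hno
      have h8 := Nbr_exp b (ev i (-1)) i
      rw [Nbr_ev_same, Finset.sum_eq_zero] at h8
      · omega
      · intro s _
        have h9 := h3 s
        have h10 := hno s
        have h11 : b.repr (ev i (-1)) s = 0 := by omega
        rw [h11, zero_mul]
    refine ⟨s, ?_⟩
    have h8 := Nbr_exp b (ev i (-1)) i
    rw [Nbr_ev_same, ← Finset.add_sum_erase _ _ (Finset.mem_univ s)] at h8
    have h9 : ∑ s ∈ Finset.univ.erase s, b.repr (ev i (-1)) s * b s i ≤ 0 :=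
      Finset.sum_nonpos fun s _ => h7 s
    have h10 := h6 s hs
    have h11 : b s i = -1 := by nlinarith
    rw [h5 s hs, h11]
  -- (b)
  have hc : ∀ j, j ≠ i → ∃ s, b s = ev j 1 + ev i (b s i) := by
    intro j hj
    have h3 := hb2 _ (Nbr_ev h j)
    obtain ⟨x, hx⟩ : ∃ x, x = ev j 1 - ev i (ℓ : ℤ) := ⟨_, rfl⟩
    rw [← hx] at h3
    have h4 : ∀ s, 0 < b.repr x s → ∀ k, k ≠ i → k ≠ j → b s k = 0 := by
      intro s hs k hk hkj
      have h5 := Nbr_exp b x k
      have h6 : x k = 0 := by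
        rw [hx, Pi.sub_apply, Nbr_ev_ne hkj, Nbr_ev_ne hk, sub_zero]
      rw [h6] at h5
      have h7 := (Finset.sum_eq_zero_iff_of_nonneg
        (fun s _ => mul_nonneg (h3 s) (hbj s k hk))).1 h5.symm s (Finset.mem_univ s)
      rcases mul_eq_zero.1 h7 with h8 | h8
      · omega
      · exact h8
    have h5 := Nbr_exp b x j
    have h6 : x j = 1 := by
      rw [hx, Pi.sub_apply, Nbr_ev_same, Nbr_ev_ne hj, sub_zero]
    rw [h6] at h5
    obtain ⟨s, hs⟩ : ∃ s, b.repr x s * b s j ≠ 0 := by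
      by_contra hno
      push Not at hno
      rw [Finset.sum_eq_zero fun s _ => hno s] at h5
      omega
    have h7 : b.repr x s * b s j ≤ 1 := by
      rw [h5]
      exact Finset.single_le_sum (f := fun s => b.repr x s * b s j)
        (fun s _ => mul_nonneg (h3 s) (hbj s j hj)) (Finset.mem_univ s)
    have h8 : 0 < b.repr x s := by
      have := h3 s
      have h9 : b.repr x s ≠ 0 := fun h => hs (by rw [h, zero_mul])
      omega
    have h9 : 0 < b s j := by
      have := hbj s j hj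
      have h9 : b s j ≠ 0 := fun h => hs (by rw [h, mul_zero])
      omega
    have h10 : b s j = 1 := by nlinarith
    refine ⟨s, ?_⟩
    funext k
    rw [Pi.add_apply]
    by_cases hk : k = i
    · subst hk
      rw [Nbr_ev_same, Nbr_ev_ne (Ne.symm hj), zero_add]
    · rw [Nbr_ev_ne hk, add_zero]
      by_cases hkj : k = j
      · subst hkj
        rw [Nbr_ev_same, h10]
      · rw [Nbr_ev_ne hkj, h4 s h8 k hk hkj]
  -- (c)
  obtain ⟨s₀, hs₀⟩ := ha
  choose! σ' hσ' using hc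
  obtain ⟨σ, hσ⟩ : ∃ σ : Fin n → Fin n, ∀ j, σ j = if j = i then s₀ else σ' j :=
    ⟨fun j => if j = i then s₀ else σ' j, fun _ => rfl⟩
  have hσi : b (σ i) = ev i (-1) := by rw [hσ, if_pos rfl, hs₀]
  have hσj : ∀ j, j ≠ i → b (σ j) = ev j 1 + ev i (b (σ j) i) := by
    intro j hj
    have e : σ j = σ' j := by rw [hσ, if_neg hj]
    rw [e]
    exact hσ' j hj
  have hval : ∀ j k, j ≠ i → k ≠ j → b (σ k) j = 0 := by
    intro j k hj hk
    by_cases hki : k = i
    · rw [hki, hσi, Nbr_ev_ne hj]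
    · rw [hσj k hki, Pi.add_apply, Nbr_ev_ne (Ne.symm hk), Nbr_ev_ne hj,
        add_zero]
  have hval1 : ∀ j, j ≠ i → b (σ j) j = 1 := by
    intro j hj
    rw [hσj j hj, Pi.add_apply, Nbr_ev_same, Nbr_ev_ne hj, add_zero]
  have hinj : Function.Injective σ := by
    intro j k hjk
    by_contra hne
    by_cases hj : j = i
    · have hk : k ≠ i := fun h => hne (hj.trans h.symm)
      have h1 := hval k j hk hne
      rw [hjk, hval1 k hk] at h1
      omega
    · have h1 := hval j k hj (Ne.symm hne)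
      rw [← hjk, hval1 j hj] at h1
      omega
  have hbij : Function.Bijective σ := Finite.injective_iff_bijective.1 hinj
  obtain ⟨e, he⟩ : ∃ e : Fin n ≃ Fin n, ∀ j, e j = σ j := ⟨Equiv.ofBijective σ hbij, fun _ => rfl⟩
  obtain ⟨b', hb'⟩ : ∃ b' : Module.Basis (Fin n) ℤ (Fin n → ℤ), b' = b.reindex e.symm := ⟨_, rfl⟩
  have hb'1 : ∀ j, b' j = b (σ j) := by
    intro j
    rw [hb', Module.Basis.reindex_apply, Equiv.symm_symm, he]
  have hb'2 : ∀ x j, b'.repr x j = b.repr x (σ j) := by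
    intro x j
    rw [hb', Module.Basis.repr_reindex_apply, Equiv.symm_symm, he]
  refine ⟨fun j => b (σ j) i, b', ⟨hA, ?_, ?_⟩, ?_, ?_, ?_⟩
  · intro j
    rw [hb'1]
    exact hb1 _
  · intro a ha j
    rw [hb'2]
    exact hb2 a ha _
  · rw [hb'1, hσi]
  · intro j hj
    rw [hb'1]
    exact hσj j hj
  · intro a ha
    obtain ⟨x, hx⟩ : ∃ x, x = a - ev i (ℓ : ℤ) := ⟨_, rfl⟩
    have h0 : 0 ≤ b'.repr x i := by
      rw [hb'2, hx]
      exact hb2 a ha _
    have h1 : ∀ j, j ≠ i → b'.repr x j = a j := by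
      intro j hj
      have h2 := Nbr_exp b' x j
      rw [Finset.sum_eq_single j] at h2
      · rw [hb'1, hval1 j hj, mul_one, hx, Pi.sub_apply, Nbr_ev_ne hj, sub_zero] at h2
        rw [hx]
        exact h2.symm
      · intro k _ hk
        rw [hb'1, hval j k hj hk, mul_zero]
      · intro h
        exact absurd (Finset.mem_univ j) h
    have h2 := Nbr_exp b' x i
    rw [← Finset.add_sum_erase _ _ (Finset.mem_univ i), hb'1 i, hσi, Nbr_ev_same] at h2
    have h3 : ∑ j ∈ Finset.univ.erase i, b'.repr x j * b' j i =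
        ∑ j ∈ Finset.univ.erase i, b (σ j) i * a j := by
      refine Finset.sum_congr rfl fun j hj => ?_
      rw [h1 j (Finset.ne_of_mem_erase hj), hb'1, mul_comm]
    have h4 : x i = a i - ℓ := by
      rw [hx, Pi.sub_apply, Nbr_ev_same]
    rw [h3, h4] at h2
    linarith

end Pool.Agent.Lib.MP_e005b4_ag
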