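import Pool.Agent.Lib.MP_e005b4_ag.Tor.Spec

/-!
# No obstruction O3
-/

set_option autoImplicit false

namespace Pool.Agent.Lib.MP_e005b4_ag

open MvPolynomial
open scoped LinearAlgebra.Projectivization

private theorem ObE_one {x10 x01 x11 x21 x12 y10 y01 y11 y21 y12 : ℂ}
    (s10 : x10 + y10 = 2) (s01 : x01 + y01 = 1) (s11 : x11 + y11 = 1) (s21 : x21 + y21 = 1)
    (s12 : x12 + y12 = 0)
    (bx1 : x10 * x01 = 0) (bx2 : x10 * x11 = 0) (bx3 : x01 * x11 = 0)
    (bx4 : x01 * x21 = x11 * x11) (bx5 : x12 * x10 = x21 * x01)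
    (by1 : y10 * y01 = y11) (by2 : y10 * y11 = y21) (by3 : y01 * y11 = y12) : False := by
  by_cases h : x10 = 0
  · have e10 : y10 = 2 := by rw [h, zero_add] at s10; exact s10
    have e11 : y11 = 2 * y01 := by rw [← by1, e10]
    have e21 : y21 = 4 * y01 := by rw [← by2, e10, e11]; ring
    have f01 : x01 = 1 - y01 := eq_sub_of_add_eq s01
    have f11 : x11 = 1 - 2 * y01 := by rw [← e11]; exact eq_sub_of_add_eq s11
    have f21 : x21 = 1 - 4 * y01 := by rw [← e21]; exact eq_sub_of_add_eq s21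
    have hk : y01 = 0 := by
      rw [f01, f11, f21] at bx4
      linear_combination -bx4
    rw [f01, f11, hk] at bx3
    norm_num at bx3
  · have e01 : x01 = 0 := by
      rcases mul_eq_zero.1 bx1 with h1 | h1
      · exact absurd h1 h
      · exact h1
    have e11 : x11 = 0 := by
      rcases mul_eq_zero.1 bx2 with h1 | h1
      · exact absurd h1 h
      · exact h1
    have f01 : y01 = 1 := by rw [e01, zero_add] at s01; exact s01
    have f11 : y11 = 1 := by rw [e11, zero_add] at s11; exact s11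
    have f10 : y10 = 1 := by rw [f01, f11, mul_one] at by1; exact by1
    have f12 : y12 = 1 := by rw [← by3, f01, f11, mul_one]
    have g12 : x12 = -1 := by rw [f12] at s12; exact eq_neg_of_add_eq_zero_left s12
    have g10 : x10 = 1 := by
      rw [f10] at s10
      linear_combination s10
    rw [g12, g10, e01] at bx5
    norm_num at bx5

private theorem ObE_two {x00 y00 p q X Y x12 y12 : ℂ} (hx : x00 ≠ 0)
    (s01 : X + Y = 1) (s11 : p * X + q * Y = 1)
    (s12 : x12 + y12 = 0) (bx : X * (p * X) = x00 * x12) (by' : Y * (q * Y) = y00 * y12)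
    (hX : X = 0) : False := by
  rw [hX, zero_add] at s01
  rw [hX, s01, mul_zero, zero_add, mul_one] at s11
  rw [hX, zero_mul] at bx
  have h12 : x12 = 0 := by
    rcases mul_eq_zero.1 bx.symm with h | h
    · exact absurd h hx
    · exact h
  rw [h12, zero_add] at s12
  rw [s01, s11, s12] at by'
  norm_num at by'

private theorem ObE_three {x00 x10 x01 x11 x21 x12 y00 y10 y01 y11 y21 y12 : ℂ}
    (hx : x00 ≠ 0) (hy : y00 ≠ 0) (s00 : x00 + y00 = 1)
    (s10 : x10 + y10 = 2) (s01 : x01 + y01 = 1) (s11 : x11 + y11 = 1) (s21 : x21 + y21 = 1)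
    (s12 : x12 + y12 = 0)
    (bx1 : x10 * x01 = x00 * x11) (bx2 : x10 * x11 = x00 * x21) (bx3 : x01 * x11 = x00 * x12)
    (by1 : y10 * y01 = y00 * y11) (by2 : y10 * y11 = y00 * y21) (by3 : y01 * y11 = y00 * y12) :
    False := by
  obtain ⟨p, hp⟩ : ∃ p, x10 = p * x00 := ⟨x10 / x00, (div_mul_cancel₀ _ hx).symm⟩
  obtain ⟨q, hq⟩ : ∃ q, y10 = q * y00 := ⟨y10 / y00, (div_mul_cancel₀ _ hy).symm⟩
  have e11 : x11 = p * x01 := by
    apply mul_left_cancel₀ hx
    rw [← bx1, hp]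
    ring
  have f11 : y11 = q * y01 := by
    apply mul_left_cancel₀ hy
    rw [← by1, hq]
    ring
  have e21 : x21 = p * (p * x01) := by
    apply mul_left_cancel₀ hx
    rw [← bx2, hp, e11]
    ring
  have f21 : y21 = q * (q * y01) := by
    apply mul_left_cancel₀ hy
    rw [← by2, hq, f11]
    ring
  rw [e11, f11] at s11
  rw [e21, f21] at s21
  rw [e11] at bx3
  rw [f11] at by3
  rw [hp, hq] at s10
  have hpq : p ≠ q := by
    intro h
    rw [h] at s10 s11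
    have h1 : q = 1 := by
      have : q * (x01 + y01) = 1 := by rw [mul_add]; exact s11
      rw [s01, mul_one] at this
      exact this
    rw [h1] at s10
    have h2 : x00 + y00 = 2 := by linear_combination s10
    rw [s00] at h2
    norm_num at h2
  have k1 : x01 * ((p - 1) * (p - q)) = 0 := by
    linear_combination s21 - s11 - q * s11 + q * s01
  have k2 : y01 * ((q - 1) * (q - p)) = 0 := by
    linear_combination s21 - s11 - p * s11 + p * s01
  rcases mul_eq_zero.1 k1 with h | h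
  · exact ObE_two hx s01 s11 s12 bx3 by3 h
  rcases mul_eq_zero.1 k2 with h' | h'
  · exact ObE_two (x00 := y00) (y00 := x00) (p := q) (q := p) (X := y01) (Y := x01)
      (x12 := y12) (y12 := x12) hy (by rw [add_comm]; exact s01) (by rw [add_comm]; exact s11)
      (by rw [add_comm]; exact s12) by3 bx3 h'
  rcases mul_eq_zero.1 h with h1 | h1
  · rcases mul_eq_zero.1 h' with h2 | h2
    · apply hpq
      rw [sub_eq_zero.1 h1, sub_eq_zero.1 h2]
    · exact hpq (sub_eq_zero.1 h2).symm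
  · exact hpq (sub_eq_zero.1 h1)

private theorem ObE_alg {x00 x10 x01 x11 x21 x12 y00 y10 y01 y11 y21 y12 : ℂ}
    (s00 : x00 + y00 = 1)
    (s10 : x10 + y10 = 2) (s01 : x01 + y01 = 1) (s11 : x11 + y11 = 1) (s21 : x21 + y21 = 1)
    (s12 : x12 + y12 = 0)
    (bx1 : x10 * x01 = x00 * x11) (bx2 : x10 * x11 = x00 * x21) (bx3 : x01 * x11 = x00 * x12)
    (bx4 : x01 * x21 = x11 * x11) (bx5 : x12 * x10 = x21 * x01)
    (by1 : y10 * y01 = y00 * y11) (by2 : y10 * y11 = y00 * y21) (by3 : y01 * y11 = y00 * y12)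
    (by4 : y01 * y21 = y11 * y11) (by5 : y12 * y10 = y21 * y01) : False := by
  by_cases hx : x00 = 0
  · have hy : y00 = 1 := by rw [hx, zero_add] at s00; exact s00
    rw [hx, zero_mul] at bx1 bx2 bx3
    rw [hy, one_mul] at by1 by2 by3
    exact ObE_one s10 s01 s11 s21 s12 bx1 bx2 bx3 bx4 bx5 by1 by2 by3
  by_cases hy : y00 = 0
  · have hx' : x00 = 1 := by rw [hy, add_zero] at s00; exact s00
    rw [hx', one_mul] at bx1 bx2 bx3
    rw [hy, zero_mul] at by1 by2 by3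
    rw [add_comm] at s10 s01 s11 s21 s12
    exact ObE_one s10 s01 s11 s21 s12 by1 by2 by3 by4 by5 bx1 bx2 bx3
  exact ObE_three hx hy s00 s10 s01 s11 s21 s12 bx1 bx2 bx3 by1 by2 by3

theorem tObE (hBin : StBin) (hPE : StPE) : StObE := by
  intro n k A u b hch hsec i j hij h11 h21 h12
  obtain ⟨ξ, hξ, η, hη, hall⟩ := hPE n k A u b hch hsec i j hij
  have h00 : u ∈ A := hch.1
  have h10 : u + b i ∈ A := hch.2.1 i
  have h01 : u + b j ∈ A := hch.2.1 j
  have s00 := (hall ⟨u, h00⟩).1 rfl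
  have s10 := (hall ⟨u + b i, h10⟩).2.1 rfl
  have s01 := (hall ⟨u + b j, h01⟩).2.2.1 0 (by
    show u + b j = u + ((0 : ℕ) : ℤ) • b i + b j
    rw [Nat.cast_zero, zero_smul, add_zero])
  have s11 := (hall ⟨u + b i + b j, h11⟩).2.2.1 1 (by
    show u + b i + b j = u + ((1 : ℕ) : ℤ) • b i + b j
    rw [Nat.cast_one, one_smul])
  have s21 := (hall ⟨u + (2 : ℤ) • b i + b j, h21⟩).2.2.1 2 (by
    show u + (2 : ℤ) • b i + b j = u + ((2 : ℕ) : ℤ) • b i + b j
    rfl)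
  have s12 := (hall ⟨u + b i + (2 : ℤ) • b j, h12⟩).2.2.2 rfl
  have B1 : ∀ ζ : A ⊕ Fin k → ℂ, ζ ∈ cone (toricCone A k) →
      ζ (Sum.inl ⟨u + b i, h10⟩) * ζ (Sum.inl ⟨u + b j, h01⟩) =
        ζ (Sum.inl ⟨u, h00⟩) * ζ (Sum.inl ⟨u + b i + b j, h11⟩) := fun ζ hζ =>
    hBin n k A ζ hζ _ _ _ _ (by
      show u + b i + (u + b j) = u + (u + b i + b j)
      abel)
  have B2 : ∀ ζ : A ⊕ Fin k → ℂ, ζ ∈ cone (toricCone A k) →
      ζ (Sum.inl ⟨u + b i, h10⟩) * ζ (Sum.inl ⟨u + b i + b j, h11⟩) =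
        ζ (Sum.inl ⟨u, h00⟩) * ζ (Sum.inl ⟨u + (2 : ℤ) • b i + b j, h21⟩) := fun ζ hζ =>
    hBin n k A ζ hζ _ _ _ _ (by
      show u + b i + (u + b i + b j) = u + (u + (2 : ℤ) • b i + b j)
      rw [two_smul]
      abel)
  have B3 : ∀ ζ : A ⊕ Fin k → ℂ, ζ ∈ cone (toricCone A k) →
      ζ (Sum.inl ⟨u + b j, h01⟩) * ζ (Sum.inl ⟨u + b i + b j, h11⟩) =
        ζ (Sum.inl ⟨u, h00⟩) * ζ (Sum.inl ⟨u + b i + (2 : ℤ) • b j, h12⟩) := fun ζ hζ =>
    hBin n k A ζ hζ _ _ _ _ (by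
      show u + b j + (u + b i + b j) = u + (u + b i + (2 : ℤ) • b j)
      rw [two_smul]
      abel)
  have B4 : ∀ ζ : A ⊕ Fin k → ℂ, ζ ∈ cone (toricCone A k) →
      ζ (Sum.inl ⟨u + b j, h01⟩) * ζ (Sum.inl ⟨u + (2 : ℤ) • b i + b j, h21⟩) =
        ζ (Sum.inl ⟨u + b i + b j, h11⟩) * ζ (Sum.inl ⟨u + b i + b j, h11⟩) := fun ζ hζ =>
    hBin n k A ζ hζ _ _ _ _ (by
      show u + b j + (u + (2 : ℤ) • b i + b j) = u + b i + b j + (u + b i + b j)
      rw [two_smul]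
      abel)
  have B5 : ∀ ζ : A ⊕ Fin k → ℂ, ζ ∈ cone (toricCone A k) →
      ζ (Sum.inl ⟨u + b i + (2 : ℤ) • b j, h12⟩) * ζ (Sum.inl ⟨u + b i, h10⟩) =
        ζ (Sum.inl ⟨u + (2 : ℤ) • b i + b j, h21⟩) * ζ (Sum.inl ⟨u + b j, h01⟩) := fun ζ hζ =>
    hBin n k A ζ hζ _ _ _ _ (by
      show u + b i + (2 : ℤ) • b j + (u + b i) = u + (2 : ℤ) • b i + b j + (u + b j)
      rw [two_smul, two_smul]
      abel)
  exact ObE_alg s00 s10 s01 s11 s21 s12 (B1 ξ hξ) (B2 ξ hξ) (B3 ξ hξ) (B4 ξ hξ) (B5 ξ hξ)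
    (B1 η hη) (B2 η hη) (B3 η hη) (B4 η hη) (B5 η hη)

end Pool.Agent.Lib.MP_e005b4_ag
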