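import Pool.Agent.Lib.MP_e005b4_ag.Tor.Spec

set_option autoImplicit false

namespace Pool.Agent.Lib.MP_e005b4_ag

open MvPolynomial
open scoped LinearAlgebra.Projectivization

private theorem ObV_data (hBin : StBin) (hPI : StPI) {n k : ℕ} {A : Finset (Fin n → ℤ)}
    {u : Fin n → ℤ} {b : Module.Basis (Fin n) ℤ (Fin n → ℤ)} (hc : IsChart A u b)
    (hs : secantVariety (toricCone A k) 2 ⊆ secantSet (toricCone A k) 2) (I : Finset (Fin n)) :
    ∃ x y : (Fin n → ℤ) → ℂ,
      (∀ a ∈ A, ∀ a' ∈ A, ∀ c ∈ A, ∀ d ∈ A, a + a' = c + d → x a * x a' = x c * x d) ∧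
      (∀ a ∈ A, ∀ a' ∈ A, ∀ c ∈ A, ∀ d ∈ A, a + a' = c + d → y a * y a' = y c * y d) ∧
      x u + y u = 0 ∧ (∀ i ∈ I, x (u + b i) + y (u + b i) = 1) ∧
      ∀ a ∈ A, 2 ≤ ∑ i, b.repr (a - u) i → x a + y a = 0 := by
  classical
  obtain ⟨ξ, hξ, η, hη, h⟩ := hPI n k A u b hc hs I
  have key : ∀ ζ ∈ cone (toricCone A k), ∀ a ∈ A, ∀ a' ∈ A, ∀ c ∈ A, ∀ d ∈ A, a + a' = c + d →
      (fun v => if hv : v ∈ A then ζ (Sum.inl ⟨v, hv⟩) else 0) a *
      (fun v => if hv : v ∈ A then ζ (Sum.inl ⟨v, hv⟩) else 0) a' =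
      (fun v => if hv : v ∈ A then ζ (Sum.inl ⟨v, hv⟩) else 0) c *
      (fun v => if hv : v ∈ A then ζ (Sum.inl ⟨v, hv⟩) else 0) d := by
    intro ζ hζ a ha a' ha' c hc' d hd he
    simp only [ha, ha', hc', hd, dite_true]
    exact hBin n k A ζ hζ ⟨a, ha⟩ ⟨a', ha'⟩ ⟨c, hc'⟩ ⟨d, hd⟩ he
  refine ⟨_, _, key ξ hξ, key η hη, ?_, ?_, ?_⟩
  · simp only [hc.1, dite_true]
    exact (h ⟨u, hc.1⟩).1 rfl
  · intro i hi
    simp only [hc.2.1 i, dite_true]
    exact (h ⟨u + b i, hc.2.1 i⟩).2.1 i hi rfl
  · intro a ha h2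
    simp only [ha, dite_true]
    exact (h ⟨a, ha⟩).2.2 h2

private theorem ObV_sum {n : ℕ} (b : Module.Basis (Fin n) ℤ (Fin n → ℤ)) (i : Fin n) :
    ∑ l, b.repr (b i) l = 1 := by
  simp [Module.Basis.repr_self, Finsupp.single_apply]

private theorem ObV_one {x0 x1 x2 x3 y0 y1 y2 y3 : ℂ} (a : x1 * x1 = x0 * x2)
    (b : x1 * x2 = x0 * x3) (c : y1 * y1 = y0 * y2) (d : y1 * y2 = y0 * y3) (h0 : x0 + y0 = 0)
    (h1 : x1 + y1 = 1) (h2 : x2 + y2 = 0) (h3 : x3 + y3 = 0) : False := by
  have e0 : y0 = -x0 := by linear_combination h0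
  have e2 : y2 = -x2 := by linear_combination h2
  have e3 : y3 = -x3 := by linear_combination h3
  subst e0 e2 e3
  have h : x2 = 0 := by linear_combination b - d - x2 * h1
  subst h
  have k1 : x1 = 0 := by
    have : x1 * x1 = 0 := by linear_combination a
    simpa using this
  have k2 : y1 = 0 := by
    have : y1 * y1 = 0 := by linear_combination c
    simpa using this
  rw [k1, k2] at h1
  norm_num at h1

private theorem ObV_two {x0 xi xj x2i x2ij y0 yi yj y2i y2ij : ℂ}
    (a : xi * xi = x0 * x2i) (c : x2i * xj = x0 * x2ij)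
    (a' : yi * yi = y0 * y2i) (c' : y2i * yj = y0 * y2ij)
    (h0 : x0 + y0 = 0) (h1 : xi + yi = 1) (h2 : xj + yj = 1) (h3 : x2i + y2i = 0)
    (h4 : x2ij + y2ij = 0) : False := by
  have e0 : y0 = -x0 := by linear_combination h0
  have e2 : y2i = -x2i := by linear_combination h3
  have e3 : y2ij = -x2ij := by linear_combination h4
  subst e0 e2 e3
  have h : x2i = 0 := by linear_combination c - c' - x2i * h2
  subst h
  have k1 : xi = 0 := by
    have : xi * xi = 0 := by linear_combination a
    simpa using this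
  have k2 : yi = 0 := by
    have : yi * yi = 0 := by linear_combination a'
    simpa using this
  rw [k1, k2] at h1
  norm_num at h1

private theorem ObV_four {x0 xi xj xl xij xjl xil xijl y0 yi yj yl yij yjl yil yijl : ℂ}
    (a1 : xi * xj = x0 * xij) (a2 : xj * xl = x0 * xjl) (a3 : xi * xl = x0 * xil)
    (b1 : xij * xl = x0 * xijl) (b2 : xjl * xi = x0 * xijl) (b3 : xil * xj = x0 * xijl)
    (c1 : yi * yj = y0 * yij) (c2 : yj * yl = y0 * yjl) (c3 : yi * yl = y0 * yil)
    (d1 : yij * yl = y0 * yijl) (d2 : yjl * yi = y0 * yijl) (d3 : yil * yj = y0 * yijl)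
    (h0 : x0 + y0 = 0) (hi : xi + yi = 1) (hj : xj + yj = 1) (hl : xl + yl = 1)
    (hij : xij + yij = 0) (hjl : xjl + yjl = 0) (hil : xil + yil = 0)
    (hijl : xijl + yijl = 0) : False := by
  have e0 : y0 = -x0 := by linear_combination h0
  have e1 : yij = -xij := by linear_combination hij
  have e2 : yjl = -xjl := by linear_combination hjl
  have e3 : yil = -xil := by linear_combination hil
  have e4 : yijl = -xijl := by linear_combination hijl
  subst e0 e1 e2 e3 e4
  have k1 : xij = 0 := by linear_combination b1 - d1 - xij * hl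
  have k2 : xjl = 0 := by linear_combination b2 - d2 - xjl * hi
  have k3 : xil = 0 := by linear_combination b3 - d3 - xil * hj
  subst k1 k2 k3
  simp only [mul_zero, neg_zero, mul_eq_zero] at a1 a2 a3 c1 c2 c3
  rcases a1 with r | r
  · have q1 : yi = 1 := by rw [r] at hi; linear_combination hi
    rcases c1 with s | s
    · rw [s] at q1; exact zero_ne_one q1
    · have q2 : xj = 1 := by rw [s] at hj; linear_combination hj
      rcases a2 with v | v
      · rw [v] at q2; exact zero_ne_one q2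
      · have q3 : yl = 1 := by rw [v] at hl; linear_combination hl
        rcases c3 with w | w
        · rw [w] at q1; exact zero_ne_one q1
        · rw [w] at q3; exact zero_ne_one q3
  · have q1 : yj = 1 := by rw [r] at hj; linear_combination hj
    rcases c1 with s | s
    · have q2 : xi = 1 := by rw [s] at hi; linear_combination hi
      rcases a3 with v | v
      · rw [v] at q2; exact zero_ne_one q2
      · have q3 : yl = 1 := by rw [v] at hl; linear_combination hl
        rcases c2 with w | w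
        · rw [w] at q1; exact zero_ne_one q1
        · rw [w] at q3; exact zero_ne_one q3
    · rw [s] at q1; exact zero_ne_one q1

theorem tObV (hBin : StBin) (hPI : StPI) : StObV := by
  intro n k A u b hc hs
  have hu := hc.1
  have hb := hc.2.1
  have hS := ObV_sum b
  refine ⟨?_, ?_, ?_⟩
  · intro i h2 h3
    obtain ⟨x, y, hx, hy, h0, h1, h⟩ := ObV_data hBin hPI hc hs {i}
    refine ObV_one (hx _ (hb i) _ (hb i) _ hu _ h2 (by module))
      (hx _ (hb i) _ h2 _ hu _ h3 (by module)) (hy _ (hb i) _ (hb i) _ hu _ h2 (by module))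
      (hy _ (hb i) _ h2 _ hu _ h3 (by module)) h0 (h1 i (Finset.mem_singleton_self i))
      (h _ h2 ?_) (h _ h3 ?_)
    · rw [add_sub_cancel_left]
      simp only [map_smul, Finsupp.smul_apply, ← Finset.smul_sum, hS]
      norm_num
    · rw [add_sub_cancel_left]
      simp only [map_smul, Finsupp.smul_apply, ← Finset.smul_sum, hS]
      norm_num
  · intro i j _ h2 _ h21
    obtain ⟨x, y, hx, hy, h0, h1, h⟩ := ObV_data hBin hPI hc hs {i, j}
    refine ObV_two (hx _ (hb i) _ (hb i) _ hu _ h2 (by module))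
      (hx _ h2 _ (hb j) _ hu _ h21 (by module)) (hy _ (hb i) _ (hb i) _ hu _ h2 (by module))
      (hy _ h2 _ (hb j) _ hu _ h21 (by module))
      h0 (h1 i (by simp)) (h1 j (by simp)) (h _ h2 ?_) (h _ h21 ?_)
    · rw [add_sub_cancel_left]
      simp only [map_smul, Finsupp.smul_apply, ← Finset.smul_sum, hS]
      norm_num
    · rw [show u + (2 : ℤ) • b i + b j - u = (2 : ℤ) • b i + b j by module]
      simp only [map_add, map_smul, Finsupp.smul_apply, Finsupp.add_apply, Finset.sum_add_distrib,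
        ← Finset.smul_sum, hS]
      norm_num
  · intro i j l _ _ _ hij' hjl' hil' hijl
    obtain ⟨x, y, hx, hy, h0, h1, h⟩ := ObV_data hBin hPI hc hs {i, j, l}
    refine ObV_four (hx _ (hb i) _ (hb j) _ hu _ hij' (by module))
      (hx _ (hb j) _ (hb l) _ hu _ hjl' (by module)) (hx _ (hb i) _ (hb l) _ hu _ hil' (by module))
      (hx _ hij' _ (hb l) _ hu _ hijl (by module)) (hx _ hjl' _ (hb i) _ hu _ hijl (by module))
      (hx _ hil' _ (hb j) _ hu _ hijl (by module))
      (hy _ (hb i) _ (hb j) _ hu _ hij' (by module))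
      (hy _ (hb j) _ (hb l) _ hu _ hjl' (by module)) (hy _ (hb i) _ (hb l) _ hu _ hil' (by module))
      (hy _ hij' _ (hb l) _ hu _ hijl (by module)) (hy _ hjl' _ (hb i) _ hu _ hijl (by module))
      (hy _ hil' _ (hb j) _ hu _ hijl (by module))
      h0 (h1 i (by simp)) (h1 j (by simp)) (h1 l (by simp)) (h _ hij' ?_) (h _ hjl' ?_)
      (h _ hil' ?_) (h _ hijl ?_)
    · rw [show u + b i + b j - u = b i + b j by module]
      simp only [map_add, Finsupp.add_apply, Finset.sum_add_distrib, hS]
      norm_num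
    · rw [show u + b j + b l - u = b j + b l by module]
      simp only [map_add, Finsupp.add_apply, Finset.sum_add_distrib, hS]
      norm_num
    · rw [show u + b i + b l - u = b i + b l by module]
      simp only [map_add, Finsupp.add_apply, Finset.sum_add_distrib, hS]
      norm_num
    · rw [show u + b i + b j + b l - u = b i + b j + b l by module]
      simp only [map_add, Finsupp.add_apply, Finset.sum_add_distrib, hS]
      norm_num

end Pool.Agent.Lib.MP_e005b4_ag
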