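import Pool.Agent.Lib.MP_e005b4_ag.Tor.Spec

/-!
# The tangent point at a point of an edge
-/

set_option autoImplicit false

namespace Pool.Agent.Lib.MP_e005b4_ag

open MvPolynomial
open scoped LinearAlgebra.Projectivization

private theorem PE_nonempty (hPts : StPts) {n k : ℕ} {A : Finset (Fin n → ℤ)} {u : Fin n → ℤ}
    {b : Module.Basis (Fin n) ℤ (Fin n → ℤ)} (h : IsChart A u b) : (toricCone A k).Nonempty := by
  have h1 := hPts n k A u b h.2.2 1 (fun _ => 1) 0
  have h2 : (Sum.elim (fun a : A => (1 : ℂ) * ∏ i, (1 : ℂ) ^ (b.repr (a.1 - u) i).toNat) 0 :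
      A ⊕ Fin k → ℂ) ≠ 0 := by
    intro h3
    have h4 := congrFun h3 (Sum.inl ⟨u, h.1⟩)
    simp at h4
  exact ⟨_, (mem_cone_iff h2).1 h1⟩

private theorem PE_prod {n : ℕ} (i j : Fin n) (hij : i ≠ j) (x : Fin n → ℂ)
    (hx : ∀ l, l ≠ i → l ≠ j → x l = 0) (m : Fin n → ℕ) :
    ((∃ l, l ≠ i ∧ l ≠ j ∧ m l ≠ 0) → ∏ l, x l ^ m l = 0) ∧
    ((¬ ∃ l, l ≠ i ∧ l ≠ j ∧ m l ≠ 0) → ∏ l, x l ^ m l = x i ^ m i * x j ^ m j) := by
  constructor
  · rintro ⟨l, hl1, hl2, hl3⟩
    refine Finset.prod_eq_zero (Finset.mem_univ l) ?_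
    rw [hx l hl1 hl2, zero_pow hl3]
  · intro h
    refine Finset.prod_eq_mul i j hij ?_ ?_ ?_
    · rintro c - ⟨hc1, hc2⟩
      have h1 : m c = 0 := by
        by_contra hcon
        exact h ⟨c, hc1, hc2, hcon⟩
      rw [h1, pow_zero]
    · intro h1
      exact absurd (Finset.mem_univ _) h1
    · intro h1
      exact absurd (Finset.mem_univ _) h1

private theorem PE_repr {n : ℕ} (b : Module.Basis (Fin n) ℤ (Fin n → ℤ)) {i j : Fin n}
    (hij : i ≠ j) {v : Fin n → ℤ} {s t : ℕ} (hv : v = (s : ℤ) • b i + (t : ℤ) • b j) (l : Fin n) :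
    b.repr v l = if l = i then (s : ℤ) else if l = j then (t : ℤ) else 0 := by
  rw [hv, map_add, map_smul, map_smul, b.repr_self, b.repr_self, Finsupp.add_apply,
    Finsupp.smul_apply, Finsupp.smul_apply, smul_eq_mul, smul_eq_mul]
  by_cases h1 : l = i
  · subst h1
    rw [if_pos rfl, Finsupp.single_eq_same, Finsupp.single_eq_of_ne hij]
    ring
  · rw [if_neg h1, Finsupp.single_eq_of_ne h1]
    by_cases h2 : l = j
    · subst h2
      rw [if_pos rfl, Finsupp.single_eq_same]
      ring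
    · rw [if_neg h2, Finsupp.single_eq_of_ne h2]
      ring

theorem tPE (hPts : StPts) (hLim : StLim) : StPE := by
  classical
  intro n k A u b hch hsec i j hij
  let κ : A → Fin n → ℕ := fun a l => (b.repr (a.1 - u) l).toNat
  let q : A ⊕ Fin k → Polynomial ℂ := Sum.elim (fun a =>
    if ∃ l, l ≠ i ∧ l ≠ j ∧ κ a l ≠ 0 then 0
    else if κ a j = 0 then 1 + ∑ s ∈ Finset.range (κ a i), (1 + Polynomial.X) ^ s
    else (1 + Polynomial.X) ^ (κ a i) * Polynomial.X ^ (κ a j - 1)) (fun _ => 0)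
  have hcurve : ∀ ε : ℂ, ε ≠ 0 → ∃ ξ ∈ cone (toricCone A k), ∃ η ∈ cone (toricCone A k),
      (fun i => (q i).eval ε) = ξ + η := by
    intro ε hε
    refine ⟨_, hPts n k A u b hch.2.2 (1 - ε⁻¹) (fun l => if l = i then 1 else 0) 0,
      _, hPts n k A u b hch.2.2 ε⁻¹ (fun l => if l = i then 1 + ε else if l = j then ε else 0) 0,
      ?_⟩
    funext p
    rcases p with a | z
    · obtain ⟨h1, h2⟩ := PE_prod i j hij (fun l => if l = i then (1 : ℂ) else 0)
        (fun l hl _ => if_neg hl) (κ a)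
      obtain ⟨h3, h4⟩ := PE_prod i j hij
        (fun l => if l = i then 1 + ε else if l = j then ε else 0)
        (fun l hl hl' => by rw [if_neg hl, if_neg hl']) (κ a)
      change (q (Sum.inl a)).eval ε =
        (1 - ε⁻¹) * ∏ l, (if l = i then (1 : ℂ) else 0) ^ κ a l +
          ε⁻¹ * ∏ l, (if l = i then 1 + ε else if l = j then ε else 0) ^ κ a l
      simp only [q, Sum.elim_inl]
      by_cases hA : ∃ l, l ≠ i ∧ l ≠ j ∧ κ a l ≠ 0
      · rw [if_pos hA, h1 hA, h3 hA, Polynomial.eval_zero]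
        ring
      · rw [if_neg hA, h2 hA, h4 hA, if_pos rfl, if_pos rfl, if_neg hij.symm, if_neg hij.symm,
          if_pos rfl, one_pow, one_mul]
        by_cases hB : κ a j = 0
        · rw [if_pos hB, hB, pow_zero, pow_zero, Polynomial.eval_add, Polynomial.eval_one,
            Polynomial.eval_finset_sum]
          simp only [Polynomial.eval_pow, Polynomial.eval_add, Polynomial.eval_one,
            Polynomial.eval_X]
          have hg := geom_sum_mul (1 + ε) (κ a i)
          rw [add_sub_cancel_left] at hg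
          have hg2 : ∑ s ∈ Finset.range (κ a i), (1 + ε) ^ s = ε⁻¹ * ((1 + ε) ^ κ a i - 1) := by
            rw [← hg]
            field_simp
          rw [hg2]
          ring
        · obtain ⟨t, ht⟩ : ∃ t, κ a j = t + 1 := ⟨κ a j - 1, by omega⟩
          rw [if_neg hB, ht, zero_pow (Nat.succ_ne_zero t), Nat.add_sub_cancel,
            Polynomial.eval_mul, Polynomial.eval_pow, Polynomial.eval_pow, Polynomial.eval_add,
            Polynomial.eval_one, Polynomial.eval_X, pow_succ]
          field_simp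
          ring
    · change (q (Sum.inr z)).eval ε = (0 : ℂ) + 0
      simp [q]
  obtain ⟨ξ, hξ, η, hη, hsum⟩ := hLim (A ⊕ Fin k) (toricCone A k) (PE_nonempty hPts hch) hsec q
    hcurve
  refine ⟨ξ, hξ, η, hη, fun a => ?_⟩
  have ha : ξ (Sum.inl a) + η (Sum.inl a) = (q (Sum.inl a)).eval 0 := (congrFun hsum _).symm
  have hval : ∀ s t : ℕ, a.1 - u = (s : ℤ) • b i + (t : ℤ) • b j →
      (q (Sum.inl a)).eval 0 = if t = 0 then 1 + (s : ℂ) else 0 ^ (t - 1) := by
    intro s t h
    have hr := PE_repr b hij h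
    have hi : κ a i = s := by
      simp only [κ, hr, if_pos]
      exact Int.toNat_natCast s
    have hj : κ a j = t := by
      change (b.repr (a.1 - u) j).toNat = t
      rw [hr, if_neg hij.symm, if_pos rfl]
      exact Int.toNat_natCast t
    have hno : ¬ ∃ l, l ≠ i ∧ l ≠ j ∧ κ a l ≠ 0 := by
      rintro ⟨l, h1, h2, h3⟩
      apply h3
      change (b.repr (a.1 - u) l).toNat = 0
      rw [hr, if_neg h1, if_neg h2]
      rfl
    simp only [q, Sum.elim_inl]
    rw [if_neg hno, hi, hj]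
    by_cases ht : t = 0
    · rw [if_pos ht, if_pos ht]
      simp [Polynomial.eval_finset_sum]
    · rw [if_neg ht, if_neg ht]
      simp
  rw [ha]
  refine ⟨fun h => ?_, fun h => ?_, fun t h => ?_, fun h => ?_⟩
  · rw [hval 0 0 (by rw [h]; simp)]
    simp
  · rw [hval 1 0 (by rw [h]; simp)]
    norm_num
  · rw [hval t 1 (by rw [h, add_assoc, add_sub_cancel_left]; simp)]
    simp
  · rw [hval 1 2 (by rw [h, add_assoc, add_sub_cancel_left]; simp)]
    simp

end Pool.Agent.Lib.MP_e005b4_ag
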