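import Pool.Agent.Lib.MP_e005b4_ag.Tor.Spec

/-!
# The tangent point at a vertex
-/

set_option autoImplicit false

namespace Pool.Agent.Lib.MP_e005b4_ag

open MvPolynomial
open scoped LinearAlgebra.Projectivization

open Classical in
/-- The polynomial curve. -/
private noncomputable def PI_q {n : ℕ} (κ : Fin n → ℤ) (I : Finset (Fin n)) : Polynomial ℂ :=
  if ∀ i, κ i = 0 then 0
  else if ∀ i, κ i ≠ 0 → i ∈ I then Polynomial.X ^ ((∑ i, (κ i).toNat) - 1) else 0

private theorem PI_eval {n : ℕ} (κ : Fin n → ℤ) (hκ : ∀ i, 0 ≤ κ i) (I : Finset (Fin n)) (ε : ℂ)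
    (hε : ε ≠ 0) :
    (PI_q κ I).eval ε =
      ε⁻¹ * ∏ i, (if i ∈ I then ε else 0) ^ (κ i).toNat +
        (-ε⁻¹) * ∏ i, (0 : ℂ) ^ (κ i).toNat := by
  classical
  unfold PI_q
  by_cases h0 : ∀ i, κ i = 0
  · rw [if_pos h0]
    simp [h0]
  · rw [if_neg h0]
    push Not at h0
    obtain ⟨i0, hi0⟩ := h0
    have hpos : (κ i0).toNat ≠ 0 := by
      have := hκ i0
      omega
    have hz : ∏ i, (0 : ℂ) ^ (κ i).toNat = 0 :=
      Finset.prod_eq_zero (Finset.mem_univ i0) (zero_pow hpos)
    rw [hz, mul_zero, add_zero]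
    by_cases h1 : ∀ i, κ i ≠ 0 → i ∈ I
    · rw [if_pos h1]
      have hp : ∏ i, (if i ∈ I then ε else 0) ^ (κ i).toNat = ε ^ (∑ i, (κ i).toNat) := by
        rw [← Finset.prod_pow_eq_pow_sum]
        refine Finset.prod_congr rfl fun i _ => ?_
        by_cases hi : i ∈ I
        · rw [if_pos hi]
        · have hk : κ i = 0 := by
            by_contra hne
            exact hi (h1 i hne)
          simp [hk]
      rw [hp, Polynomial.eval_pow, Polynomial.eval_X]
      have hs : 1 ≤ ∑ i, (κ i).toNat := by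
        have := Finset.single_le_sum (f := fun i => (κ i).toNat) (fun i _ => Nat.zero_le _)
          (Finset.mem_univ i0)
        have h2 : 1 ≤ (κ i0).toNat := Nat.one_le_iff_ne_zero.mpr hpos
        exact h2.trans this
      obtain ⟨m, hm⟩ : ∃ m, ∑ i, (κ i).toNat = m + 1 := ⟨_, (Nat.sub_add_cancel hs).symm⟩
      rw [hm, Nat.add_sub_cancel, pow_succ]
      field_simp
    · rw [if_neg h1, Polynomial.eval_zero]
      push Not at h1
      obtain ⟨i1, hi1, hi1'⟩ := h1
      have hpos1 : (κ i1).toNat ≠ 0 := by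
        have := hκ i1
        omega
      have : ∏ i, (if i ∈ I then ε else 0) ^ (κ i).toNat = 0 :=
        Finset.prod_eq_zero (Finset.mem_univ i1) (by rw [if_neg hi1']; exact zero_pow hpos1)
      rw [this, mul_zero]

private theorem PI_zero {n : ℕ} (κ : Fin n → ℤ) (I : Finset (Fin n)) (h : ∀ i, κ i = 0) :
    (PI_q κ I).eval 0 = 0 := by
  unfold PI_q
  rw [if_pos h, Polynomial.eval_zero]

private theorem PI_one {n : ℕ} (κ : Fin n → ℤ) (I : Finset (Fin n)) (i : Fin n) (hi : i ∈ I)
    (h1 : κ i = 1) (h : ∀ j, j ≠ i → κ j = 0) : (PI_q κ I).eval 0 = 1 := by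
  unfold PI_q
  rw [if_neg (fun hh => by have := hh i; omega), if_pos]
  · have : ∑ j, (κ j).toNat = 1 := by
      rw [Finset.sum_eq_single i]
      · rw [h1]; rfl
      · intro j _ hj
        rw [h j hj]; rfl
      · intro hh
        exact absurd (Finset.mem_univ i) hh
    rw [this]
    simp
  · intro j hj
    by_cases hji : j = i
    · rw [hji]; exact hi
    · exact absurd (h j hji) hj

private theorem PI_two {n : ℕ} (κ : Fin n → ℤ) (hκ : ∀ i, 0 ≤ κ i) (I : Finset (Fin n))
    (h : 2 ≤ ∑ i, κ i) : (PI_q κ I).eval 0 = 0 := by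
  unfold PI_q
  have hs : ((∑ i, (κ i).toNat : ℕ) : ℤ) = ∑ i, κ i := by
    push_cast
    refine Finset.sum_congr rfl fun i _ => ?_
    exact Int.toNat_of_nonneg (hκ i)
  split_ifs with h0 h1
  · exact Polynomial.eval_zero
  · rw [Polynomial.eval_pow, Polynomial.eval_X]
    refine zero_pow ?_
    omega
  · exact Polynomial.eval_zero

theorem tPI (hPts : StPts) (hLim : StLim) : StPI := by
  classical
  intro n k A u b hch hsec I
  obtain ⟨hu, hb, hnn⟩ := hch
  have hne : (toricCone A k).Nonempty := by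
    have h := hPts n k A u b hnn 1 (fun _ => 0) 0
    refine ⟨_, h ?_⟩
    intro h0
    have := congrFun h0 (Sum.inl ⟨u, hu⟩)
    simp at this
  have key := hLim (A ⊕ Fin k) (toricCone A k) hne hsec
    (Sum.elim (fun a : A => PI_q (fun i => b.repr (a.1 - u) i) I) (fun _ => 0)) ?_
  · obtain ⟨ξ, hξ, η, hη, hq⟩ := key
    refine ⟨ξ, hξ, η, hη, fun a => ?_⟩
    have ha := congrFun hq (Sum.inl a)
    simp only [Sum.elim_inl, Pi.add_apply] at ha
    rw [← ha]
    refine ⟨fun h => ?_, fun i hi h => ?_, fun h => ?_⟩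
    · apply PI_zero
      intro i
      rw [h, sub_self, map_zero]
      rfl
    · apply PI_one _ _ i hi
      · rw [h, add_sub_cancel_left, Module.Basis.repr_self, Finsupp.single_eq_same]
      · intro j hj
        rw [h, add_sub_cancel_left, Module.Basis.repr_self, Finsupp.single_apply,
          if_neg (Ne.symm hj)]
    · exact PI_two _ (fun i => hnn a.1 a.2 i) I h
  · intro ε hε
    refine ⟨_, hPts n k A u b hnn ε⁻¹ (fun i => if i ∈ I then ε else 0) 0,
      _, hPts n k A u b hnn (-ε⁻¹) (fun _ => 0) 0, ?_⟩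
    funext j
    rcases j with a | j
    · simp only [Sum.elim_inl, Pi.add_apply]
      exact PI_eval _ (fun i => hnn a.1 a.2 i) I ε hε
    · simp

end Pool.Agent.Lib.MP_e005b4_ag
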