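import Pool.Agent.Lib.MP_e005b4_ag.Tor.Spec

/-!
# A polynomial curve in the cone of a closed set, up to finitely many parameters
-/

set_option autoImplicit false

namespace Pool.Agent.Lib.MP_e005b4_ag

open MvPolynomial
open scoped LinearAlgebra.Projectivization

/-- A polynomial which vanishes along a polynomial curve up to finitely many parameters vanishes
along the curve. -/
private theorem Pth_vanish {ι : Type} (F : MvPolynomial ι ℂ) (q : ι → Polynomial ℂ) (S : Finset ℂ)
    (h : ∀ ε : ℂ, ε ∉ S → eval (fun i => (q i).eval ε) F = 0) (ε : ℂ) :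
    eval (fun i => (q i).eval ε) F = 0 := by
  have h1 : ∀ ε : ℂ, (MvPolynomial.aeval q F).eval ε = eval (fun i => (q i).eval ε) F := by
    intro ε
    have h2 := MvPolynomial.eval₂_comp_left (Polynomial.evalRingHom ε)
      (algebraMap ℂ (Polynomial ℂ)) q F
    rw [MvPolynomial.aeval_def]
    rw [Polynomial.coe_evalRingHom] at h2
    rw [h2]
    have h3 : (Polynomial.evalRingHom ε).comp (algebraMap ℂ (Polynomial ℂ)) = RingHom.id ℂ := by
      ext x
      simp
    rw [h3]
    rfl
  have h2 : MvPolynomial.aeval q F = 0 := by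
    apply Polynomial.eq_zero_of_infinite_isRoot
    refine Set.Infinite.mono (s := {ε : ℂ | ε ∉ S}) ?_ ?_
    · intro ε hε
      show (MvPolynomial.aeval q F).eval ε = 0
      rw [h1]
      exact h ε hε
    · exact S.finite_toSet.infinite_compl
  rw [← h1, h2, Polynomial.eval_zero]

theorem tPth : StPth := by
  intro ι _ X hX hne q S h ε
  refine mem_cone_of_vIdeal hX hne fun F hF => ?_
  refine Pth_vanish F q S (fun ε hε => ?_) ε
  exact (mem_vIdeal.1 hF) _ (h ε hε)

end Pool.Agent.Lib.MP_e005b4_ag
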