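import Pool.Agent.Lib.MP_e005b4_ag.Tor.Spec

/-!
Proof of `StPts`: the points `(c x ^ κ(a) ; z)` are in the cone of the toric variety.
-/

set_option autoImplicit false

namespace Pool.Agent.Lib.MP_e005b4_ag

open MvPolynomial
open scoped LinearAlgebra.Projectivization

theorem Pts_prod_zpow {α : Type} (s : Finset α) (g : ℂˣ) (f : α → ℤ) :
    ∏ l ∈ s, g ^ (f l) = g ^ (∑ l ∈ s, f l) := by
  classical
  induction s using Finset.induction_on with
  | empty => simp
  | insert a s ha ih => rw [Finset.prod_insert ha, Finset.sum_insert ha, zpow_add, ih]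

theorem Pts_repr {n : ℕ} (b : Module.Basis (Fin n) ℤ (Fin n → ℤ)) (a : Fin n → ℤ) (i : Fin n) :
    ∑ l, b.repr (Pi.single l 1) i * a l = b.repr a i := by
  have h1 : a = ∑ l, a l • (Pi.single l (1 : ℤ) : Fin n → ℤ) := by
    funext j
    simp [Finset.sum_apply, Pi.single_apply]
  conv_rhs => rw [h1]
  rw [map_sum, Finsupp.finsetSum_apply]
  refine Finset.sum_congr rfl fun l _ => ?_
  rw [map_smul, Finsupp.smul_apply, smul_eq_mul, mul_comm]

theorem Pts_torus {n k : ℕ} (A : Finset (Fin n → ℤ)) (u : Fin n → ℤ)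
    (b : Module.Basis (Fin n) ℤ (Fin n → ℤ)) (hA : ∀ a ∈ A, ∀ i, 0 ≤ b.repr (a - u) i)
    (c : ℂ) (x : Fin n → ℂ) (hx : ∀ i, x i ≠ 0) (z : Fin k → ℂ) :
    (Sum.elim (fun a : A => c * ∏ i, x i ^ (b.repr (a.1 - u) i).toNat) z : A ⊕ Fin k → ℂ) ∈
      cone (torusPts A k) := by
  intro hv
  obtain ⟨c', hc', he⟩ := rep_eq _ hv
  refine ⟨c' * (c * ((∏ i, (Units.mk0 (x i) (hx i)) ^ (-(b.repr u i)) : ℂˣ) : ℂ)),
    fun l => ∏ i, (Units.mk0 (x i) (hx i)) ^ (b.repr (Pi.single l 1) i), fun j => c' * z j, ?_⟩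
  rw [he]
  funext t
  rcases t with a | j
  · simp only [Pi.smul_apply, Sum.elim_inl, smul_eq_mul]
    have h1 : (∏ l, (∏ i, (Units.mk0 (x i) (hx i)) ^ (b.repr (Pi.single l 1) i)) ^ (a.1 l) : ℂˣ) =
        ∏ i, (Units.mk0 (x i) (hx i)) ^ (b.repr a.1 i) := by
      have h2 : ∀ l, (∏ i, (Units.mk0 (x i) (hx i)) ^ (b.repr (Pi.single l 1) i)) ^ (a.1 l) =
          ∏ i, (Units.mk0 (x i) (hx i)) ^ (b.repr (Pi.single l 1) i * a.1 l) := by
        intro l
        rw [← Finset.prod_zpow]
        exact Finset.prod_congr rfl fun i _ => (zpow_mul _ _ _).symm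
      simp only [h2]
      rw [Finset.prod_comm]
      refine Finset.prod_congr rfl fun i _ => ?_
      rw [Pts_prod_zpow, Pts_repr]
    have h3 : (∏ i, (Units.mk0 (x i) (hx i)) ^ (-(b.repr u i)) : ℂˣ) *
        (∏ l, (∏ i, (Units.mk0 (x i) (hx i)) ^ (b.repr (Pi.single l 1) i)) ^ (a.1 l) : ℂˣ) =
        ∏ i, (Units.mk0 (x i) (hx i)) ^ (b.repr (a.1 - u) i).toNat := by
      rw [h1, ← Finset.prod_mul_distrib]
      refine Finset.prod_congr rfl fun i _ => ?_
      rw [← zpow_add, ← zpow_natCast, Int.toNat_of_nonneg (hA a.1 a.2 i)]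
      congr 1
      rw [map_sub, Finsupp.sub_apply]
      ring
    have h4 := congrArg (fun g : ℂˣ => (g : ℂ)) h3
    simp only [Units.val_mul] at h4
    have h5 : (((∏ i, (Units.mk0 (x i) (hx i)) ^ (b.repr (a.1 - u) i).toNat : ℂˣ)) : ℂ) =
        ∏ i, x i ^ (b.repr (a.1 - u) i).toNat := by
      rw [Units.coe_prod]
      exact Finset.prod_congr rfl fun i _ => by rw [Units.val_pow_eq_pow_val, Units.val_mk0]
    rw [h5] at h4
    rw [← h4]
    ring
  · simp only [Pi.smul_apply, Sum.elim_inr, smul_eq_mul]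

theorem tPts : StPts := by
  intro n k A u b hA c x z hv
  -- the moving point
  have hxe : ∀ ε : ℂ, ε ≠ 0 → ∀ i, (if x i = 0 then ε else x i) ≠ 0 := by
    intro ε hε i
    split_ifs with h
    · exact hε
    · exact h
  have hmem : ∀ ε : ℂ, ε ≠ 0 →
      (Sum.elim (fun a : A => c * ∏ i, (if x i = 0 then ε else x i) ^ (b.repr (a.1 - u) i).toNat) z :
        A ⊕ Fin k → ℂ) ∈ cone (torusPts A k) := by
    intro ε hε
    exact Pts_torus A u b hA c (fun i => if x i = 0 then ε else x i) (hxe ε hε) z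
  have hne : (torusPts A k).Nonempty := by
    have h1 : (Sum.elim (fun a : A => c * ∏ i, (if x i = 0 then (1 : ℂ) else x i) ^
        (b.repr (a.1 - u) i).toNat) z : A ⊕ Fin k → ℂ) ≠ 0 := by
      obtain ⟨t, ht⟩ := Function.ne_iff.mp hv
      intro h0
      rcases t with a | j
      · have h2 := congrFun h0 (Sum.inl a)
        simp only [Sum.elim_inl, Pi.zero_apply] at h2 ht
        rcases mul_eq_zero.1 h2 with h3 | h3
        · exact ht (by rw [h3, zero_mul])
        · rw [Finset.prod_eq_zero_iff] at h3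
          obtain ⟨i, _, hi⟩ := h3
          exact pow_ne_zero _ (hxe 1 one_ne_zero i) hi
      · have h2 := congrFun h0 (Sum.inr j)
        simp only [Sum.elim_inr, Pi.zero_apply] at h2 ht
        exact ht h2
    exact ⟨_, (mem_cone_iff h1).1 (hmem 1 one_ne_zero)⟩
  intro F d hF hT
  rw [eval_rep_iff hF _ hv]
  have h := limit_zero F (Sum.elim (fun a : A => Polynomial.C c * ∏ i, (if x i = 0 then Polynomial.X
    else Polynomial.C (x i)) ^ (b.repr (a.1 - u) i).toNat) fun j => Polynomial.C (z j)) ?_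
  · refine Eq.trans (congrArg (fun f : A ⊕ Fin k → ℂ => eval f F) ?_) h
    funext t
    rcases t with a | j
    · simp only [Sum.elim_inl, Polynomial.eval_mul, Polynomial.eval_C, Polynomial.eval_prod,
        Polynomial.eval_pow]
      congr 1
      refine Finset.prod_congr rfl fun i _ => ?_
      split_ifs with h1
      · rw [h1, Polynomial.eval_X]
      · rw [Polynomial.eval_C]
    · simp only [Sum.elim_inr, Polynomial.eval_C]
  · intro ε hε
    have h2 := vanish_on_cone hne hF hT _ (hmem ε hε)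
    refine Eq.trans (congrArg (fun f : A ⊕ Fin k → ℂ => eval f F) ?_) h2
    funext t
    rcases t with a | j
    · simp only [Sum.elim_inl, Polynomial.eval_mul, Polynomial.eval_C, Polynomial.eval_prod,
        Polynomial.eval_pow]
      congr 1
      refine Finset.prod_congr rfl fun i _ => ?_
      split_ifs with h1
      · rw [Polynomial.eval_X]
      · rw [Polynomial.eval_C]
    · simp only [Sum.elim_inr, Polynomial.eval_C]

end Pool.Agent.Lib.MP_e005b4_ag
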