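import Pool.Agent.Lib.MP_e005b4_ag.Tor.Spec
import Pool.Agent.Lib.MP_e005b4_ag.Ver.Sym

/-!
# RkQ: decomposition of a matrix with a symmetric block
-/

set_option autoImplicit false

namespace Pool.Agent.Lib.MP_e005b4_ag

open Matrix

theorem RkQ_step {m : ℕ} (M : Matrix (Fin m) (Fin m) ℂ) (w β : Fin m → ℂ)
    (hw : ∀ y, M *ᵥ y = 0 → w ⬝ᵥ y = 0) (hβ : w ⬝ᵥ β = 1) {r : ℕ} (hr : M.rank ≤ r + 1) :
    (M - vecMulVec (M *ᵥ β) w).rank ≤ r := by
  have hval : ∀ y, (M - vecMulVec (M *ᵥ β) w) *ᵥ y = M *ᵥ y - (w ⬝ᵥ y) • (M *ᵥ β) := by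
    intro y
    rw [Matrix.sub_mulVec, Matrix.vecMulVec_mulVec, op_smul_eq_smul]
  have hlt : LinearMap.ker M.mulVecLin < LinearMap.ker (M - vecMulVec (M *ᵥ β) w).mulVecLin := by
    rw [SetLike.lt_iff_le_and_exists]
    refine ⟨fun y hy => ?_, β, ?_, fun hy => ?_⟩
    · rw [LinearMap.mem_ker, Matrix.mulVecLin_apply] at hy ⊢
      rw [hval, hw y hy, hy, zero_smul, sub_zero]
    · rw [LinearMap.mem_ker, Matrix.mulVecLin_apply, hval, hβ, one_smul, sub_self]
    · rw [LinearMap.mem_ker, Matrix.mulVecLin_apply] at hy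
      rw [hw β hy] at hβ
      exact zero_ne_one hβ
  have h1 := Submodule.finrank_lt_finrank_of_lt hlt
  have h2 := M.mulVecLin.finrank_range_add_finrank_ker
  have h3 := (M - vecMulVec (M *ᵥ β) w).mulVecLin.finrank_range_add_finrank_ker
  unfold Matrix.rank at hr ⊢
  omega

theorem RkQ_reduce {m : ℕ} (M : Matrix (Fin m) (Fin m) ℂ) (T : Set (Fin m))
    (hT : ∀ s t, t ∉ T → M s t = 0) (hS : ∀ s ∈ T, ∀ t ∈ T, M s t = M t s) (h0 : M ≠ 0) :
    ∃ (c : ℂ) (w β : Fin m → ℂ), (∀ y, M *ᵥ y = 0 → w ⬝ᵥ y = 0) ∧ w ⬝ᵥ β = 1 ∧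
      (∀ t, t ∉ T → w t = 0) ∧ ∀ s ∈ T, (M *ᵥ β) s = c * w s := by
  classical
  by_cases hB : ∀ s ∈ T, ∀ t ∈ T, M s t = 0
  · obtain ⟨s, t, hst⟩ : ∃ s t, M s t ≠ 0 := by
      by_contra hcon
      push Not at hcon
      exact h0 (by ext s t; rw [hcon s t]; rfl)
    have ht : t ∈ T := by
      by_contra ht
      exact hst (hT s t ht)
    refine ⟨0, (M s t)⁻¹ • M s, Pi.single t 1, fun y hy => ?_, ?_, fun t' ht' => ?_, fun s' hs' => ?_⟩
    · have h1 : M s ⬝ᵥ y = (M *ᵥ y) s := rfl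
      rw [smul_dotProduct, h1, hy, Pi.zero_apply, smul_zero]
    · rw [smul_dotProduct, dotProduct_single_one, smul_eq_mul, inv_mul_cancel₀ hst]
    · rw [Pi.smul_apply, hT s t' ht', smul_zero]
    · rw [zero_mul, Matrix.mulVec_single_one]
      exact hB s' hs' t ht
  · obtain ⟨N, hN⟩ : ∃ N : Matrix (Fin m) (Fin m) ℂ,
        N = Matrix.of fun s t => if s ∈ T ∧ t ∈ T then M s t else 0 := ⟨_, rfl⟩
    have hNv : ∀ s t, N s t = if s ∈ T ∧ t ∈ T then M s t else 0 := by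
      intro s t
      rw [hN]
      rfl
    have hNsym : Nᵀ = N := by
      ext s t
      rw [Matrix.transpose_apply, hNv, hNv]
      by_cases hs : s ∈ T
      · by_cases ht : t ∈ T
        · rw [if_pos ⟨ht, hs⟩, if_pos ⟨hs, ht⟩, hS s hs t ht]
        · rw [if_neg fun h => ht h.1, if_neg fun h => ht h.2]
      · rw [if_neg fun h => hs h.2, if_neg fun h => hs h.1]
    have hN0 : N ≠ 0 := by
      intro h
      apply hB
      intro s hs t ht
      have h1 := hNv s t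
      rw [if_pos ⟨hs, ht⟩, h] at h1
      exact h1.symm
    have hMN : ∀ (y : Fin m → ℂ), ∀ s ∈ T, (N *ᵥ y) s = (M *ᵥ y) s := by
      intro y s hs
      show ∑ t, N s t * y t = ∑ t, M s t * y t
      refine Finset.sum_congr rfl fun t _ => ?_
      by_cases ht : t ∈ T
      · rw [hNv, if_pos ⟨hs, ht⟩]
      · rw [hNv, if_neg fun h => ht h.2, hT s t ht]
    have hN0' : ∀ (y : Fin m → ℂ), ∀ s, s ∉ T → (N *ᵥ y) s = 0 := by
      intro y s hs
      show ∑ t, N s t * y t = 0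
      refine Finset.sum_eq_zero fun t _ => ?_
      rw [hNv, if_neg fun h => hs h.1, zero_mul]
    obtain ⟨β, hβ⟩ := sym_ne hNsym hN0
    refine ⟨β ⬝ᵥ (N *ᵥ β), (β ⬝ᵥ (N *ᵥ β))⁻¹ • (N *ᵥ β), β, fun y hy => ?_, ?_, fun t ht => ?_,
      fun s hs => ?_⟩
    · have h1 : N *ᵥ y = 0 := by
        funext s
        by_cases hs : s ∈ T
        · rw [hMN y s hs, hy]
        · rw [hN0' y s hs]
          rfl
      rw [smul_dotProduct, dotProduct_comm (N *ᵥ β) y, sym_dot hNsym y β, h1, dotProduct_zero,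
        smul_zero]
    · rw [smul_dotProduct, dotProduct_comm (N *ᵥ β) β, smul_eq_mul, inv_mul_cancel₀ hβ]
    · rw [Pi.smul_apply, hN0' β t ht, smul_zero]
    · rw [Pi.smul_apply, smul_eq_mul, mul_inv_cancel_left₀ hβ, hMN β s hs]

theorem RkQ_main {m : ℕ} (T : Set (Fin m)) (r : ℕ) : ∀ (M : Matrix (Fin m) (Fin m) ℂ),
    (∀ s t, t ∉ T → M s t = 0) → (∀ s ∈ T, ∀ t ∈ T, M s t = M t s) → M.rank ≤ r →
    ∃ (c : Fin r → ℂ) (w v : Fin r → Fin m → ℂ), (∀ l t, t ∉ T → w l t = 0) ∧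
      (∀ s ∈ T, ∀ t, M s t = ∑ l, c l * w l s * w l t) ∧
      (∀ s, s ∉ T → ∀ t, M s t = ∑ l, v l s * w l t) := by
  induction r with
  | zero =>
    intro M _ _ hM
    have h3 : Module.finrank ℂ (LinearMap.range M.mulVecLin) = 0 := Nat.le_zero.1 hM
    have h4 : LinearMap.range M.mulVecLin = ⊥ := Submodule.finrank_eq_zero.1 h3
    have h5 : M.mulVecLin = 0 := LinearMap.range_eq_bot.1 h4
    have h6 : M = 0 := Matrix.toLin'.map_eq_zero_iff.1 h5
    refine ⟨fun _ => 0, fun _ => 0, fun _ => 0, fun l => l.elim0, fun s _ t => ?_, fun s _ t => ?_⟩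
    · rw [h6, Finset.univ_eq_empty, Finset.sum_empty, Matrix.zero_apply]
    · rw [h6, Finset.univ_eq_empty, Finset.sum_empty, Matrix.zero_apply]
  | succ r ih =>
    intro M hT hS hr
    by_cases h0 : M = 0
    · refine ⟨fun _ => 0, fun _ => 0, fun _ => 0, fun l t _ => rfl, fun s _ t => ?_, fun s _ t => ?_⟩
      · rw [h0, Matrix.zero_apply]
        simp
      · rw [h0, Matrix.zero_apply]
        simp
    · obtain ⟨c, w, β, hw, hβ, hwT, hc⟩ := RkQ_reduce M T hT hS h0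
      have hr' := RkQ_step M w β hw hβ hr
      have hv : ∀ s t, (M - vecMulVec (M *ᵥ β) w) s t = M s t - (M *ᵥ β) s * w t := fun _ _ => rfl
      obtain ⟨c', w', v', h1, h2, h3⟩ := ih (M - vecMulVec (M *ᵥ β) w) (fun s t ht => by
        rw [hv, hT s t ht, hwT t ht, mul_zero, sub_zero]) (fun s hs t ht => by
        rw [hv, hv, hS s hs t ht, hc s hs, hc t ht]
        ring) hr'
      refine ⟨Fin.cons c c', Fin.cons w w', Fin.cons (M *ᵥ β) v', fun l => ?_, fun s hs t => ?_,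
        fun s hs t => ?_⟩
      · refine Fin.cases ?_ (fun l => ?_) l
        · exact hwT
        · exact h1 l
      · rw [Fin.sum_univ_succ]
        simp only [Fin.cons_zero, Fin.cons_succ]
        rw [← h2 s hs t, hv, hc s hs]
        ring
      · rw [Fin.sum_univ_succ]
        simp only [Fin.cons_zero, Fin.cons_succ]
        rw [← h3 s hs t, hv]
        ring

theorem tRkQ : StRkQ := fun _ r M T h1 h2 h3 => RkQ_main T r M h1 h2 h3

end Pool.Agent.Lib.MP_e005b4_ag
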