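import Pool.Agent.Lib.MP_e005b4_ag.Tor.Spec
import Pool.Agent.Lib.MP_e005b4_ag.Ver.Sym
import Pool.Agent.Lib.MP_e005b4_ag.Sec.SegreVar

/-!
# A criterion by ranks of matrices of coordinates
-/

set_option autoImplicit false

namespace Pool.Agent.Lib.MP_e005b4_ag

open MvPolynomial
open scoped LinearAlgebra.Projectivization

private theorem Rnk_one {m q : ℕ} (M : Matrix (Fin m) (Fin q) ℂ)
    (h : ∀ s s' t t', M s t * M s' t' = M s t' * M s' t) : M.rank ≤ 1 := by
  by_cases h0 : ∃ s t, M s t ≠ 0
  · obtain ⟨s₀, t₀, hne⟩ := h0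
    have he : M = Matrix.vecMulVec (fun s => M s t₀) (fun t => M s₀ t / M s₀ t₀) := by
      ext s t
      rw [Matrix.vecMulVec_apply, mul_div_assoc', eq_div_iff hne]
      exact h s s₀ t t₀
    rw [he]
    exact Matrix.rank_vecMulVec_le _ _
  · push Not at h0
    have he : M = 0 := by
      ext s t
      exact h0 s t
    rw [he, Matrix.rank_zero]
    exact Nat.zero_le _

private theorem Rnk_sum {m q r : ℕ} (M : Fin r → Matrix (Fin m) (Fin q) ℂ)
    (h : ∀ l, (M l).rank ≤ 1) : (∑ l, M l).rank ≤ r := by
  have key : ∀ S : Finset (Fin r), (∑ l ∈ S, M l).rank ≤ S.card := by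
    classical
    intro S
    induction S using Finset.induction_on with
    | empty => rw [Finset.sum_empty, Matrix.rank_zero]; exact Nat.zero_le _
    | insert a S ha ih =>
      rw [Finset.sum_insert ha, Finset.card_insert_of_notMem ha]
      have h1 := mat_rank_add_le (M a) (∑ l ∈ S, M l)
      have h2 := h a
      omega
  have h1 := key Finset.univ
  rwa [Finset.card_univ, Fintype.card_fin] at h1

theorem tRnk : StRnk := by
  intro ι _ X m q idx h1 h2 r
  rcases Nat.eq_zero_or_pos r with hr | hr
  · subst hr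
    rw [secantVariety_zero]
    exact Set.empty_subset _
  intro p hp
  have h3 : (Matrix.of fun s t => p.rep (idx s t)).rank ≤ r := by
    refine rank_le_of_closure_idx idx (T := secantSet X r) (fun x hx => ?_) hp
    obtain ⟨z, hz, hx⟩ := exists_sum_of_mem_secantSet hx
    have he : (Matrix.of fun s t => x.rep (idx s t)) =
        ∑ l, (Matrix.of fun s t => z l (idx s t)) := by
      ext s t
      rw [Matrix.sum_apply]
      simp only [Matrix.of_apply]
      rw [hx, Finset.sum_apply]
    rw [he]
    exact Rnk_sum _ fun l => Rnk_one _ fun s s' t t' => h1 (z l) (hz l) s s' t t'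
  obtain ⟨z, hz, he⟩ := h2 r p.rep hr h3
  exact mem_secantSet_of_sum' z hz p he

end Pool.Agent.Lib.MP_e005b4_ag
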