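import Pool.Agent.Lib.MP_e005b4_ag.Tor.Defs

/-!
# Toric varieties with rank = border rank: statements of the modules

The proof is Theorem T of note 3645 (table notes). Each statement `StX` is proved in the module
`Tor/X.lean` as `theorem tX : StX`; other statements used in the proof are hypotheses of that theorem,
for example `theorem tPI (hPts : StPts) (hLim : StLim) : StPI`. All modules are independent.

In a chart `(u, b)` of `A` the coordinates of `a` are `b.repr (a - u)`, all `≥ 0` on `A`.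
Useful tools: `limit_zero`, `irred_of_param` (Sec/Var.lean), `eval_rep_iff`, `vanish_on_cone`,
`mem_cone_iff`, `smul_mem_cone`, `rep_mem_cone` (Basic.lean), `mem_secantSet_of_sum'`,
`exists_sum_of_mem_secantSet`, `rank_eq_of_secant` (Sec/Basic.lean), `secant_two_of_rank`
(Ranks.lean), `add_mem_cone_secant` (Sec/Scroll.lean), `rank_le_of_closure_idx` (Ver/Sym.lean),
`mat_rank_add_le` (Sec/SegreVar.lean).
-/

set_option autoImplicit false

namespace Pool.Agent.Lib.MP_e005b4_ag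

open MvPolynomial
open scoped LinearAlgebra.Projectivization

/-- The standard basis of `ℤⁿ`. -/
noncomputable abbrev stdB (n : ℕ) : Module.Basis (Fin n) ℤ (Fin n → ℤ) := Pi.basisFun ℤ (Fin n)

/-- The vector `t e_i`. -/
abbrev ev {n : ℕ} (i : Fin n) (t : ℤ) : Fin n → ℤ := Pi.single i t

/-- One of the four configurations O1, O2, O3, O4 of the note in the chart `(u, b)`. -/
def Obs {n : ℕ} (A : Finset (Fin n → ℤ)) (u : Fin n → ℤ)
    (b : Module.Basis (Fin n) ℤ (Fin n → ℤ)) : Prop :=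
  (∃ i, u + (2 : ℤ) • b i ∈ A ∧ u + (3 : ℤ) • b i ∈ A) ∨
  (∃ i j, i ≠ j ∧ u + (2 : ℤ) • b i ∈ A ∧ u + b i + b j ∈ A ∧ u + (2 : ℤ) • b i + b j ∈ A) ∨
  (∃ i j, i ≠ j ∧ u + b i + b j ∈ A ∧ u + (2 : ℤ) • b i + b j ∈ A ∧
    u + b i + (2 : ℤ) • b j ∈ A) ∨
  (∃ i j l, i ≠ j ∧ i ≠ l ∧ j ≠ l ∧ u + b i + b j ∈ A ∧ u + b j + b l ∈ A ∧ u + b i + b l ∈ A ∧
    u + b i + b j + b l ∈ A)

/-! ### Algebra -/

/-- **Pts.** The points `(c x ^ κ(a) ; z)`, `x` in `ℂⁿ` (zero coordinates allowed), where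
`κ(a) = b.repr (a - u)` are coordinates which are `≥ 0` on `A`.
PROOF. Let `F` be a form vanishing on `torusPts`. If all `x i ≠ 0` then
`c x ^ κ(a) = c' y ^ a` with `y l = ∏ i, x i ^ (b.repr (e_l) i)`, `c' = c ∏ i, x i ^ (- b.repr u i)`,
so the vector is in the cone of `torusPts` and `F` vanishes there (`vanish_on_cone`; if `torusPts` is
empty then the vector is `0`). In general put `x i (ε) = x i` if `x i ≠ 0`, `ε` if `x i = 0`, and use
`limit_zero`. -/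
def StPts : Prop := ∀ (n k : ℕ) (A : Finset (Fin n → ℤ)) (u : Fin n → ℤ)
  (b : Module.Basis (Fin n) ℤ (Fin n → ℤ)), (∀ a ∈ A, ∀ i, 0 ≤ b.repr (a - u) i) →
  ∀ (c : ℂ) (x : Fin n → ℂ) (z : Fin k → ℂ),
    (Sum.elim (fun a : A => c * ∏ i, x i ^ (b.repr (a.1 - u) i).toNat) z : A ⊕ Fin k → ℂ) ∈
      cone (toricCone A k)

/-- **Bin.** Quadratic binomials vanish on the toric variety.
PROOF. `X_a X_b - X_c X_d` is a form of degree two which vanishes on `torusPts`. -/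
def StBin : Prop := ∀ (n k : ℕ) (A : Finset (Fin n → ℤ)) (ξ : A ⊕ Fin k → ℂ),
  ξ ∈ cone (toricCone A k) → ∀ a b c d : A, a.1 + b.1 = c.1 + d.1 →
    ξ (Sum.inl a) * ξ (Sum.inl b) = ξ (Sum.inl c) * ξ (Sum.inl d)

/-- **Lim.** A polynomial curve which for `ε ≠ 0` runs in the sums of two elements of the cone of
`X` has a sum of two elements at `ε = 0`, if the set of the sums is closed.
PROOF. If `q(0) = 0` take `ξ = η = 0`. Otherwise every form vanishing on `secantSet X 2` vanishes at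
`q(ε)`, `ε ≠ 0` (`add_mem_cone_secant`, `vanish_on_cone`), so at `q(0)` (`limit_zero`), so the point
of `q(0)` is in `secantVariety X 2`; use `exists_sum_of_mem_secantSet` and scale. -/
def StLim : Prop := ∀ (ι : Type) [Fintype ι] (X : Set (PSpace ι)), X.Nonempty →
  secantVariety X 2 ⊆ secantSet X 2 → ∀ q : ι → Polynomial ℂ,
    (∀ ε : ℂ, ε ≠ 0 → ∃ ξ ∈ cone X, ∃ η ∈ cone X, (fun i => (q i).eval ε) = ξ + η) →
    ∃ ξ ∈ cone X, ∃ η ∈ cone X, (fun i => (q i).eval 0) = ξ + η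

/-- **Pth.** A polynomial curve which runs in the cone of a closed set `X` except for finitely many
parameters runs in it for all parameters.
PROOF. As `limit_zero`: a polynomial with infinitely many zeros is zero. -/
def StPth : Prop := ∀ (ι : Type) [Fintype ι] (X : Set (PSpace ι)), IsZariskiClosed X →
  X.Nonempty → ∀ (q : ι → Polynomial ℂ) (S : Finset ℂ),
    (∀ ε : ℂ, ε ∉ S → (fun i => (q i).eval ε) ∈ cone X) →
    ∀ ε : ℂ, (fun i => (q i).eval ε) ∈ cone X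

/-- **PI** (uses `StPts`, `StLim`). The tangent point `p_I` at a vertex is a sum of two elements of
the cone. PROOF. Let `κ = b.repr (a - u)` and `x i = ε` for `i ∈ I`, `x i = 0` otherwise. Apply `StLim`
to `q(ε) = ε⁻¹ (x ^ κ(a) - 0 ^ κ(a) ; 0)`, which is the polynomial `0` if `κ = 0`, `ε ^ (|κ| - 1)` if
`κ ≠ 0` and the support of `κ` is in `I`, and `0` otherwise. (`toricCone A k` is nonempty: `u ∈ A`.) -/
def StPI : Prop := ∀ (n k : ℕ) (A : Finset (Fin n → ℤ)) (u : Fin n → ℤ)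
  (b : Module.Basis (Fin n) ℤ (Fin n → ℤ)), IsChart A u b →
  secantVariety (toricCone A k) 2 ⊆ secantSet (toricCone A k) 2 → ∀ I : Finset (Fin n),
    ∃ ξ ∈ cone (toricCone A k), ∃ η ∈ cone (toricCone A k), ∀ a : A,
      (a.1 = u → ξ (Sum.inl a) + η (Sum.inl a) = 0) ∧
      (∀ i ∈ I, a.1 = u + b i → ξ (Sum.inl a) + η (Sum.inl a) = 1) ∧
      (2 ≤ ∑ i, b.repr (a.1 - u) i → ξ (Sum.inl a) + η (Sum.inl a) = 0)

/-- **PE** (uses `StPts`, `StLim`). The tangent point `p_E` at a point of an edge is a sum of two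
elements of the cone. PROOF. Apply `StLim` to
`q(ε) = (1 - ε⁻¹) (x ^ κ(a) ; 0) + ε⁻¹ (y ^ κ(a) ; 0)` with `x = e_i` and `y = (1 + ε) e_i + ε e_j`
(coordinates in `ℂⁿ`), which is the polynomial: `0` if `κ l ≠ 0` for some `l ≠ i, j`;
`1 + ∑_(s < κ i) (1 + ε) ^ s` if `κ j = 0`; `(1 + ε) ^ (κ i) ε ^ (κ j - 1)` if `κ j ≥ 1`. -/
def StPE : Prop := ∀ (n k : ℕ) (A : Finset (Fin n → ℤ)) (u : Fin n → ℤ)
  (b : Module.Basis (Fin n) ℤ (Fin n → ℤ)), IsChart A u b →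
  secantVariety (toricCone A k) 2 ⊆ secantSet (toricCone A k) 2 → ∀ i j : Fin n, i ≠ j →
    ∃ ξ ∈ cone (toricCone A k), ∃ η ∈ cone (toricCone A k), ∀ a : A,
      (a.1 = u → ξ (Sum.inl a) + η (Sum.inl a) = 1) ∧
      (a.1 = u + b i → ξ (Sum.inl a) + η (Sum.inl a) = 2) ∧
      (∀ t : ℕ, a.1 = u + (t : ℤ) • b i + b j → ξ (Sum.inl a) + η (Sum.inl a) = 1) ∧
      (a.1 = u + b i + (2 : ℤ) • b j → ξ (Sum.inl a) + η (Sum.inl a) = 0)

/-- **ObV** (uses `StBin`, `StPI`). No obstruction O1, O2, O4. PROOF. Step 1 of the note, with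
quadratic binomials only. `p_I = ξ + η`; let `x_v = ξ (u + v)`, `y_v = η (u + v)` (`v` a combination of
the `b i`). `x_0 + y_0 = 0`. Binomials: `x_i ^ 2 = x_0 x_2i`, `x_i x_2i = x_0 x_3i`,
`x_i x_j = x_0 x_(i+j)`, `x_i x_(i+j) = x_0 x_(2i+j)`, `x_(i+j) x_l = x_0 x_(i+j+l)`, the same for `y`.
If `x_0 = y_0 = 0`: O1, O2: `x_i = y_i = 0`, but `x_i + y_i = 1`; O4: among `x_i, x_j, x_l` at most one
is nonzero, among the `y` too, but all sums `x_s + y_s = 1`. If `x_0 = c`, `y_0 = -c`, `c ≠ 0`: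
`X = x / c`, `Y = -y / c` satisfy `X_s ≠ Y_s` (`s ∈ I`), `X_2i = X_i ^ 2 = Y_i ^ 2` and so on.
O1: `X_i ^ 2 = Y_i ^ 2`, `X_i ^ 3 = Y_i ^ 3`. O2: `X_i ^ 2 = Y_i ^ 2`, `X_i X_j = Y_i Y_j`,
`X_i ^ 2 X_j = Y_i ^ 2 Y_j`. O4: `X_i X_j = Y_i Y_j` etc. and `X_i X_j X_l = Y_i Y_j Y_l`. -/
def StObV : Prop := ∀ (n k : ℕ) (A : Finset (Fin n → ℤ)) (u : Fin n → ℤ)
  (b : Module.Basis (Fin n) ℤ (Fin n → ℤ)), IsChart A u b →
  secantVariety (toricCone A k) 2 ⊆ secantSet (toricCone A k) 2 →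
    (∀ i, u + (2 : ℤ) • b i ∈ A → u + (3 : ℤ) • b i ∈ A → False) ∧
    (∀ i j, i ≠ j → u + (2 : ℤ) • b i ∈ A → u + b i + b j ∈ A → u + (2 : ℤ) • b i + b j ∈ A →
      False) ∧
    (∀ i j l, i ≠ j → i ≠ l → j ≠ l → u + b i + b j ∈ A → u + b j + b l ∈ A →
      u + b i + b l ∈ A → u + b i + b j + b l ∈ A → False)

/-- **ObE** (uses `StBin`, `StPE`). No obstruction O3. PROOF. `p_E = ξ + η`; let `x_st` be the value of
`ξ` at `u + s b_i + t b_j`, `y_st` that of `η`. Sums: `00: 1`, `10: 2`, `01: 1`, `11: 1`, `21: 1`,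
`12: 0`. Binomials (for `x` and for `y`): `x10 x01 = x00 x11`, `x10 x11 = x00 x21`, `x01 x11 = x00 x12`,
`x01 x21 = x11 ^ 2`, `x12 x10 = x21 x01`, `x12 x00 = x11 x01`. Contradiction:
(1) `x00 = 0`, so `y00 = 1`. If `x10 = 0`: `y10 = 2`, `y11 = 2 y01`, `y21 = 4 y01`; with `k = y01`:
`x01 x21 = x11 ^ 2` reads `(1 - k) (1 - 4 k) = (1 - 2 k) ^ 2`, so `k = 0`, `x01 = x11 = 1`,
`x11 x01 = x12 x00 = 0`. If `x10 ≠ 0`: `x01 = 0`, `x11 = 0`, `y01 = y11 = 1`, so `y10 = 1`, `y21 = 1`,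
`x21 = 0`, `y12 = 1`, `x12 = -1`, `x12 x10 = x21 x01 = 0`. (2) `y00 = 0`: symmetric. (3) both nonzero:
`p = x10 / x00`, `q = y10 / y00`, `X = x01`, `Y = y01`: `X + Y = 1`, `X p + Y q = 1`,
`X p ^ 2 + Y q ^ 2 = 1`, `x00 + y00 = 1`, `x00 p + y00 q = 2`; `p = q` gives `p = 1`, contradiction; else
(up to exchange) `p = 1`, `X = 1`, `Y = 0`; `x12 = X ^ 2 p / x00 ≠ 0`, `y12 = 0`. -/
def StObE : Prop := ∀ (n k : ℕ) (A : Finset (Fin n → ℤ)) (u : Fin n → ℤ)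
  (b : Module.Basis (Fin n) ℤ (Fin n → ℤ)), IsChart A u b →
  secantVariety (toricCone A k) 2 ⊆ secantSet (toricCone A k) 2 →
    ∀ i j, i ≠ j → u + b i + b j ∈ A → u + (2 : ℤ) • b i + b j ∈ A →
      u + b i + (2 : ℤ) • b j ∈ A → False

/-- **Var** (uses `StPts`). PROOF. The closure of any set is closed (take all forms vanishing on the
set). Irreducible: `irred_of_param` for the parametrization `(c, x, z) ↦ (c x ^ (a + s) ; z)`, with
`s ∈ ℤⁿ` such that `a + s ≥ 0` on `A` (`StPts` for `u = -s` and the standard basis). Nonempty since `A`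
is. -/
def StVar : Prop := ∀ (n k : ℕ) (A : Finset (Fin n → ℤ)), A.Nonempty →
  IsProjectiveVariety (toricCone A k)

/-- **Rnk.** A criterion: the sums of `r` elements of the cone are described by the rank of a matrix
of coordinates. PROOF. `r = 0`: `secantVariety_zero`. `r ≥ 1`: the matrix of an element of the cone has
rank at most one (all 2 x 2 minors vanish), so the matrix of a point of `secantSet X r` has rank at
most `r` (`exists_sum_of_mem_secantSet`, `mat_rank_add_le`), so that of a point of the closure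
(`rank_le_of_closure_idx`); then use the second hypothesis and `mem_secantSet_of_sum'`. -/
def StRnk : Prop := ∀ (ι : Type) [Fintype ι] (X : Set (PSpace ι)) (m q : ℕ)
  (idx : Fin m → Fin q → ι),
  (∀ ξ ∈ cone X, ∀ s s' t t', ξ (idx s t) * ξ (idx s' t') = ξ (idx s t') * ξ (idx s' t)) →
  (∀ (r : ℕ) (v : ι → ℂ), 1 ≤ r → (Matrix.of fun s t => v (idx s t)).rank ≤ r →
    ∃ z : Fin r → ι → ℂ, (∀ l, z l ∈ cone X) ∧ v = ∑ l, z l) →
  ∀ r, secantVariety X r ⊆ secantSet X r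

/-- **ElD** (uses `StPts`, `StPth`, `StVar`). Rank one elements, product of simplices. PROOF. For
`α β ≠ 0` the vector is `(α β ∏ (x i / α) ^ κ i (i ∈ C) ∏ (x i / β) ^ κ i (i ∉ C) ; z)`, so in the cone by
`StPts`; in general use `StPth` for `α + ε`, `β + ε`. -/
def StElD : Prop := ∀ (n k : ℕ) (A : Finset (Fin n → ℤ)) (u : Fin n → ℤ)
  (b : Module.Basis (Fin n) ℤ (Fin n → ℤ)) (C : Finset (Fin n)), u ∈ A →
  (∀ a ∈ A, (∀ i, 0 ≤ b.repr (a - u) i) ∧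
      ∑ i ∈ C, b.repr (a - u) i ≤ 1 ∧ ∑ i ∈ Cᶜ, b.repr (a - u) i ≤ 1) →
  ∀ (α β : ℂ) (x : Fin n → ℂ) (z : Fin k → ℂ),
    (Sum.elim (fun a : A => α ^ (1 - ∑ i ∈ C, b.repr (a.1 - u) i).toNat *
      β ^ (1 - ∑ i ∈ Cᶜ, b.repr (a.1 - u) i).toNat *
      ∏ i, x i ^ (b.repr (a.1 - u) i).toNat) z : A ⊕ Fin k → ℂ) ∈ cone (toricCone A k)

/-- **ElQ** (uses `StPts`, `StPth`, `StVar`). Rank one elements, truncated double simplex. PROOF. For
`c w ≠ 0` the vector is `(c w ^ 2 ∏ (x i / w) ^ κ i (i ∉ J) ∏ (x i / (c w)) ^ κ i (i ∈ J) ; z)`, so in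
the cone by `StPts`; in general use `StPth` for `c + ε`, `w + ε`. -/
def StElQ : Prop := ∀ (n k : ℕ) (A : Finset (Fin n → ℤ)) (u : Fin n → ℤ)
  (b : Module.Basis (Fin n) ℤ (Fin n → ℤ)) (J : Finset (Fin n)), u ∈ A →
  (∀ a ∈ A, (∀ i, 0 ≤ b.repr (a - u) i) ∧
      ∑ i, b.repr (a - u) i ≤ 2 ∧ ∑ i ∈ J, b.repr (a - u) i ≤ 1) →
  ∀ (c w : ℂ) (x : Fin n → ℂ) (z : Fin k → ℂ),
    (Sum.elim (fun a : A => c ^ (1 - ∑ i ∈ J, b.repr (a.1 - u) i).toNat *
      w ^ (2 - ∑ i, b.repr (a.1 - u) i).toNat *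
      ∏ i, x i ^ (b.repr (a.1 - u) i).toNat) z : A ⊕ Fin k → ℂ) ∈ cone (toricCone A k)

/-- **SufD** (uses `StBin`, `StElD`, `StRnk`). Products of two simplices have the property. PROOF.
`StRnk` with `m = q = n + 1` (index `0` is the vertex `u`, index `i + 1` is `b i`): `idx s t` is the
point `u + e_(ρ s) + e_(τ t)` of `A` where `e_0 = 0`, `e_(i+1) = b i`, `ρ s = s` if `s = 0` or `s ∈ C`
and `ρ s = 0` otherwise, `τ t = t` if `t = 0` or `t ∉ C`, `τ t = 0` otherwise. First hypothesis: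
`StBin`. Second: a matrix of rank `≤ r` is `∑_(l < r) α_l(s) β_l(t)`; every `a ∈ A` is
`u + e_s + e_t` with `s ∈ {0} ∪ C`, `t ∈ {0} ∪ Cᶜ`; `z l` is the element of `StElD` with
`α = α_l(0)`, `β = β_l(0)`, `x i = α_l(i + 1)` for `i ∈ C`, `β_l(i + 1)` for `i ∉ C`; the last `k`
coordinates of `v` are put into `z 0`. -/
def StSufD : Prop := ∀ (n k : ℕ) (A : Finset (Fin n → ℤ)) (u : Fin n → ℤ)
  (b : Module.Basis (Fin n) ℤ (Fin n → ℤ)) (C : Finset (Fin n)),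
  (∀ a, a ∈ A ↔ (∀ i, 0 ≤ b.repr (a - u) i) ∧
      ∑ i ∈ C, b.repr (a - u) i ≤ 1 ∧ ∑ i ∈ Cᶜ, b.repr (a - u) i ≤ 1) →
  ∀ r, secantVariety (toricCone A k) r ⊆ secantSet (toricCone A k) r

/-- **RkQ.** Decomposition of a matrix `M` with zero columns outside `T` and symmetric `T × T`
block. PROOF. `N = ker M`, `U` a complement; the bilinear form
`B(x, y) = ∑_(s ∈ T) x s (M y) s` is symmetric; take an orthogonal basis `u_l` of `U` for `B`
(`LinearMap.BilinForm.exists_orthogonal_basis`), `dim U = rank M ≤ r`, pad by zeros;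
`w_l(t)` = the coordinate of `e_t` (projected to `U` along `N`) at `u_l`; `M e_t = ∑ w_l(t) M u_l`;
`(M u_l) s = B(e_s, u_l) = w_l(s) B(u_l, u_l)` for `s ∈ T` since `B(N, _) = 0`;
`v_l(s) = (M u_l) s`. (Compare `sym_decomp` in Ver/Sym.lean.) -/
def StRkQ : Prop := ∀ (m r : ℕ) (M : Matrix (Fin m) (Fin m) ℂ) (T : Set (Fin m)),
  (∀ s t, t ∉ T → M s t = 0) → (∀ s ∈ T, ∀ t ∈ T, M s t = M t s) → M.rank ≤ r →
  ∃ (c : Fin r → ℂ) (w v : Fin r → Fin m → ℂ), (∀ l t, t ∉ T → w l t = 0) ∧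
    (∀ s ∈ T, ∀ t, M s t = ∑ l, c l * w l s * w l t) ∧
    (∀ s, s ∉ T → ∀ t, M s t = ∑ l, v l s * w l t)

/-- **SufQ** (uses `StBin`, `StElQ`, `StRkQ`, `StRnk`). Truncated double simplices have the property.
PROOF. `StRnk` with `m = q = n + 1`: `idx s t` is the point `u + e_s + e_(τ t)` of `A` where `e_0 = 0`,
`e_(i+1) = b i`, `τ t = t` if `t = 0` or `t ∉ J`, `τ t = 0` if `t ∈ J`. First hypothesis: `StBin`.
Second: let `M` be the matrix, `M'` the matrix with the columns `t ∈ J` replaced by zero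
(`M' = M * diagonal`, so `rank M' ≤ r`), `T = {0} ∪ Jᶜ`; `StRkQ` for `M'`; every `a ∈ A` is
`u + e_s + e_t` with `t ∈ T`; `z l` is the element of `StElQ` with `c = c_l`, `w = w_l(0)`,
`x i = w_l(i + 1)` for `i ∉ J`, `v_l(i + 1)` for `i ∈ J`; the last `k` coordinates go to `z 0`. -/
def StSufQ : Prop := ∀ (n k : ℕ) (A : Finset (Fin n → ℤ)) (u : Fin n → ℤ)
  (b : Module.Basis (Fin n) ℤ (Fin n → ℤ)) (J : Finset (Fin n)),
  (∀ a, a ∈ A ↔ (∀ i, 0 ≤ b.repr (a - u) i) ∧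
      ∑ i, b.repr (a - u) i ≤ 2 ∧ ∑ i ∈ J, b.repr (a - u) i ≤ 1) →
  ∀ r, secantVariety (toricCone A k) r ⊆ secantSet (toricCone A k) r

/-! ### Combinatorics -/

/-- The standard situation: the standard basis is a chart at `0`, `A` is segment closed and
smooth. -/
def Std0 {n : ℕ} (A : Finset (Fin n → ℤ)) : Prop :=
  IsChart A 0 (stdB n) ∧ SegClosed A ∧ SmoothSet A

/-- No chart of `A` has an obstruction. -/
def NoObs {n : ℕ} (A : Finset (Fin n → ℤ)) : Prop := ∀ u b, IsChart A u b → ¬ Obs A u b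

/-- **Nbr.** The chart at the other end of an edge of length `ℓ`. PROOF. All `a ∈ A` have `a ≥ 0`.
`ℓ e_i` is a vertex: `w = e_i - M ∑_(j ≠ i) e_j` with `M` larger than all `a i` (if `t e_i ∈ A`, `t > ℓ`
then `(ℓ + 1) e_i ∈ A` by `SegClosed`). Let `b'` be a chart at `ℓ e_i`. (a) `(ℓ - 1) e_i ∈ A`
(`SegClosed`, `0, ℓ e_i ∈ A`), so `- e_i = ∑ c_s b'_s`, `c_s ≥ 0`; each `b'_s` with `c_s > 0` has
coordinates `≥ 0` at all `j ≠ i` (`ℓ e_i + b'_s ∈ A`) and their sum is zero, so `b'_s = - t_s e_i`, and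
`t_s ≥ 1` by maximality of `ℓ` (`b'_s ≠ 0`); so `- e_i` is one of the `b'_s`. (b) for `j ≠ i`:
`e_j - ℓ e_i = ∑ c_s b'_s`; the `b'_s` with `c_s > 0` have coordinates zero outside `i, j` and `≥ 0` at
`j`, with weighted sum `1` at `j`: some `b'_s = e_j + m_j e_i`. (c) these `n` vectors are all of `b'`
(they are distinct), reindex `b'`. (d) For `a ∈ A`: `a - ℓ e_i = s (- e_i) + ∑_(j ≠ i) a_j (e_j + m_j e_i)`
with `s ≥ 0`. -/
def StNbr : Prop := ∀ (n : ℕ) (A : Finset (Fin n → ℤ)), Std0 A → ∀ (i : Fin n) (ℓ : ℕ), 1 ≤ ℓ →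
  ev i (ℓ : ℤ) ∈ A → ev i ((ℓ : ℤ) + 1) ∉ A →
    ∃ (m : Fin n → ℤ) (b' : Module.Basis (Fin n) ℤ (Fin n → ℤ)), IsChart A (ev i (ℓ : ℤ)) b' ∧
      b' i = ev i (-1) ∧ (∀ j, j ≠ i → b' j = ev j 1 + ev i (m j)) ∧
      ∀ a ∈ A, a i ≤ ℓ + ∑ j ∈ Finset.univ.erase i, m j * a j

/-- **Four.** PROOF. Let `w = e_i + e_j` and `b'` a chart at `w`. Let `x` be one of
`- e_i = e_j - w`, `- e_j`, `e_l - e_i = (e_j + e_l) - w`, `e_l - e_j`; `x = ∑ c_s b'_s`, `c_s ≥ 0`. Each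
`b'_s` with `c_s > 0` has coordinate `≥ 0` at all `t ≠ i, j, l` (as `w + b'_s ∈ A`), so `0` there, so
`(b'_s) i + (b'_s) j ≤ -1` by the last hypothesis for `a = w + b'_s ≠ w`. As `x i + x j = -1`, exactly
one `c_s` is nonzero and it is `1`: `x = b'_s`. But
`(- e_i) + (e_l - e_j) = (- e_j) + (e_l - e_i)` contradicts the linear independence of `b'` (apply
`b'.repr`: `{s1, s4} = {s2, s3}` while the four vectors are different). -/
def StFour : Prop := ∀ (n : ℕ) (A : Finset (Fin n → ℤ)), Std0 A → ∀ i j l : Fin n, i ≠ j →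
  i ≠ l → j ≠ l → IsVertex A (ev i 1 + ev j 1) → ev i 1 + ev l 1 ∈ A → ev j 1 + ev l 1 ∈ A →
    (∀ a ∈ A, (∀ s, s ≠ i → s ≠ j → s ≠ l → a s = 0) → a ≠ ev i 1 + ev j 1 → a i + a j ≤ 1) →
    False

/-- **CaI** (uses `StNbr`, `StFour`). PROOF. Case I of Step 2 of the note. Let `2 e_i ∈ A`; then
`3 e_i ∉ A` (O1). (I.1) `e_i + e_j ∈ A` for `j ≠ i`: if `2 e_j ∈ A` it is a midpoint; else `StNbr` at
`j` with `ℓ = 1`: the inequality for `a = 2 e_i` is `0 ≤ 1 + 2 m_i`, so `m_i ≥ 0` and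
`e_j + (e_i + m_i e_j) ∈ A`; with `e_i ∈ A` and `SegClosed`. (I.2) `StNbr` at `i` with `ℓ = 2`: for
`a = e_i + e_j`: `1 ≤ 2 + m_j`; if `m_j ≥ 0` then `2 e_i + (e_j + m_j e_i) ∈ A`, `e_j ∈ A`, so
`2 e_i + e_j ∈ A`: O2. So `m_j = -1` for all `j ≠ i` and (I.3) `∑ a ≤ 2` on `A`. (I.4) `J` = the set of
the `j` with `2 e_j ∉ A`; by (I.1) `e_l + e_j ∈ A` for `l ∉ J`, `j ≠ l`. (I.5) `e_j + e_l ∉ A` for
`j ≠ l` in `J`: otherwise it is a vertex (`w = e_j + e_l` as functional: `a j + a l ≤ 2` with equality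
only at `e_j + e_l` as `∑ a ≤ 2` and `2 e_j, 2 e_l ∉ A`) and `StFour` for `(j, l, i)` applies. -/
def StCaI : Prop := ∀ (n : ℕ) (A : Finset (Fin n → ℤ)), Std0 A → NoObs A →
  (∃ i, ev i 2 ∈ A) → ∃ J : Finset (Fin n), ∀ a, a ∈ A ↔
    (∀ i, 0 ≤ a i) ∧ ∑ i, a i ≤ 2 ∧ ∑ i ∈ J, a i ≤ 1

/-- **CaII** (uses `StNbr`, `StFour`). PROOF. Case II of Step 2 of the note. `StNbr` with `ℓ = 1` at
every `i` (`2 e_i ∉ A`) gives `m_i` (a function of `i` and `j`, `m i j`) with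
`(1 + m i j) e_i + e_j ∈ A` and (*) `a i ≤ 1 + ∑_(j ≠ i) m i j * a j`. (II.1) `m i j ≤ 0`: if
`m i j ≥ 1` then `2 e_i + e_j ∈ A` and `e_i + e_j ∈ A` (`SegClosed` with `e_j`); (*) at `j` for
`a = 2 e_i + e_j`: `m j i ≥ 0`; `m j i = 0` would give a chart at `e_j` with `b' i = e_i` and
`e_j + 2 e_i ∈ A`, excluded; `m j i ≥ 1` gives `e_i + (1 + m j i) e_j ∈ A`, so `e_i + 2 e_j ∈ A`: O3.
`m i j ≥ -1` since `A ≥ 0`. (II.2) `m i j = -1` iff `e_i + e_j ∉ A` ((*) for `a = e_i + e_j`), a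
symmetric relation `i ~ j`. (II.3) `a i + ∑_(j ~ i) a j ≤ 1` on `A`. (II.4) `~` is transitive: if
`j ~ i ~ l`, `j ≠ l`, not `j ~ l` then `e_j + e_l ∈ A` contradicts (II.3). (II.5) no three pairwise
non-equivalent `i, j, l`: `e_i + e_j + e_l ∉ A` by O4; `e_i + e_j` is a vertex (functional
`a i + a j - (the sum of the other coordinates)`), `StFour`. (II.6) `C` = class of some element
(`C = ∅` if `n = 0`); the complement is a class or empty. -/
def StCaII : Prop := ∀ (n : ℕ) (A : Finset (Fin n → ℤ)), Std0 A → NoObs A →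
  (∀ u b, IsChart A u b → ∀ i, u + (2 : ℤ) • b i ∉ A) → ∃ C : Finset (Fin n), ∀ a, a ∈ A ↔
    (∀ i, 0 ≤ a i) ∧ ∑ i ∈ C, a i ≤ 1 ∧ ∑ i ∈ Cᶜ, a i ≤ 1

/-- **Tr.** Transport of a chart to the standard chart. PROOF. `A'` is the image of `A` under the
affine isomorphism `f a = b.repr (a - u)` (as a function); `f⁻¹ x = u + ∑ x i • b i`. A chart
`(u', b')` of `A'` gives the chart `(f⁻¹ u', b'.map (b.equivFun.symm))` of `A` (and `Obs` corresponds);
a vertex of `A'` with functional `w` gives a vertex of `A` (functional `w ∘ b.repr`), and a chart of `A`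
there gives a chart of `A'`. -/
def StTr : Prop := ∀ (n : ℕ) (A : Finset (Fin n → ℤ)) (u : Fin n → ℤ)
  (b : Module.Basis (Fin n) ℤ (Fin n → ℤ)), IsChart A u b → SegClosed A → SmoothSet A →
  NoObs A → ∃ A' : Finset (Fin n → ℤ), Std0 A' ∧ NoObs A' ∧
    (∀ a : Fin n → ℤ, a ∈ A ↔ (fun i => b.repr (a - u) i) ∈ A') ∧
    ((∀ u' b', IsChart A u' b' → ∀ i, u' + (2 : ℤ) • b' i ∉ A) →
      ∀ u' b', IsChart A' u' b' → ∀ i, u' + (2 : ℤ) • b' i ∉ A')

/-- **Ver.** There is a vertex. PROOF. A point `u` of `A` of maximal `∑ (u i) ^ 2`, with `w = u`: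
`2 a.u = |a|² + |u|² - |a - u|² < 2 |u|²` for `a ≠ u`. -/
def StVer : Prop := ∀ (n : ℕ) (A : Finset (Fin n → ℤ)), A.Nonempty → ∃ u, IsVertex A u

/-- **Cmb** (uses `StCaI`, `StCaII`, `StTr`, `StVer`). The combinatorial classification. PROOF. If
some chart `(u, b)` has `u + 2 b i ∈ A` transport it and use `StCaI`; otherwise take a vertex, its
chart, transport and use `StCaII`. -/
def StCmb : Prop := ∀ (n : ℕ) (A : Finset (Fin n → ℤ)), A.Nonempty → SegClosed A → SmoothSet A →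
  NoObs A → StdSet A

/-- **Main** (uses `StVar`, `StObV`, `StObE`, `StCmb`, `StSufD`, `StSufQ`). The theorem. -/
def StMain : Prop := ∀ (n k : ℕ) (A : Finset (Fin n → ℤ)), A.Nonempty → SegClosed A →
  SmoothSet A → IsProjectiveVariety (toricCone A k) ∧
    ((∀ p, xRank (toricCone A k) p = xBorderRank (toricCone A k) p) ↔ StdSet A)

end Pool.Agent.Lib.MP_e005b4_ag
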