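import Pool.Agent.Lib.MP_e005b4_ag.Tor.Spec
import Pool.Agent.Lib.MP_e005b4_ag.Sec.Segre

/-!
# Toric varieties with rank = border rank: products of two simplices have the property
-/

set_option autoImplicit false

namespace Pool.Agent.Lib.MP_e005b4_ag

open MvPolynomial Matrix
open scoped LinearAlgebra.Projectivization

/-- The indicator coordinates. -/
private def SufD_c {n : ℕ} (C : Finset (Fin n)) (s : Fin (n + 1)) (i : Fin n) : ℤ :=
  if s = i.succ ∧ i ∈ C then 1 else 0

private theorem SufD_c_nonneg {n : ℕ} (C : Finset (Fin n)) (s : Fin (n + 1)) (i : Fin n) :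
    0 ≤ SufD_c C s i := by
  unfold SufD_c
  split_ifs <;> norm_num

private theorem SufD_c_sum {n : ℕ} (C : Finset (Fin n)) (s : Fin (n + 1)) (E : Finset (Fin n)) :
    ∑ i ∈ E, SufD_c C s i ≤ 1 := by
  refine Fin.cases ?_ (fun i0 => ?_) s
  · rw [Finset.sum_eq_zero]
    · norm_num
    · intro i _
      unfold SufD_c
      rw [if_neg]
      rintro ⟨h, _⟩
      exact Fin.succ_ne_zero i h.symm
  · by_cases h : i0 ∈ E
    · rw [Finset.sum_eq_single i0]
      · unfold SufD_c
        split_ifs <;> norm_num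
      · intro i _ hi
        unfold SufD_c
        rw [if_neg]
        rintro ⟨h1, _⟩
        exact hi (Fin.succ_injective _ h1).symm
      · intro h1
        exact absurd h h1
    · rw [Finset.sum_eq_zero]
      · norm_num
      · intro i hi
        unfold SufD_c
        rw [if_neg]
        rintro ⟨h1, _⟩
        rw [Fin.succ_injective _ h1] at h
        exact h hi

private theorem SufD_c_zero {n : ℕ} (C : Finset (Fin n)) (s : Fin (n + 1)) (E : Finset (Fin n))
    (hE : ∀ i ∈ E, i ∉ C) : ∑ i ∈ E, SufD_c C s i = 0 := by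
  refine Finset.sum_eq_zero fun i hi => ?_
  unfold SufD_c
  rw [if_neg]
  rintro ⟨_, h⟩
  exact hE i hi h

/-- One half of the decomposition of a point. -/
private theorem SufD_half {n : ℕ} (C : Finset (Fin n)) (κ : Fin n → ℤ) (h0 : ∀ i, 0 ≤ κ i)
    (h1 : ∑ i ∈ C, κ i ≤ 1) :
    ∃ s : Fin (n + 1), (∀ i, SufD_c C s i = if i ∈ C then κ i else 0) ∧
      ∀ f : Fin (n + 1) → ℂ,
        f 0 ^ (1 - ∑ i ∈ C, κ i).toNat * ∏ i ∈ C, f i.succ ^ (κ i).toNat = f s := by
  by_cases hz : ∀ i ∈ C, κ i = 0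
  · refine ⟨0, fun i => ?_, fun f => ?_⟩
    · unfold SufD_c
      rw [if_neg]
      · split_ifs with h
        · exact (hz i h).symm
        · rfl
      · rintro ⟨h, _⟩
        exact Fin.succ_ne_zero i h.symm
    · rw [Finset.sum_eq_zero hz, Finset.prod_eq_one]
      · simp
      · intro i hi
        rw [hz i hi]
        simp
  · push Not at hz
    obtain ⟨i0, hi0, hne⟩ := hz
    have h2 : ∑ i ∈ C, κ i = κ i0 + ∑ i ∈ C.erase i0, κ i :=
      (Finset.add_sum_erase C κ hi0).symm
    have h3 : 0 ≤ ∑ i ∈ C.erase i0, κ i := Finset.sum_nonneg fun i _ => h0 i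
    have h4 := h0 i0
    have h5 : κ i0 = 1 := by omega
    have h6 : ∑ i ∈ C.erase i0, κ i = 0 := by omega
    have h7 : ∀ i ∈ C.erase i0, κ i = 0 :=
      (Finset.sum_eq_zero_iff_of_nonneg fun i _ => h0 i).1 h6
    refine ⟨i0.succ, fun i => ?_, fun f => ?_⟩
    · unfold SufD_c
      by_cases h8 : i = i0
      · rw [h8, if_pos ⟨rfl, hi0⟩, if_pos hi0, h5]
      · rw [if_neg]
        · split_ifs with h
          · exact (h7 i (Finset.mem_erase.2 ⟨h8, h⟩)).symm
          · rfl
        · rintro ⟨h, _⟩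
          exact h8 (Fin.succ_injective _ h).symm
    · rw [h2, h6, h5, ← Finset.mul_prod_erase C _ hi0, h5, Finset.prod_eq_one]
      · simp
      · intro i hi
        rw [h7 i hi]
        simp

theorem tSufD (hBin : StBin) (hElD : StElD) (hRnk : StRnk) : StSufD := by
  classical
  intro n k A u b C hA r
  have hrepr : ∀ κ : Fin n → ℤ, ∀ i, b.repr (u + b.equivFun.symm κ - u) i = κ i := by
    intro κ i
    rw [add_sub_cancel_left]
    exact congrFun (b.equivFun.apply_symm_apply κ) i
  have hmem : ∀ s t : Fin (n + 1),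
      u + b.equivFun.symm (SufD_c C s + SufD_c Cᶜ t) ∈ A := by
    intro s t
    rw [hA]
    refine ⟨fun i => ?_, ?_, ?_⟩
    · rw [hrepr]
      exact add_nonneg (SufD_c_nonneg C s i) (SufD_c_nonneg Cᶜ t i)
    · rw [Finset.sum_congr rfl fun i _ => hrepr (SufD_c C s + SufD_c Cᶜ t) i]
      simp only [Pi.add_apply]
      rw [Finset.sum_add_distrib, SufD_c_zero Cᶜ t C (fun i hi h => (Finset.mem_compl.1 h) hi),
        add_zero]
      exact SufD_c_sum C s C
    · rw [Finset.sum_congr rfl fun i _ => hrepr (SufD_c C s + SufD_c Cᶜ t) i]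
      simp only [Pi.add_apply]
      rw [Finset.sum_add_distrib, SufD_c_zero C s Cᶜ (fun i hi h => (Finset.mem_compl.1 hi) h),
        zero_add]
      exact SufD_c_sum Cᶜ t Cᶜ
  have hu : u ∈ A := by
    have h := hmem 0 0
    have h1 : (SufD_c C 0 + SufD_c Cᶜ 0 : Fin n → ℤ) = 0 := by
      funext i
      have h2 : ¬ ((0 : Fin (n + 1)) = i.succ) := fun h => Fin.succ_ne_zero i h.symm
      simp [SufD_c, h2]
    rw [h1, map_zero, add_zero] at h
    exact h
  let idx : Fin (n + 1) → Fin (n + 1) → A ⊕ Fin k := fun s t => Sum.inl ⟨_, hmem s t⟩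
  refine hRnk (A ⊕ Fin k) (toricCone A k) (n + 1) (n + 1) idx ?_ ?_ r
  · intro ξ hξ s s' t t'
    apply hBin n k A ξ hξ
    show u + b.equivFun.symm (SufD_c C s + SufD_c Cᶜ t) +
        (u + b.equivFun.symm (SufD_c C s' + SufD_c Cᶜ t')) =
      u + b.equivFun.symm (SufD_c C s + SufD_c Cᶜ t') +
        (u + b.equivFun.symm (SufD_c C s' + SufD_c Cᶜ t))
    simp only [map_add]
    abel
  · intro r v hr hrk
    obtain ⟨α, β, -, hsum⟩ := segre_decomp (0 : Matrix (Fin (n + 1)) (Fin (n + 1)) ℂ) r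
      (Matrix.of fun s t => v (idx s t)) hrk (by rw [Matrix.mul_zero, Matrix.trace_zero])
    have hval : ∀ s t, v (idx s t) = ∑ l, α l s * β l t := by
      intro s t
      have h := congrFun (congrFun hsum s) t
      rw [Matrix.of_apply, Matrix.sum_apply] at h
      rw [h]
      exact Finset.sum_congr rfl fun l _ => Matrix.vecMulVec_apply _ _ _ _
    have hz := fun l : Fin r => hElD n k A u b C hu (fun a ha => (hA a).1 ha) (α l 0) (β l 0)
      (fun i => if i ∈ C then α l i.succ else β l i.succ)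
      (fun j => if l = ⟨0, hr⟩ then v (Sum.inr j) else 0)
    refine ⟨_, hz, ?_⟩
    funext x
    rw [Finset.sum_apply]
    rcases x with a | j
    · obtain ⟨h0, h1, h2⟩ := (hA a.1).1 a.2
      obtain ⟨s, hs1, hs2⟩ := SufD_half C (fun i => b.repr (a.1 - u) i) h0 h1
      obtain ⟨t, ht1, ht2⟩ := SufD_half Cᶜ (fun i => b.repr (a.1 - u) i) h0 h2
      have hx : Sum.inl a = idx s t := by
        show (Sum.inl a : A ⊕ Fin k) = Sum.inl _
        congr 1
        apply Subtype.ext
        show a.1 = u + b.equivFun.symm (SufD_c C s + SufD_c Cᶜ t)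
        have h3 : (SufD_c C s + SufD_c Cᶜ t : Fin n → ℤ) = b.equivFun (a.1 - u) := by
          funext i
          rw [Pi.add_apply, hs1, ht1]
          show _ = b.repr (a.1 - u) i
          by_cases hi : i ∈ C
          · rw [if_pos hi, if_neg (fun h => (Finset.mem_compl.1 h) hi), add_zero]
          · rw [if_neg hi, if_pos (Finset.mem_compl.2 hi), zero_add]
        rw [h3, LinearEquiv.symm_apply_apply]
        abel
      rw [hx, hval]
      refine Finset.sum_congr rfl fun l _ => ?_
      rw [← hx]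
      show α l s * β l t = _ * _ * ∏ i, (if i ∈ C then α l i.succ else β l i.succ) ^ _
      rw [← hs2 (α l), ← ht2 (β l), ← Finset.prod_mul_prod_compl C]
      have h4 : ∏ i ∈ C, (if i ∈ C then α l i.succ else β l i.succ) ^ (b.repr (a.1 - u) i).toNat =
          ∏ i ∈ C, α l i.succ ^ (b.repr (a.1 - u) i).toNat :=
        Finset.prod_congr rfl fun i hi => by rw [if_pos hi]
      have h5 : ∏ i ∈ Cᶜ, (if i ∈ C then α l i.succ else β l i.succ) ^ (b.repr (a.1 - u) i).toNat =
          ∏ i ∈ Cᶜ, β l i.succ ^ (b.repr (a.1 - u) i).toNat :=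
        Finset.prod_congr rfl fun i hi => by rw [if_neg (Finset.mem_compl.1 hi)]
      rw [h4, h5]
      ring
    · show v (Sum.inr j) = ∑ l : Fin r, if l = ⟨0, hr⟩ then v (Sum.inr j) else 0
      rw [Finset.sum_ite_eq' Finset.univ, if_pos (Finset.mem_univ _)]

end Pool.Agent.Lib.MP_e005b4_ag
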