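import Pool.Agent.Lib.MP_e005b4_ag.Tor.Spec

/-!
Proof of `StSufQ`: truncated double simplices have the property.
-/

set_option autoImplicit false

namespace Pool.Agent.Lib.MP_e005b4_ag

open MvPolynomial
open scoped LinearAlgebra.Projectivization

/-- Coordinates of `e_s`. -/
def SufQ_E {n : ℕ} (s : Fin (n + 1)) : Fin n → ℤ :=
  Fin.cases (0 : Fin n → ℤ) (fun i => Pi.single i (1 : ℤ)) s

/-- The vectors `e_0 = 0`, `e_(i + 1) = b i`. -/
noncomputable def SufQ_e {n : ℕ} (b : Module.Basis (Fin n) ℤ (Fin n → ℤ)) (s : Fin (n + 1)) :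
    Fin n → ℤ := Fin.cases (0 : Fin n → ℤ) (fun i => b i) s

theorem SufQ_repr {n : ℕ} (b : Module.Basis (Fin n) ℤ (Fin n → ℤ)) (s : Fin (n + 1)) (i : Fin n) :
    b.repr (SufQ_e b s) i = SufQ_E s i := by
  refine Fin.cases ?_ (fun j => ?_) s
  · simp [SufQ_e, SufQ_E]
  · simp only [SufQ_e, SufQ_E, Fin.cases_succ, Module.Basis.repr_self, Finsupp.single_apply,
      Pi.single_apply]
    by_cases h : i = j
    · simp [h]
    · simp [h, Ne.symm h]

theorem SufQ_E_nonneg {n : ℕ} (s : Fin (n + 1)) (i : Fin n) : 0 ≤ SufQ_E s i := by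
  refine Fin.cases ?_ (fun j => ?_) s
  · simp [SufQ_E]
  · simp only [SufQ_E, Fin.cases_succ, Pi.single_apply]
    split_ifs <;> norm_num

theorem SufQ_E_sum {n : ℕ} (s : Fin (n + 1)) : ∑ i, SufQ_E s i ≤ 1 := by
  refine Fin.cases ?_ (fun j => ?_) s
  · simp [SufQ_E]
  · simp [SufQ_E]

theorem SufQ_E_sum_mem {n : ℕ} (J : Finset (Fin n)) (s : Fin (n + 1))
    (hs : ∀ i, s = Fin.succ i → i ∉ J) : ∑ i ∈ J, SufQ_E s i = 0 := by
  revert hs
  refine Fin.cases ?_ (fun j => ?_) s
  · intro _
    simp [SufQ_E]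
  · intro hs
    have hj := hs j rfl
    apply Finset.sum_eq_zero
    intro i hi
    simp only [SufQ_E, Fin.cases_succ, Pi.single_apply]
    rw [if_neg]
    rintro rfl
    exact hj hi

theorem SufQ_E_sum_not {n : ℕ} (J : Finset (Fin n)) (s : Fin (n + 1))
    (hs : ¬ ∀ i, s = Fin.succ i → i ∉ J) : ∑ i ∈ J, SufQ_E s i = 1 := by
  push Not at hs
  obtain ⟨j, rfl, hj⟩ := hs
  simp only [SufQ_E, Fin.cases_succ]
  rw [Finset.sum_pi_single']
  simp [hj]

theorem SufQ_E_sum_le {n : ℕ} (J : Finset (Fin n)) (s : Fin (n + 1)) :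
    ∑ i ∈ J, SufQ_E s i ≤ 1 :=
  le_trans (Finset.sum_le_sum_of_subset_of_nonneg (Finset.subset_univ J)
    fun i _ _ => SufQ_E_nonneg s i) (SufQ_E_sum s)

theorem SufQ_one {n : ℕ} (f : Fin n → ℤ) (h0 : ∀ i, 0 ≤ f i) (h1 : ∑ i, f i ≤ 1) :
    ∃ s, f = SufQ_E s := by
  by_cases hz : ∀ i, f i = 0
  · refine ⟨0, ?_⟩
    funext i
    simp [SufQ_E, hz i]
  · push Not at hz
    obtain ⟨i, hi⟩ := hz
    refine ⟨Fin.succ i, ?_⟩
    have hi1 : 1 ≤ f i := by
      have := h0 i
      omega
    have h2 := Finset.add_sum_erase Finset.univ f (Finset.mem_univ i)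
    have h3 : 0 ≤ ∑ x ∈ Finset.univ.erase i, f x := Finset.sum_nonneg fun j _ => h0 j
    funext j
    simp only [SufQ_E, Fin.cases_succ, Pi.single_apply]
    by_cases hj : j = i
    · rw [if_pos hj, hj]
      linarith
    · rw [if_neg hj]
      have h4 : f j ≤ ∑ x ∈ Finset.univ.erase i, f x :=
        Finset.single_le_sum (fun l _ => h0 l) (Finset.mem_erase.2 ⟨hj, Finset.mem_univ j⟩)
      have := h0 j
      omega

theorem SufQ_two {n : ℕ} (f : Fin n → ℤ) (h0 : ∀ i, 0 ≤ f i) (h1 : ∑ i, f i ≤ 2) :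
    ∃ s t, f = SufQ_E s + SufQ_E t := by
  by_cases h : ∑ i, f i ≤ 1
  · obtain ⟨s, hs⟩ := SufQ_one f h0 h
    refine ⟨s, 0, ?_⟩
    rw [hs]
    funext i
    simp [SufQ_E]
  · have hex : ∃ i, f i ≠ 0 := by
      by_contra hno
      push Not at hno
      apply h
      rw [Finset.sum_eq_zero fun i _ => hno i]
      norm_num
    obtain ⟨i, hi⟩ := hex
    have hi1 : 1 ≤ f i := by
      have := h0 i
      omega
    obtain ⟨s, hs⟩ := SufQ_one (fun j => f j - (Pi.single i (1 : ℤ) : Fin n → ℤ) j) (fun j => by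
      simp only [Pi.single_apply]
      split_ifs with hj
      · rw [hj]; omega
      · have := h0 j; omega) (by
      rw [Finset.sum_sub_distrib]
      simp
      omega)
    refine ⟨s, Fin.succ i, ?_⟩
    rw [← hs]
    funext j
    simp [SufQ_E]

theorem SufQ_eval_one {n : ℕ} (w : ℂ) (x : Fin n → ℂ) (s : Fin (n + 1)) :
    w ^ (1 - ∑ i, SufQ_E s i).toNat * ∏ i, x i ^ (SufQ_E s i).toNat =
      (Fin.cons w x : Fin (n + 1) → ℂ) s := by
  refine Fin.cases ?_ (fun j => ?_) s
  · simp [SufQ_E]
  · have h1 : ∏ i, x i ^ (SufQ_E (Fin.succ j) i).toNat = x j := by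
      rw [Finset.prod_eq_single j]
      · simp [SufQ_E]
      · intro i _ hij
        simp [SufQ_E, hij]
      · intro hj
        exact absurd (Finset.mem_univ j) hj
    rw [h1]
    simp [SufQ_E]

theorem SufQ_eval {n : ℕ} (w : ℂ) (x : Fin n → ℂ) (s t : Fin (n + 1)) :
    w ^ (2 - ∑ i, (SufQ_E s + SufQ_E t) i).toNat * ∏ i, x i ^ ((SufQ_E s + SufQ_E t) i).toNat =
      (Fin.cons w x : Fin (n + 1) → ℂ) s * (Fin.cons w x : Fin (n + 1) → ℂ) t := by
  rw [← SufQ_eval_one w x s, ← SufQ_eval_one w x t]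
  have h1 : (2 - ∑ i, (SufQ_E s + SufQ_E t) i).toNat =
      (1 - ∑ i, SufQ_E s i).toNat + (1 - ∑ i, SufQ_E t i).toNat := by
    have hs := SufQ_E_sum s
    have ht := SufQ_E_sum t
    simp only [Pi.add_apply, Finset.sum_add_distrib]
    omega
  have h2 : ∀ i, ((SufQ_E s + SufQ_E t) i).toNat = (SufQ_E s i).toNat + (SufQ_E t i).toNat := by
    intro i
    have hs := SufQ_E_nonneg s i
    have ht := SufQ_E_nonneg t i
    simp only [Pi.add_apply]
    omega
  simp only [h1, h2, pow_add, Finset.prod_mul_distrib]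
  ring

theorem tSufQ (hBin : StBin) (hElQ : StElQ) (hRkQ : StRkQ) (hRnk : StRnk) : StSufQ := by
  classical
  intro n k A u b J hA
  -- coordinates
  have hrep : ∀ s t : Fin (n + 1), ∀ i, b.repr (u + SufQ_e b s + SufQ_e b t - u) i =
      (SufQ_E s + SufQ_E t) i := by
    intro s t i
    have h1 : u + SufQ_e b s + SufQ_e b t - u = SufQ_e b s + SufQ_e b t := by abel
    rw [h1, map_add, Finsupp.add_apply, SufQ_repr, SufQ_repr, Pi.add_apply]
  let T : Set (Fin (n + 1)) := {t | ∀ i, t = Fin.succ i → i ∉ J}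
  have hT0 : (0 : Fin (n + 1)) ∈ T := by
    intro i hi
    exact absurd hi.symm (Fin.succ_ne_zero i)
  have hmem : ∀ s t : Fin (n + 1), t ∈ T → u + SufQ_e b s + SufQ_e b t ∈ A := by
    intro s t ht
    rw [hA]
    refine ⟨fun i => ?_, ?_, ?_⟩
    · rw [hrep, Pi.add_apply]
      exact add_nonneg (SufQ_E_nonneg s i) (SufQ_E_nonneg t i)
    · simp only [hrep, Pi.add_apply, Finset.sum_add_distrib]
      have h1 := SufQ_E_sum s
      have h2 := SufQ_E_sum t
      omega
    · simp only [hrep, Pi.add_apply, Finset.sum_add_distrib]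
      have h1 := SufQ_E_sum_le J s
      have h2 := SufQ_E_sum_mem J t ht
      omega
  have hcov : ∀ a ∈ A, ∃ s t, t ∈ T ∧ a = u + SufQ_e b s + SufQ_e b t := by
    intro a ha
    obtain ⟨h0, h2, hJ⟩ := (hA a).1 ha
    obtain ⟨s, t, hst⟩ := SufQ_two (fun i => b.repr (a - u) i) h0 h2
    have hst' : ∀ i, b.repr (a - u) i = (SufQ_E s + SufQ_E t) i := fun i => congrFun hst i
    have hone : s ∈ T ∨ t ∈ T := by
      by_contra hno
      push Not at hno
      have h3 := SufQ_E_sum_not J s hno.1
      have h4 := SufQ_E_sum_not J t hno.2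
      simp only [hst', Pi.add_apply, Finset.sum_add_distrib] at hJ
      omega
    have hgen : ∀ s t : Fin (n + 1), (∀ i, b.repr (a - u) i = (SufQ_E s + SufQ_E t) i) →
        a = u + SufQ_e b s + SufQ_e b t := by
      intro s t h
      have h3 : b.repr (a - u) = b.repr (u + SufQ_e b s + SufQ_e b t - u) := by
        ext i
        rw [h, hrep]
      have h4 := b.repr.injective h3
      have h5 := congrArg (fun f => f + u) h4
      simpa using h5
    rcases hone with h | h
    · refine ⟨t, s, h, hgen t s ?_⟩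
      intro i
      rw [hst', add_comm]
    · exact ⟨s, t, h, hgen s t hst'⟩
  let τ : Fin (n + 1) → Fin (n + 1) := fun t => if t ∈ T then t else 0
  have hτ : ∀ t, τ t ∈ T := by
    intro t
    simp only [τ]
    split_ifs with h
    · exact h
    · exact hT0
  have hτT : ∀ t, t ∈ T → τ t = t := fun t ht => if_pos ht
  have hu : u ∈ A := by
    have h := hmem 0 0 hT0
    simpa [SufQ_e] using h
  apply hRnk (A ⊕ Fin k) (toricCone A k) (n + 1) (n + 1)
    (fun s t => Sum.inl ⟨u + SufQ_e b s + SufQ_e b (τ t), hmem s (τ t) (hτ t)⟩)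
  · intro ξ hξ s s' t t'
    apply hBin n k A ξ hξ
    simp only
    abel
  · intro r v hr hrank
    -- the matrix with zero columns outside `T`
    obtain ⟨c, w, v', hw0, hwT, hwN⟩ := hRkQ (n + 1) r
      (Matrix.of (fun s t => v (Sum.inl ⟨u + SufQ_e b s + SufQ_e b (τ t), hmem s (τ t) (hτ t)⟩)) *
        Matrix.diagonal (fun t => if t ∈ T then (1 : ℂ) else 0)) T
      (by
        intro s t ht
        rw [Matrix.mul_diagonal, if_neg ht, mul_zero])
      (by
        intro s hs t ht
        rw [Matrix.mul_diagonal, Matrix.mul_diagonal, if_pos ht, if_pos hs, mul_one, mul_one]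
        simp only [Matrix.of_apply]
        congr 2
        rw [Subtype.mk.injEq, hτT t ht, hτT s hs]
        abel)
      ((Matrix.rank_mul_le_left _ _).trans hrank)
    have hM : ∀ s t (ht : t ∈ T), (Matrix.of (fun s t => v (Sum.inl ⟨u + SufQ_e b s +
        SufQ_e b (τ t), hmem s (τ t) (hτ t)⟩)) *
        Matrix.diagonal (fun t => if t ∈ T then (1 : ℂ) else 0)) s t =
        v (Sum.inl ⟨u + SufQ_e b s + SufQ_e b t, hmem s t ht⟩) := by
      intro s t ht
      rw [Matrix.mul_diagonal, if_pos ht, mul_one]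
      simp only [Matrix.of_apply]
      congr 2
      rw [Subtype.mk.injEq, hτT t ht]
    refine ⟨fun l => Sum.elim (fun a : A => c l ^ (1 - ∑ i ∈ J, b.repr (a.1 - u) i).toNat *
      w l 0 ^ (2 - ∑ i, b.repr (a.1 - u) i).toNat *
      ∏ i, (if i ∈ J then v' l (Fin.succ i) else w l (Fin.succ i)) ^
        (b.repr (a.1 - u) i).toNat)
      (fun j => if (l : ℕ) = 0 then v (Sum.inr j) else 0), fun l => ?_, ?_⟩
    · exact hElQ n k A u b J hu (fun a ha => (hA a).1 ha) (c l) (w l 0) _ _
    · funext p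
      rw [Finset.sum_apply]
      rcases p with a | j
      · obtain ⟨s, t, ht, hst⟩ := hcov a.1 a.2
        have hat : a = ⟨u + SufQ_e b s + SufQ_e b t, hmem s t ht⟩ := Subtype.ext hst
        have hκ : ∀ i, b.repr (a.1 - u) i = (SufQ_E s + SufQ_E t) i := by
          intro i
          rw [hst]
          exact hrep s t i
        have h1 := hM s t ht
        rw [← hat] at h1
        rw [← h1]
        simp only [Sum.elim_inl, hκ]
        have hcons : ∀ l : Fin r, ∀ q : Fin (n + 1), q ∈ T →
            (Fin.cons (w l 0) (fun i => if i ∈ J then v' l (Fin.succ i) else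
              w l (Fin.succ i)) : Fin (n + 1) → ℂ) q = w l q := by
          intro l q
          refine Fin.cases ?_ (fun j => ?_) q
          · intro _
            simp
          · intro hj
            have := hj j rfl
            simp [this]
        have hcons' : ∀ l : Fin r, ∀ q : Fin (n + 1), q ∉ T →
            (Fin.cons (w l 0) (fun i => if i ∈ J then v' l (Fin.succ i) else
              w l (Fin.succ i)) : Fin (n + 1) → ℂ) q = v' l q := by
          intro l q
          refine Fin.cases ?_ (fun j => ?_) q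
          · intro h
            exact absurd hT0 h
          · intro hj
            have h2 : j ∈ J := by
              by_contra hjJ
              apply hj
              intro i hi
              rw [← Fin.succ_injective _ hi]
              exact hjJ
            simp [h2]
        have hsumt := SufQ_E_sum_mem J t ht
        by_cases hs : s ∈ T
        · rw [hwT s hs t]
          refine Finset.sum_congr rfl fun l _ => ?_
          have hsums := SufQ_E_sum_mem J s hs
          have h3 : (1 - ∑ i ∈ J, (SufQ_E s + SufQ_E t) i).toNat = 1 := by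
            simp only [Pi.add_apply, Finset.sum_add_distrib, hsums, hsumt]
            norm_num
          rw [h3, pow_one]
          have h4 := SufQ_eval (w l 0) (fun i => if i ∈ J then v' l (Fin.succ i) else
              w l (Fin.succ i)) s t
          rw [hcons l s hs, hcons l t ht] at h4
          rw [mul_assoc (c l) (w l s) (w l t), ← h4]
          ring
        · rw [hwN s hs t]
          refine Finset.sum_congr rfl fun l _ => ?_
          have hsums := SufQ_E_sum_not J s hs
          have h3 : (1 - ∑ i ∈ J, (SufQ_E s + SufQ_E t) i).toNat = 0 := by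
            simp only [Pi.add_apply, Finset.sum_add_distrib, hsums, hsumt]
            norm_num
          rw [h3, pow_zero, one_mul, SufQ_eval, hcons' l s hs, hcons l t ht]
      · simp only [Sum.elim_inr]
        rw [Finset.sum_eq_single (⟨0, hr⟩ : Fin r)]
        · simp
        · intro l _ hl
          rw [if_neg]
          intro h0
          exact hl (Fin.ext h0)
        · intro h
          exact absurd (Finset.mem_univ _) h

end Pool.Agent.Lib.MP_e005b4_ag
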