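import Pool.Agent.Lib.MP_e005b4_ag.Tor.Spec

/-!
# Transport of a chart to the standard chart
-/

set_option autoImplicit false

namespace Pool.Agent.Lib.MP_e005b4_ag

variable {n : ℕ}

private theorem Tr_add (L : (Fin n → ℤ) ≃ₗ[ℤ] (Fin n → ℤ)) (u x y : Fin n → ℤ) :
    u + L (x + y) = u + L x + L y := by
  rw [map_add, add_assoc]

private theorem Tr_smul (L : (Fin n → ℤ) ≃ₗ[ℤ] (Fin n → ℤ)) (y : Fin n → ℤ) (t : ℤ) :
    L (t • y) = t • L y := map_smul L t y

private theorem Tr_chart_fwd (L : (Fin n → ℤ) ≃ₗ[ℤ] (Fin n → ℤ)) (u : Fin n → ℤ)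
    (A A' : Finset (Fin n → ℤ)) (hA : ∀ x, x ∈ A' ↔ u + L x ∈ A) (u' : Fin n → ℤ)
    (b' : Module.Basis (Fin n) ℤ (Fin n → ℤ)) (h : IsChart A' u' b') :
    IsChart A (u + L u') (b'.map L) := by
  obtain ⟨h1, h2, h3⟩ := h
  refine ⟨(hA _).1 h1, fun i => ?_, fun a ha i => ?_⟩
  · rw [Module.Basis.map_apply, ← Tr_add]
    exact (hA _).1 (h2 i)
  · have e1 : u + L (L.symm (a - u)) = a := by
      rw [LinearEquiv.apply_symm_apply]
      abel
    have h4 := h3 (L.symm (a - u)) ((hA _).2 (by rw [e1]; exact ha)) i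
    rw [Module.Basis.map_repr]
    change 0 ≤ b'.repr (L.symm (a - (u + L u'))) i
    have e2 : L.symm (a - (u + L u')) = L.symm (a - u) - u' := by
      rw [← sub_sub, map_sub, LinearEquiv.symm_apply_apply]
    rw [e2]
    exact h4

private theorem Tr_chart_bwd (L : (Fin n → ℤ) ≃ₗ[ℤ] (Fin n → ℤ)) (u : Fin n → ℤ)
    (A A' : Finset (Fin n → ℤ)) (hA : ∀ x, x ∈ A' ↔ u + L x ∈ A) (x : Fin n → ℤ)
    (b' : Module.Basis (Fin n) ℤ (Fin n → ℤ)) (h : IsChart A (u + L x) b') :
    IsChart A' x (b'.map L.symm) := by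
  obtain ⟨h1, h2, h3⟩ := h
  refine ⟨(hA _).2 h1, fun i => ?_, fun a ha i => ?_⟩
  · rw [Module.Basis.map_apply, hA, Tr_add, LinearEquiv.apply_symm_apply]
    exact h2 i
  · have h4 := h3 (u + L a) ((hA _).1 ha) i
    rw [Module.Basis.map_repr]
    change 0 ≤ b'.repr (L (a - x)) i
    have e2 : u + L a - (u + L x) = L (a - x) := by
      rw [map_sub]
      abel
    rw [← e2]
    exact h4

private theorem Tr_obs (L : (Fin n → ℤ) ≃ₗ[ℤ] (Fin n → ℤ)) (u : Fin n → ℤ)
    (A A' : Finset (Fin n → ℤ)) (hA : ∀ x, x ∈ A' ↔ u + L x ∈ A) (u' : Fin n → ℤ)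
    (b' : Module.Basis (Fin n) ℤ (Fin n → ℤ)) (h : Obs A' u' b') :
    Obs A (u + L u') (b'.map L) := by
  unfold Obs at h ⊢
  simp only [hA, Tr_add, Tr_smul] at h
  simp only [Module.Basis.map_apply]
  exact h

theorem tTr : StTr := by
  intro n A u b hch hseg hsm hno
  classical
  obtain ⟨L, hL⟩ : ∃ L : (Fin n → ℤ) ≃ₗ[ℤ] (Fin n → ℤ), L = b.equivFun.symm := ⟨_, rfl⟩
  have hLs : ∀ a i, L.symm a i = b.repr a i := by
    intro a i
    rw [hL, LinearEquiv.symm_symm, Module.Basis.equivFun_apply]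
  have hLb : ∀ i, L (Pi.single i 1) = b i := by
    intro i
    rw [hL, Module.Basis.equivFun_symm_apply]
    simp [Pi.single_apply]
  let A' : Finset (Fin n → ℤ) := A.image (fun a => L.symm (a - u))
  have hA : ∀ x, x ∈ A' ↔ u + L x ∈ A := by
    intro x
    simp only [A', Finset.mem_image]
    constructor
    · rintro ⟨a, ha, rfl⟩
      rw [LinearEquiv.apply_symm_apply]
      have : u + (a - u) = a := by abel
      rw [this]
      exact ha
    · intro hx
      refine ⟨_, hx, ?_⟩
      rw [add_sub_cancel_left, LinearEquiv.symm_apply_apply]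
  obtain ⟨hu1, hu2, hu3⟩ := hch
  refine ⟨A', ⟨⟨?_, fun i => ?_, fun a ha i => ?_⟩, ?_, ?_⟩, ?_, ?_, ?_⟩
  · rw [hA, map_zero, add_zero]
    exact hu1
  · rw [hA, zero_add, Pi.basisFun_apply, hLb]
    exact hu2 i
  · have h1 := hu3 _ ((hA _).1 ha) i
    rw [add_sub_cancel_left, ← hLs, LinearEquiv.symm_apply_apply] at h1
    rw [sub_zero, Pi.basisFun_repr]
    exact h1
  · -- segments
    intro a ha a' ha' c p q hpq hc
    rw [hA] at ha ha' ⊢
    refine hseg _ ha _ ha' _ p q hpq ?_
    have h1 := congrArg L hc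
    rw [map_add, Tr_smul, Tr_smul, Tr_smul] at h1
    rw [smul_add, h1, smul_add, smul_add, add_smul]
    abel
  · -- smoothness
    intro x hx
    obtain ⟨hx1, w, hw⟩ := hx
    have hv : IsVertex A (u + L x) := by
      refine ⟨(hA _).1 hx1, fun i => ∑ k, w k * L.symm (Pi.single i 1) k, fun a ha hne => ?_⟩
      have key : ∀ y : Fin n → ℤ, ∑ i, (∑ k, w k * L.symm (Pi.single i 1) k) * y i =
          ∑ k, w k * L.symm y k := by
        intro y
        have e1 : L.symm y = ∑ i, y i • L.symm (Pi.single i (1 : ℤ)) := by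
          conv_lhs => rw [pi_eq_sum_univ y]
          rw [map_sum]
          refine Finset.sum_congr rfl fun i _ => ?_
          rw [Tr_smul]
          congr 2
          funext j
          rw [Pi.single_apply]
          simp only [eq_comm]
        rw [e1]
        simp only [Finset.sum_apply, Pi.smul_apply, smul_eq_mul, Finset.mul_sum, Finset.sum_mul]
        rw [Finset.sum_comm]
        refine Finset.sum_congr rfl fun k _ => Finset.sum_congr rfl fun i _ => ?_
        ring
      rw [key, key]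
      have e2 : a = u + L (L.symm (a - u)) := by
        rw [LinearEquiv.apply_symm_apply]
        abel
      have e3 : L.symm (a - u) ∈ A' := by
        rw [hA, ← e2]
        exact ha
      have e4 : L.symm (a - u) ≠ x := by
        intro h
        apply hne
        rw [e2, h]
      have h5 := hw _ e3 e4
      have e5 : ∀ k, w k * L.symm a k = w k * L.symm u k + w k * L.symm (a - u) k := by
        intro k
        rw [map_sub, Pi.sub_apply]
        ring
      have e6 : ∀ k, w k * L.symm (u + L x) k = w k * L.symm u k + w k * x k := by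
        intro k
        rw [map_add, LinearEquiv.symm_apply_apply, Pi.add_apply]
        ring
      rw [Finset.sum_congr rfl fun k _ => e5 k, Finset.sum_congr rfl fun k _ => e6 k,
        Finset.sum_add_distrib, Finset.sum_add_distrib]
      exact add_lt_add_right h5 _
    obtain ⟨b', hb'⟩ := hsm _ hv
    exact ⟨_, Tr_chart_bwd L u A A' hA x b' hb'⟩
  · intro u' b' hc ho
    exact hno _ _ (Tr_chart_fwd L u A A' hA u' b' hc) (Tr_obs L u A A' hA u' b' ho)
  · intro a
    rw [hA]
    have e1 : (fun i => b.repr (a - u) i) = L.symm (a - u) := by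
      funext i
      rw [hLs]
    rw [e1, LinearEquiv.apply_symm_apply]
    have : u + (a - u) = a := by abel
    rw [this]
  · intro h u' b' hc i hi
    rw [hA, Tr_add, Tr_smul] at hi
    refine h _ _ (Tr_chart_fwd L u A A' hA u' b' hc) i ?_
    rw [Module.Basis.map_apply]
    exact hi

end Pool.Agent.Lib.MP_e005b4_ag
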