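import Pool.Agent.Lib.MP_e005b4_ag.Tor.Spec

/-!
# The cone over the toric variety of a finite set is a projective variety
-/

set_option autoImplicit false

namespace Pool.Agent.Lib.MP_e005b4_ag

open MvPolynomial
open scoped LinearAlgebra.Projectivization

theorem Var_closed {ι : Type} [Fintype ι] (T : Set (PSpace ι)) :
    IsZariskiClosed (zariskiClosure T) := by
  refine ⟨{F | (∃ d, F.IsHomogeneous d) ∧ ∀ q ∈ T, eval q.rep F = 0}, fun F hF => hF.1,
    fun p => ⟨?_, ?_⟩⟩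
  · rintro hp F ⟨⟨d, hd⟩, hF⟩
    exact hp F d hd hF
  · intro hp F d hd hF
    exact hp F ⟨⟨d, hd⟩, hF⟩

theorem Var_low {n : ℕ} (A : Finset (Fin n → ℤ)) :
    ∃ u : Fin n → ℤ, ∀ a ∈ A, ∀ i, u i ≤ a i := by
  refine ⟨fun i => -∑ a ∈ A, |a i|, fun a ha i => ?_⟩
  have h1 : |a i| ≤ ∑ a ∈ A, |a i| :=
    Finset.single_le_sum (f := fun a : Fin n → ℤ => |a i|) (fun _ _ => abs_nonneg _) ha
  have h2 := neg_abs_le (a i)
  show -∑ a ∈ A, |a i| ≤ a i
  omega

theorem Var_repr {n : ℕ} (a u : Fin n → ℤ) (i : Fin n) :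
    (stdB n).repr (a - u) i = a i - u i := by
  simp [stdB]

/-- The parametrization. -/
noncomputable def Var_phi {n : ℕ} (k : ℕ) (A : Finset (Fin n → ℤ)) (u : Fin n → ℤ) :
    A ⊕ Fin k → MvPolynomial (Option (Fin n ⊕ Fin k)) ℂ :=
  Sum.elim (fun a => X none * ∏ i, X (some (Sum.inl i)) ^ (a.1 i - u i).toNat)
    (fun j => X (some (Sum.inr j)))

theorem Var_eval {n k : ℕ} (A : Finset (Fin n → ℤ)) (u : Fin n → ℤ)
    (x : Option (Fin n ⊕ Fin k) → ℂ) :
    (fun i => eval x (Var_phi k A u i)) =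
      (Sum.elim (fun a : A => x none * ∏ i, x (some (Sum.inl i)) ^ ((stdB n).repr (a.1 - u) i).toNat)
        (fun j => x (some (Sum.inr j))) : A ⊕ Fin k → ℂ) := by
  funext i
  rcases i with a | j
  · simp only [Var_phi, Sum.elim_inl, map_mul, eval_X, map_prod, map_pow, Var_repr]
  · simp only [Var_phi, Sum.elim_inr, eval_X]

theorem Var_torus {n k : ℕ} (A : Finset (Fin n → ℤ)) (u : Fin n → ℤ)
    (hu : ∀ a ∈ A, ∀ i, u i ≤ a i) (c : ℂ) (y : Fin n → ℂˣ) (z : Fin k → ℂ) :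
    ∃ x : Option (Fin n ⊕ Fin k) → ℂ, (fun i => eval x (Var_phi k A u i)) =
      Sum.elim (fun a : A => c * ((∏ i, y i ^ (a.1 i) : ℂˣ) : ℂ)) z := by
  refine ⟨fun o => o.elim (c * ((∏ i, y i ^ (u i) : ℂˣ) : ℂ))
    (Sum.elim (fun i => (y i : ℂ)) z), ?_⟩
  funext i
  rcases i with a | j
  · simp only [Var_phi, Sum.elim_inl, map_mul, eval_X, map_prod, map_pow, Option.elim]
    rw [mul_assoc]
    congr 1
    have h1 : (∏ i, y i ^ (u i) : ℂˣ) * (∏ i, y i ^ (a.1 i - u i).toNat : ℂˣ) =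
        ∏ i, y i ^ (a.1 i) := by
      rw [← Finset.prod_mul_distrib]
      refine Finset.prod_congr rfl fun i _ => ?_
      rw [← zpow_natCast, Int.toNat_of_nonneg (by have := hu a.1 a.2 i; omega), ← zpow_add]
      congr 1
      ring
    rw [← h1, Units.val_mul]
    congr 1
    rw [Units.coe_prod]
    exact Finset.prod_congr rfl fun i _ => (Units.val_pow_eq_pow_val _ _).symm
  · simp only [Var_phi, Sum.elim_inr, eval_X, Option.elim]

theorem tVar (hPts : StPts) : StVar := by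
  intro n k A hA
  obtain ⟨u, hu⟩ := Var_low A
  have hb : ∀ a ∈ A, ∀ i, 0 ≤ (stdB n).repr (a - u) i := by
    intro a ha i
    rw [Var_repr]
    have := hu a ha i
    omega
  refine ⟨Var_closed _, ?_⟩
  have hne : (toricCone A k).Nonempty := by
    obtain ⟨a, ha⟩ := hA
    have h1 := hPts n k A u (stdB n) hb 1 (fun _ => 1) 0
    have h2 : (Sum.elim (fun a : A => (1 : ℂ) * ∏ i, (1 : ℂ) ^ ((stdB n).repr (a.1 - u) i).toNat)
        (0 : Fin k → ℂ) : A ⊕ Fin k → ℂ) ≠ 0 := by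
      intro h
      have h3 := congrFun h (Sum.inl ⟨a, ha⟩)
      simp at h3
    exact ⟨_, h1 h2⟩
  refine irred_of_param hne (Var_phi k A u) (fun x => ?_) (fun F d hF h p hp => ?_)
  · rw [Var_eval]
    exact hPts n k A u (stdB n) hb _ _ _
  · refine hp F d hF fun q hq => ?_
    obtain ⟨c, y, z, hq⟩ := hq
    obtain ⟨x, hx⟩ := Var_torus A u hu c y z
    rw [hq, ← hx]
    exact h x

end Pool.Agent.Lib.MP_e005b4_ag
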