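import Pool.Agent.Lib.MP_e005b4_ag.Tor.Spec

/-!
# Ver: there is a vertex
-/

set_option autoImplicit false

namespace Pool.Agent.Lib.MP_e005b4_ag

theorem tVer : StVer := by
  intro n A hA
  obtain ⟨u, hu, hmax⟩ := Finset.exists_max_image A (fun a => ∑ i, (a i) ^ 2) hA
  refine ⟨u, hu, u, fun a ha hne => ?_⟩
  have h1 := hmax a ha
  have h2 : 0 < ∑ i, (a i - u i) ^ 2 := by
    obtain ⟨j, hj⟩ := Function.ne_iff.1 hne
    refine Finset.sum_pos' (fun i _ => sq_nonneg _) ⟨j, Finset.mem_univ j, ?_⟩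
    exact lt_of_le_of_ne (sq_nonneg _) (Ne.symm (pow_ne_zero 2 (sub_ne_zero.2 hj)))
  have h3 : ∑ i, (a i - u i) ^ 2 = ∑ i, (a i) ^ 2 - 2 * ∑ i, u i * a i + ∑ i, (u i) ^ 2 := by
    rw [Finset.mul_sum, ← Finset.sum_sub_distrib, ← Finset.sum_add_distrib]
    exact Finset.sum_congr rfl fun i _ => by ring
  have h4 : ∑ i, u i * u i = ∑ i, (u i) ^ 2 := Finset.sum_congr rfl fun i _ => by ring
  rw [h4]
  linarith

end Pool.Agent.Lib.MP_e005b4_ag
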